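import Pool.Agent.Work.MP_d87e04_lc.SS.SMgu

/-!
# Module SCP: closing steps which duplicate only tame terms

`PConst R`: the constants which occur as proper subterms of left sides. A term is tame if it
contains a variable or no constant of `PConst R`. If every variable which occurs twice in the right
side of the rule of a closing step is instantiated by a tame term, then the closing step is mild for
`𝒢` = the ground terms without constants of `PConst R`.
-/

set_option autoImplicit false

namespace Pool.Agent.Work.MP_d87e04_lc.SS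

open Pool.Agent.Work.MP_d87e04_lc.CF Pool.Agent.Work.MP_d87e04_lc.CG

universe u

variable {F : Type u} {ar : F → ℕ} {R : Set (Rule F ar)}

/-- The step `z` duplicates only tame terms: if a variable stands at two positions of the right
side of its rule, the corresponding subterm of the target is tame. -/
def TameDup (R : Set (Rule F ar)) (z : Stp F ar) : Prop :=
  ∀ k k' x s, k ≠ k' → z.q.2.subAt k = some (Tm.var x) → z.q.2.subAt k' = some (Tm.var x) →
    z.tgt.subAt (z.p ++ k) = some s → Tame R s

/-- Condition (c), with closing steps which duplicate only tame terms. -/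
def CondDS (R : Set (Rule F ar)) : Prop :=
  ∀ l r g d ρ₁ ρ₂ p θ, Overlap R l r g d ρ₁ ρ₂ p θ →
    (d.ren ρ₂).subst θ = ((g.ren ρ₂).subst θ).repl p ((r.ren ρ₁).subst θ) ∨
    (∃ z : Stp F ar, z.OK R ∧ z.t = (d.ren ρ₂).subst θ ∧
      z.tgt = ((g.ren ρ₂).subst θ).repl p ((r.ren ρ₁).subst θ) ∧ TameDup R z) ∨
    ∃ z : Stp F ar, z.OK R ∧ z.t = ((g.ren ρ₂).subst θ).repl p ((r.ren ρ₁).subst θ) ∧
      z.tgt = (d.ren ρ₂).subst θ ∧ TameDup R z

/-- The ground terms without constants of `PConst R`. -/
def GP (R : Set (Rule F ar)) : Set (Tm F ar) :=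
  {s | (∀ x, s.occ x = 0) ∧ ∀ k c a, s.subAt k = some (Tm.app c a) → c ∉ PConst R}

private theorem cp_nil (t : Tm F ar) : t.subAt [] = some t := by
  cases t <;> rfl

private theorem cp_cons {f : F} {a : Fin (ar f) → Tm F ar} {i : ℕ} {p : List ℕ} {s : Tm F ar} :
    (Tm.app f a).subAt (i :: p) = some s ↔ ∃ h : i < ar f, (a ⟨i, h⟩).subAt p = some s := by
  simp only [Tm.subAt]
  constructor
  · intro h
    split at h
    · rename_i hi
      exact ⟨hi, h⟩
    · exact absurd h (by simp)
  · rintro ⟨h, h'⟩
    rw [dif_pos h]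
    exact h'

/-- Every ground term contains a constant. -/
private theorem cp_const : ∀ (s : Tm F ar), (∀ x, s.occ x = 0) →
    ∃ k c a, s.subAt k = some (Tm.app c a) ∧ ar c = 0 := by
  intro s
  induction s with
  | var x => intro h; exact absurd (h x) (by simp [Tm.occ])
  | app f a ih =>
    intro h
    rcases Nat.eq_zero_or_pos (ar f) with h0 | h0
    · exact ⟨[], f, a, cp_nil _, h0⟩
    · obtain ⟨k, c, b, h1, h2⟩ := ih ⟨0, h0⟩ (fun x => by
        by_contra hc
        have h3 := Tm.occ_arg (f := f) (a := a) (i := ⟨0, h0⟩) (x := x) (Nat.pos_of_ne_zero hc)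
        rw [h x] at h3
        exact absurd h3 (lt_irrefl 0))
      exact ⟨0 :: k, c, b, cp_cons.2 ⟨h0, h1⟩, h2⟩

private theorem cp_id (t : Tm F ar) : t.subst Tm.var = t := by
  induction t with
  | var x => rfl
  | app f a ih =>
    show Tm.app f (fun i => (a i).subst Tm.var) = Tm.app f a
    congr 1
    funext i
    exact ih i

private theorem cp_ground {t : Tm F ar} {τ : ℕ → Tm F ar} (h : ∀ x, t.occ x = 0) :
    t.subst τ = t := by
  have h1 : t.subst τ = t.subst Tm.var := Tm.subst_congr t fun x hx => by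
    rw [h x] at hx
    exact absurd hx (lt_irrefl 0)
  rw [h1, cp_id]

private theorem cp_sub {t s : Tm F ar} {k : List ℕ} (h : ∀ x, t.occ x = 0)
    (hk : t.subAt k = some s) : ∀ x, s.occ x = 0 := fun x =>
  Nat.le_zero.1 ((Tm.subAt_linear t k s hk x).trans (h x).le)

/-- size of a term -/
private def cpz : Tm F ar → ℕ
  | .var _ => 1
  | .app _ a => 1 + ∑ i, cpz (a i)

private theorem cpz_sub : ∀ (t : Tm F ar) (k : List ℕ) (s : Tm F ar), t.subAt k = some s →
    cpz s ≤ cpz t := by
  intro t
  induction t with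
  | var x =>
    intro k s h
    cases k with
    | nil =>
      rw [cp_nil] at h
      cases h
      exact le_rfl
    | cons i k => exact absurd h (by simp [Tm.subAt])
  | app f a ih =>
    intro k s h
    cases k with
    | nil =>
      rw [cp_nil] at h
      cases h
      exact le_rfl
    | cons i k =>
      obtain ⟨hi, h1⟩ := cp_cons.1 h
      have h2 := ih ⟨i, hi⟩ k s h1
      have h3 : cpz (a ⟨i, hi⟩) ≤ ∑ i, cpz (a i) :=
        Finset.single_le_sum (f := fun i => cpz (a i)) (fun _ _ => Nat.zero_le _)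
          (Finset.mem_univ _)
      show cpz s ≤ 1 + ∑ i, cpz (a i)
      omega

/-- a term is not a proper subterm of itself -/
private theorem cp_self (s : Tm F ar) (i : ℕ) (n : List ℕ) : ¬ s.subAt (i :: n) = some s := by
  intro h
  cases s with
  | var x => exact absurd h (by simp [Tm.subAt])
  | app f a =>
    obtain ⟨hi, h1⟩ := cp_cons.1 h
    have h2 := cpz_sub _ _ _ h1
    have h3 : cpz (a ⟨i, hi⟩) ≤ ∑ i, cpz (a i) :=
      Finset.single_le_sum (f := fun i => cpz (a i)) (fun _ _ => Nat.zero_le _)
        (Finset.mem_univ _)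
    have h4 : cpz (Tm.app f a) = 1 + ∑ i, cpz (a i) := rfl
    omega

private theorem subAt_repl_self {t u : Tm F ar} {p : List ℕ} (h : t.subAt p = some u)
    (s : Tm F ar) : (t.repl p s).subAt p = some s := by
  have := subAt_repl_below (s := s) h []
  rw [List.append_nil, cp_nil] at this
  exact this

/-- A ground subterm of `r τ` whose constants are at positions of `r` is a subterm of `r`. -/
private theorem cp_pat {r : Tm F ar} {τ : ℕ → Tm F ar} {s : Tm F ar} (hs : ∀ x, s.occ x = 0)
    {m : List ℕ} (h : (r.subst τ).subAt m = some s)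
    (hc : ∀ n c a, s.subAt n = some (Tm.app c a) → ar c = 0 → Np r (m ++ n)) :
    r.subAt m = some s := by
  obtain ⟨n, c, b, h1, h2⟩ := cp_const s hs
  have h3 := hc n c b h1 h2
  -- `m` is a position of `r`
  obtain ⟨f, a', h4⟩ := h3
  have h5 : m ∈ ps r := ps_of_prefix (List.prefix_append m n) (mem_ps.2 ⟨_, h4⟩)
  obtain ⟨v, hv⟩ := mem_ps.1 h5
  have h6 := Tm.subAt_subst τ _ _ _ hv
  rw [h] at h6
  have h7 : s = v.subst τ := Option.some.inj h6
  have h8 : ∀ x, v.occ x = 0 := by
    intro x
    by_contra hx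
    have hx' := vpos_spec (Nat.pos_of_ne_zero hx)
    have h9 := Tm.subAt_subst τ _ _ _ hx'
    rw [← h7] at h9
    obtain ⟨n', c', b', h10, h11⟩ := cp_const (τ x) (cp_sub hs h9)
    have h12 : s.subAt (vpos v x ++ n') = some (Tm.app c' b') := by
      rw [subAt_append h9]
      exact h10
    have h13 := hc _ c' b' h12 h11
    rw [← List.append_assoc] at h13
    have h14 : r.subAt (m ++ vpos v x) = some (Tm.var x) := by
      rw [subAt_append hv]
      exact hx'
    exact not_np_of_var h14 n' h13
  rw [hv, h7, cp_ground h8]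

theorem condX_of_condDS (hT : IsTRS R) (hL : LeftLinear R) (hD : CondDS R) :
    CondX R (GP R) := by
  have hg : ∀ s ∈ GP R, ∀ x, s.occ x = 0 := fun s hs => hs.1
  have key := most_of_mgu hT hL (Φ := fun z _ _ => ∀ k k' x s, k ≠ k' →
      z.q.2.subAt k = some (Tm.var x) → z.q.2.subAt k' = some (Tm.var x) →
      z.tgt.subAt (z.p ++ k) = some s → (∃ y, 0 < s.occ y) ∨ s ∈ GP R)
    (fun z p r χ hz h hχ => mildI_inst hg hz h hχ) (by
      have conv : ∀ z : Stp F ar, TameDup R z → ∀ k k' x s, k ≠ k' →
          z.q.2.subAt k = some (Tm.var x) → z.q.2.subAt k' = some (Tm.var x) →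
          z.tgt.subAt (z.p ++ k) = some s → (∃ y, 0 < s.occ y) ∨ s ∈ GP R := by
        intro z hz k k' x s h1 h2 h3 h4
        rcases hz k k' x s h1 h2 h3 h4 with h5 | h5
        · exact Or.inl h5
        · by_cases h6 : ∃ y, 0 < s.occ y
          · exact Or.inl h6
          · refine Or.inr ⟨fun x => ?_, h5⟩
            by_contra hx
            exact h6 ⟨x, Nat.pos_of_ne_zero hx⟩
      intro l r g d ρ₁ ρ₂ p θ hov
      rcases hD l r g d ρ₁ ρ₂ p θ hov with h | ⟨z, h1, h2, h3, h4⟩ | ⟨z, h1, h2, h3, h4⟩
      · exact Or.inl h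
      · exact Or.inr (Or.inl ⟨z, h1, h2, h3, conv z h4⟩)
      · exact Or.inr (Or.inr ⟨z, h1, h2, h3, conv z h4⟩))
  intro q hq q' hq' p u σ ψ hm
  have hat : (q.1.subst σ).subAt p = some (q'.1.subst ψ) := by
    rw [Tm.subAt_subst σ _ _ _ hm.at_, hm.eq]
  -- the constants of `q.1 σ` at proper positions are in `PConst`
  have hroot : ∀ {r : Rule F ar}, r ∈ R → ∀ {e : List ℕ} {c : F} {b : Fin (ar c) → Tm F ar},
      ar c = 0 → c ∉ PConst R → r.1.subAt e = some (Tm.app c b) → e = [] := by
    intro r hr e c b h0 hc he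
    cases e with
    | nil => rfl
    | cons i k => exact absurd ⟨h0, r, hr, i, k, b, he⟩ hc
  have hsrc : ∀ {e : List ℕ} {c : F} {b : Fin (ar c) → Tm F ar}, ar c = 0 → c ∉ PConst R →
      (q.1.subst σ).subAt e = some (Tm.app c b) → e = p := by
    intro e c b h0 hc he
    rcases hm.np e ⟨c, b, he⟩ with ⟨f, a, h1⟩ | ⟨m, f, a, h1, h2⟩
    · have h3 := Tm.subAt_subst σ _ _ _ h1
      rw [he] at h3
      have h4 : f = c := by
        have h5 := Option.some.inj h3
        rw [Tm.subst_app] at h5
        injection h5 with h6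
        exact h6.symm
      subst h4
      have h5 := hroot hq h0 hc h1
      subst h5
      -- `q.1` is a constant, so `p = []`
      rw [cp_nil] at h1
      have h6 : q.1 = Tm.app f a := Option.some.inj h1
      cases p with
      | nil => rfl
      | cons i k =>
        have h7 := hm.at_
        rw [h6] at h7
        obtain ⟨hi, _⟩ := cp_cons.1 h7
        omega
    · have h3 := Tm.subAt_subst ψ _ _ _ h2
      rw [h1, subAt_append hat, h3] at he
      have h4 : f = c := by
        have h5 := Option.some.inj he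
        rw [Tm.subst_app] at h5
        injection h5
      subst h4
      have h5 := hroot hq' h0 hc h2
      rw [h5, List.append_nil] at h1
      exact h1
  -- no good constants below the variables
  have hσ : ∀ x, 0 < q.1.occ x → ∀ {n : List ℕ} {c : F} {b : Fin (ar c) → Tm F ar}, ar c = 0 →
      c ∉ PConst R → (σ x).subAt n = some (Tm.app c b) → False := by
    intro x hx n c b h0 hc hn
    have h1 := vpos_spec hx
    have h2 := Tm.subAt_subst σ _ _ _ h1
    have h3 : (q.1.subst σ).subAt (vpos q.1 x ++ n) = some (Tm.app c b) := by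
      rw [subAt_append h2]
      exact hn
    have h4 := hsrc h0 hc h3
    have h5 := hm.at_
    have h6 : Np q.1 (vpos q.1 x ++ n) := by
      rw [h4]
      cases u with
      | var y => exact absurd rfl (hm.nv y)
      | app f a => exact ⟨f, a, h5⟩
    exact not_np_of_var h1 n h6
  have hψ : ∀ x, 0 < q'.1.occ x → ∀ {n : List ℕ} {c : F} {b : Fin (ar c) → Tm F ar}, ar c = 0 →
      c ∉ PConst R → (ψ x).subAt n = some (Tm.app c b) → False := by
    intro x hx n c b h0 hc hn
    have h1 := vpos_spec hx
    have h2 := Tm.subAt_subst ψ _ _ _ h1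
    have h3 : (q.1.subst σ).subAt (p ++ (vpos q'.1 x ++ n)) = some (Tm.app c b) := by
      rw [subAt_append hat, subAt_append h2]
      exact hn
    have h4 := hsrc h0 hc h3
    have h5 : vpos q'.1 x ++ n = [] := by
      have := h4
      nth_rewrite 2 [← List.append_nil p] at this
      exact List.append_cancel_left this
    have h6 : vpos q'.1 x = [] := (List.append_eq_nil_iff.1 h5).1
    rw [h6, cp_nil] at h1
    exact (hT q' hq').1 x (Option.some.inj h1)
  -- ground terms of `GP` in `q.2 σ`, `q'.2 ψ`
  have hright : ∀ {r : Rule F ar} {τ : ℕ → Tm F ar}, r ∈ R →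
      (∀ x, 0 < r.1.occ x → ∀ {n : List ℕ} {c : F} {b : Fin (ar c) → Tm F ar}, ar c = 0 →
        c ∉ PConst R → (τ x).subAt n = some (Tm.app c b) → False) →
      ∀ {s : Tm F ar} {m : List ℕ}, s ∈ GP R → (r.2.subst τ).subAt m = some s →
        r.2.subAt m = some s := by
    intro r τ hr hτ s m hs h
    refine cp_pat hs.1 h fun n c a h1 h0 => ?_
    have h2 : (r.2.subst τ).subAt (m ++ n) = some (Tm.app c a) := by
      rw [subAt_append h]
      exact h1
    rcases ps_subst_cases (mem_ps.2 ⟨_, h2⟩) with h3 | ⟨j, x, n', h3, h4, h5⟩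
    · exact h3
    · exfalso
      rw [h5, subAt_append (Tm.subAt_subst τ _ _ _ h3)] at h2
      exact hτ x ((hT r hr).2 x (occ_of_subAt h3)) h0 (hs.2 n c a h1) h2
  rcases key q hq q' hq' p u σ ψ hm with h | ⟨z, hz, hzt, hzg, hM⟩ | ⟨z, hz, hzt, hzg, hM⟩
  · exact Or.inl h
  · refine Or.inr (Or.inl ⟨z, hz, hzt, hzg, hM, ?_⟩)
    intro k k' s hs hkk _ _ hk hk'
    rw [hzg] at hk hk'
    obtain ⟨n, c, b, h1, h0⟩ := cp_const s hs.1
    have hcP := hs.2 n c b h1
    have hself : ∀ {k k' : List ℕ}, ((q.1.subst σ).repl p (q'.2.subst ψ)).subAt k = some s →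
        ((q.1.subst σ).repl p (q'.2.subst ψ)).subAt k' = some s → k <+: k' → k = k' := by
      rintro k _ hk hk' ⟨n, rfl⟩
      rw [subAt_append hk] at hk'
      cases n with
      | nil => rw [List.append_nil]
      | cons i n => exact absurd hk' (cp_self s i n)
    have hpk : ∀ {k k' : List ℕ}, k ≠ k' →
        ((q.1.subst σ).repl p (q'.2.subst ψ)).subAt k = some s →
        ((q.1.subst σ).repl p (q'.2.subst ψ)).subAt k' = some s → p <+: k := by
      intro k k' hkk hk hk'
      -- the constants of both copies are below `p`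
      have hpc : ∀ {k : List ℕ}, ((q.1.subst σ).repl p (q'.2.subst ψ)).subAt k = some s →
          p <+: k ++ n := by
        intro k hk
        by_contra hp
        have h2 : ((q.1.subst σ).repl p (q'.2.subst ψ)).subAt (k ++ n) = some (Tm.app c b) := by
          rw [subAt_append hk]
          exact h1
        by_cases hkp : k ++ n <+: p
        · obtain ⟨e, he⟩ := hkp
          cases e with
          | nil => exact hp (by rw [← he, List.append_nil])
          | cons i e =>
            have h3 : p ∈ ps ((q.1.subst σ).repl p (q'.2.subst ψ)) := by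
              have := (ps_append (k := []) (subAt_repl_self hat (q'.2.subst ψ))).2
                (mem_ps.2 ⟨_, cp_nil _⟩)
              rwa [List.append_nil] at this
            obtain ⟨v, hv⟩ := mem_ps.1 h3
            have hv' : ((q.1.subst σ).repl p (q'.2.subst ψ)).subAt ((k ++ n) ++ (i :: e)) =
                some v := by
              rw [he]
              exact hv
            rw [subAt_append h2] at hv'
            obtain ⟨hi, _⟩ := cp_cons.1 hv'
            omega
        · rw [subAt_repl_par hp hkp] at h2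
          exact hp (by rw [hsrc h0 hcP h2])
      have h3 := hpc hk
      have h4 := hpc hk'
      rcases List.prefix_or_prefix_of_prefix h3 (List.prefix_append k n) with h5 | h5
      · exact h5
      · exfalso
        have h6 : k <+: k' ++ n := h5.trans h4
        rcases List.prefix_or_prefix_of_prefix h6 (List.prefix_append k' n) with h7 | h7
        · exact hkk (hself hk hk' h7)
        · exact hkk (hself hk' hk h7).symm
    obtain ⟨m, rfl⟩ := hpk hkk hk hk'
    obtain ⟨m', rfl⟩ := hpk (Ne.symm hkk) hk' hk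
    rw [subAt_repl_below hat] at hk hk'
    exact ⟨m, m', rfl, rfl, hright hq' hψ hs hk, hright hq' hψ hs hk'⟩
  · refine Or.inr (Or.inr ⟨z, hz, hzt, hzg, hM, ?_⟩)
    intro k k' s hs hkk _ _ hk hk'
    rw [hzg] at hk hk'
    exact ⟨k, k', rfl, rfl, hright hq hσ hs hk, hright hq hσ hs hk'⟩

private theorem occ_pos' {r : Tm F ar} {k : List ℕ} {x : ℕ} (h : r.subAt k = some (Tm.var x)) :
    0 < r.occ x := occ_of_subAt h

/-- A variable at two positions occurs twice. -/
private theorem occ_two {r : Tm F ar} {k k' : List ℕ} {x : ℕ}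
    (h : r.subAt k = some (Tm.var x)) (h' : r.subAt k' = some (Tm.var x)) (hk : k ≠ k') :
    2 ≤ r.occ x := by
  induction r generalizing k k' with
  | var y =>
    cases k with
    | nil =>
      cases k' with
      | nil => exact absurd rfl hk
      | cons i k' => exact absurd h' (by simp [Tm.subAt])
    | cons i k => exact absurd h (by simp [Tm.subAt])
  | app f a ih =>
    cases k with
    | nil => exact absurd h (by simp [Tm.subAt])
    | cons i k =>
      cases k' with
      | nil => exact absurd h' (by simp [Tm.subAt])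
      | cons j k' =>
        obtain ⟨hi, h⟩ := cp_cons.1 h
        obtain ⟨hj, h'⟩ := cp_cons.1 h'
        by_cases hij : i = j
        · subst hij
          have h1 := ih ⟨i, hi⟩ h h' (fun e => hk (by rw [e]))
          exact h1.trans (Tm.occ_le a ⟨i, hi⟩ x)
        · have h1 := occ_pos' h
          have h2 := occ_pos' h'
          have hne : (⟨i, hi⟩ : Fin (ar f)) ≠ ⟨j, hj⟩ := fun e => hij (congrArg Fin.val e)
          show 2 ≤ ∑ i, (a i).occ x
          calc 2 ≤ (a ⟨i, hi⟩).occ x + (a ⟨j, hj⟩).occ x := by omega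
            _ = ∑ i ∈ ({⟨i, hi⟩, ⟨j, hj⟩} : Finset (Fin (ar f))), (a i).occ x := by
              rw [Finset.sum_pair hne]
            _ ≤ ∑ i, (a i).occ x :=
              Finset.sum_le_sum_of_subset (Finset.subset_univ _)

private theorem tame_stp {x y : Tm F ar} (h : TameStep R x y) :
    ∃ z : Stp F ar, z.OK R ∧ z.t = x ∧ z.tgt = y ∧ TameDup R z := by
  obtain ⟨q, hq, p, σ, h1, h2, h3⟩ := h
  refine ⟨⟨x, p, q, y⟩, ⟨hq, σ, h1, h2⟩, rfl, rfl, ?_⟩
  intro k k' v s hkk hk hk' hs
  have hs' : y.subAt (p ++ k) = some s := hs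
  have hk0 : q.2.subAt k = some (Tm.var v) := hk
  have h4 : y.subAt (p ++ k) = some (σ v) := by
    rw [h2, subAt_repl_below h1]
    exact Tm.subAt_subst σ _ _ _ hk0
  have h5 : s = σ v := Option.some.inj (hs'.symm.trans h4)
  rw [h5]
  exact h3 v (occ_two hk0 hk' hkk)

theorem condDS_of_condD (h : CondD R) : CondDS R := by
  intro l r g d ρ₁ ρ₂ p θ hov
  obtain ⟨o1, o2, o3, o4, o5, ⟨u', o6, o7, o8⟩, o9⟩ := hov
  have hcp : CriticalPair R (((g.ren ρ₂).subst θ).repl p ((r.ren ρ₁).subst θ))
      ((d.ren ρ₂).subst θ) :=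
    ⟨l, r, g, d, o1, o2, ρ₁, ρ₂, o3, o4, o5, p, u', θ, o6, o7, o8, o9, rfl, rfl⟩
  rcases h _ _ hcp with h1 | h1 | h1
  · exact Or.inl h1
  · exact Or.inr (Or.inl (tame_stp h1))
  · exact Or.inr (Or.inr (tame_stp h1))

theorem condX_of_condD (hT : IsTRS R) (hL : LeftLinear R) (hD : CondD R) :
    CondX R (GP R) := condX_of_condDS hT hL (condDS_of_condD hD)

end Pool.Agent.Work.MP_d87e04_lc.SS
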