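import Pool.Agent.Work.MP_d87e04_lc.Defs

/-!
# Definitions for the statement of `MP_d87e04_lc.SingleSteps`
-/

set_option autoImplicit false

namespace Pool.Agent.Work.MP_d87e04_lc.SS

universe u

variable {F : Type u} {ar : F → ℕ}

/-- No left-hand side has a ground proper subterm: every subterm at a non-empty position contains a
variable. -/
def NoGP (R : Set (Rule F ar)) : Prop :=
  ∀ q ∈ R, ∀ i k s, q.1.subAt (i :: k) = some s → ∃ x, 0 < s.occ x

/-- The constants which occur as proper subterms of left-hand sides. -/
def PConst (R : Set (Rule F ar)) : Set F :=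
  {c | ar c = 0 ∧ ∃ q ∈ R, ∃ i k a, q.1.subAt (i :: k) = some (Tm.app c a)}

/-- The term `s` contains a variable, or it contains no constant of `PConst R`. -/
def Tame (R : Set (Rule F ar)) (s : Tm F ar) : Prop :=
  (∃ y, 0 < s.occ y) ∨ ∀ k c a, s.subAt k = some (Tm.app c a) → c ∉ PConst R

/-- A step from `x` to `y` with the rule `q` and the substitution `σ`, such that `σ v` is tame for
every variable `v` which occurs at least twice in the right side of `q`. -/
def TameStep (R : Set (Rule F ar)) (x y : Tm F ar) : Prop :=
  ∃ q ∈ R, ∃ (p : List ℕ) (σ : ℕ → Tm F ar), x.subAt p = some (q.1.subst σ) ∧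
    y = x.repl p (q.2.subst σ) ∧ ∀ v, 2 ≤ q.2.occ v → Tame R (σ v)

/-- Condition (c), with closing steps which duplicate only tame terms. -/
def CondD (R : Set (Rule F ar)) : Prop :=
  ∀ t s, CriticalPair R t s → s = t ∨ TameStep R s t ∨ TameStep R t s

end Pool.Agent.Work.MP_d87e04_lc.SS
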