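import Pool.Agent.Work.MP_d87e04_lc.CG.TCut
import Pool.Agent.Work.MP_d87e04_lc.CG.TDef
import Pool.Agent.Work.MP_d87e04_lc.SS.Cond

/-!
# Block SS: single steps with maximal weights. Definitions

* `Sc`: an abstract calculus of single steps with weights; `U a` transports weights from the target
  to the source, `D a` from the source to the target.
* words: lists of letters `(true, b)` (forward) and `(false, a)` (backward).
* `Stp`: single steps of terms with explicit positions.
-/

set_option autoImplicit false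

namespace Pool.Agent.Work.MP_d87e04_lc.SS

open Pool.Agent.Work.MP_d87e04_lc.CF Pool.Agent.Work.MP_d87e04_lc.CG

/-! ## The abstract calculus -/

/-- Single steps with weights. -/
structure Sc (T S P : Type*) where
  /-- source -/
  src : S → T
  /-- target -/
  tgt : S → T
  /-- weights on the source from weights on the target -/
  U : S → (P → ℕ) → P → ℕ
  /-- weights on the target from weights on the source -/
  D : S → (P → ℕ) → P → ℕ
  /-- cost of a step from left and right weights on its source -/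
  cost : S → (P → ℕ) → (P → ℕ) → ℕ
  /-- the weights vanish outside of the positions of the term -/
  Sup : T → (P → ℕ) → Prop

namespace Sc

variable {T S P : Type*} (K : Sc T S P)

/-- `IsW G x ws y`: the word `ws` with letters in `G` goes from `x` to `y`. -/
def IsW (G : Set S) : T → List (Bool × S) → T → Prop
  | x, [], y => x = y
  | x, (true, b) :: ws, y => b ∈ G ∧ K.src b = x ∧ IsW G (K.tgt b) ws y
  | x, (false, a) :: ws, y => a ∈ G ∧ K.tgt a = x ∧ IsW G (K.src a) ws y

/-- Left weights at the end of the word from left weights at its start. -/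
def LW : List (Bool × S) → (P → ℕ) → P → ℕ
  | [], v => v
  | (true, b) :: ws, v => LW ws (K.D b v)
  | (false, a) :: ws, v => LW ws (K.U a v)

/-- Right weights at the start of the word from right weights at its end. -/
def RW : List (Bool × S) → (P → ℕ) → P → ℕ
  | [], w => w
  | (true, b) :: ws, w => K.U b (RW ws w)
  | (false, a) :: ws, w => K.D a (RW ws w)

/-- The multiset of the costs of the letters. -/
def CW : List (Bool × S) → (P → ℕ) → (P → ℕ) → Multiset ℕ
  | [], _, _ => 0
  | (true, b) :: ws, v, w => K.cost b v (K.U b (K.RW ws w)) ::ₘ CW ws (K.D b v) w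
  | (false, a) :: ws, v, w => K.cost a (K.U a v) (K.RW ws w) ::ₘ CW ws (K.U a v) w

/-- Monotonicity and symmetry. -/
structure Mon : Prop where
  U_mono : ∀ a v v', v ≤ v' → K.U a v ≤ K.U a v'
  D_mono : ∀ a v v', v ≤ v' → K.D a v ≤ K.D a v'
  cost_mono : ∀ a v v' w w', v ≤ v' → w ≤ w' → K.cost a v w ≤ K.cost a v' w'
  cost_symm : ∀ a v w, K.cost a v w = K.cost a w v
  sup_zero : ∀ x, K.Sup x fun _ => 0
  sup_U : ∀ a v, K.Sup (K.src a) (K.U a v)
  sup_D : ∀ a v, K.Sup (K.tgt a) (K.D a v)

/-- The peak `tgt a ← src a = src b → tgt b` is closed by a word with smaller weights and smaller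
costs (Dershowitz-Manna order), or by a square with not larger costs. -/
def Good (G : Set S) (a b : S) : Prop :=
  ∃ ws, K.IsW G (K.tgt a) ws (K.tgt b) ∧ ∀ v w : P → ℕ, K.Sup (K.tgt a) v →
    K.Sup (K.tgt b) w → K.LW ws v ≤ K.D b (K.U a v) ∧ K.RW ws w ≤ K.D a (K.U b w) ∧
      (Multiset.IsDershowitzMannaLT (K.CW ws v w)
          {K.cost a (K.U a v) (K.U b w), K.cost b (K.U a v) (K.U b w)} ∨
        ∃ b' a', ws = [(true, b'), (false, a')] ∧
          K.cost b' v (K.U b' (K.D a' w)) ≤ K.cost b (K.U a v) (K.U b w) ∧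
          K.cost a' (K.U a' (K.D b' v)) w ≤ K.cost a (K.U a v) (K.U b w))

/-- The rewrite relation of a set of steps. -/
def Rel (G : Set S) (x y : T) : Prop := ∃ a ∈ G, K.src a = x ∧ K.tgt a = y

end Sc

/-! ## Terms -/

universe u

variable {F : Type u} {ar : F → ℕ}

/-- All positions of a term. -/
noncomputable def ps (t : Tm F ar) : Finset (List ℕ) := tv Set.univ t

open Classical in
/-- The positions of the variable `x` in `r`. -/
noncomputable def vps (r : Tm F ar) (x : ℕ) : Finset (List ℕ) :=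
  (ps r).filter fun k => r.subAt k = some (Tm.var x)

/-- `k` is a non-variable position of `r`. -/
def Np (r : Tm F ar) (k : List ℕ) : Prop := ∃ f a, r.subAt k = some (Tm.app f a)

/-- A single step with source `t` and target `tgt`: a redex of the rule `q` at the position `p` of
`t` is contracted. -/
structure Stp (F : Type u) (ar : F → ℕ) where
  /-- source -/
  t : Tm F ar
  /-- position of the redex -/
  p : List ℕ
  /-- rule -/
  q : Rule F ar
  /-- target -/
  tgt : Tm F ar

namespace Stp

/-- The step is a step of `R`. -/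
def OK (R : Set (Rule F ar)) (a : Stp F ar) : Prop :=
  a.q ∈ R ∧ ∃ σ : ℕ → Tm F ar, a.t.subAt a.p = some (a.q.1.subst σ) ∧
    a.tgt = a.t.repl a.p (a.q.2.subst σ)

/-- The pattern of the redex: the positions of the symbols of the left side. -/
noncomputable def pat (a : Stp F ar) : Finset (List ℕ) :=
  (tn Set.univ a.q.1).image (a.p ++ ·)

/-- The position `e` of the target is created. -/
def Cre (a : Stp F ar) (e : List ℕ) : Prop := ∃ k, e = a.p ++ k ∧ Np a.q.2 k

/-- The origin of a position of the target which is not created. -/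
noncomputable def og (a : Stp F ar) (e : List ℕ) : List ℕ :=
  if a.p <+: e then
    a.p ++ (vpos a.q.1 (along a.q.2 (e.drop a.p.length)).1 ++
      (along a.q.2 (e.drop a.p.length)).2)
  else e

open Classical in
/-- The copies in the target of a position of the source. -/
noncomputable def cps (a : Stp F ar) (f : List ℕ) : Finset (List ℕ) :=
  (ps a.tgt).filter fun e => ¬ a.Cre e ∧ a.og e = f

/-- The region of the target given by the assignment `S` of positions of right sides. -/
def Reg (S : Rule F ar → Set (List ℕ)) (a : Stp F ar) (e : List ℕ) : Prop :=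
  ∃ u ∈ S a.q, a.p ++ u <+: e

/-- Instance of a step. -/
def inst (a : Stp F ar) (δ : ℕ → Tm F ar) : Stp F ar :=
  ⟨a.t.subst δ, a.p, a.q, a.tgt.subst δ⟩

end Stp

/-- The weight of a position with the copies `K`. -/
def cp (K : Finset (List ℕ)) (w : List ℕ → ℕ) : ℕ :=
  if K.card ≤ 1 then K.sup w else 1 + K.sup w

open Classical in
/-- The label of a step, from weights on its target. -/
noncomputable def lab (S : Rule F ar → Set (List ℕ)) (a : Stp F ar) (w : List ℕ → ℕ) : ℕ :=
  max ((ps a.tgt).sup w) (1 + ((ps a.tgt).filter (a.Reg S)).sup w)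

open Classical in
/-- Weights on the source from weights on the target. -/
noncomputable def wU (S : Rule F ar → Set (List ℕ)) (a : Stp F ar) (w : List ℕ → ℕ)
    (f : List ℕ) : ℕ :=
  if f ∈ ps a.t then (if f ∈ a.pat then lab S a w else cp (a.cps f) w) else 0

open Classical in
/-- Weights on the target from weights on the source. -/
noncomputable def wD (a : Stp F ar) (w : List ℕ → ℕ) (e : List ℕ) : ℕ :=
  if e ∈ ps a.tgt then (if a.Cre e then a.pat.sup w else w (a.og e)) else 0

/-- The cost of a step. -/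
noncomputable def wc (a : Stp F ar) (v w : List ℕ → ℕ) : ℕ := a.pat.sup fun f => v f + w f

/-- The calculus of single steps. -/
noncomputable def sc (S : Rule F ar → Set (List ℕ)) : Sc (Tm F ar) (Stp F ar) (List ℕ) where
  src := Stp.t
  tgt := Stp.tgt
  U := wU S
  D := wD
  cost := wc
  Sup := fun t v => ∀ e, e ∉ ps t → v e = 0

/-- Assumptions on the assignment `S`: `S q` consists of positions of the right side of `q`, and
covers all positions of variables which occur at another position, too. -/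
structure Sok (R : Set (Rule F ar)) (S : Rule F ar → Set (List ℕ)) : Prop where
  pos : ∀ q ∈ R, ∀ u ∈ S q, ∃ s, q.2.subAt u = some s
  dup : ∀ q ∈ R, ∀ (k k' : List ℕ) (x : ℕ), k ≠ k' → q.2.subAt k = some (Tm.var x) →
    q.2.subAt k' = some (Tm.var x) → ∃ u ∈ S q, u <+: k

/-- The triangle of an overlap: `z` goes from `tgt b` to `tgt a`. -/
structure Tr (S : Rule F ar → Set (List ℕ)) (a b z : Stp F ar) : Prop where
  ab : a.t = b.t
  zb : z.t = b.tgt
  za : z.tgt = a.tgt
  meet : ∃ f, f ∈ a.pat ∧ f ∈ b.pat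
  reg : ∀ e ∈ ps a.tgt, z.Reg S e → a.Reg S e
  g1 : ∀ e ∈ ps b.tgt, b.Cre e ∨ b.og e ∈ a.pat ∨ (e ∉ z.pat ∧ z.cps e ⊆ a.cps (b.og e))
  g2 : ∀ e ∈ ps a.tgt, a.Cre e ∨ a.og e ∈ b.pat ∨ (¬ z.Cre e ∧ z.og e ∈ b.cps (a.og e))

/-- The trivial triangle of an overlap: both targets are the same. -/
structure Tr0 (a b : Stp F ar) : Prop where
  ab : a.t = b.t
  ta : a.tgt = b.tgt
  meet : ∃ f, f ∈ a.pat ∧ f ∈ b.pat
  g1 : ∀ e ∈ ps b.tgt, b.Cre e ∨ b.og e ∈ a.pat ∨ e ∈ a.cps (b.og e)
  g2 : ∀ e ∈ ps a.tgt, a.Cre e ∨ a.og e ∈ b.pat ∨ e ∈ b.cps (a.og e)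

/-! ## Sequences of parallel steps with the same redex -/

/-- The term `s` is placed at the positions of the list. -/
def seqT (y s : Tm F ar) : List (List ℕ) → Tm F ar
  | [] => y
  | q :: qs => seqT (y.repl q s) s qs

/-- The backward word from `seqT y (ρ.2 τ) qs` to `y`. -/
def seqW (y : Tm F ar) (ρ : Rule F ar) (τ : ℕ → Tm F ar) : List (List ℕ) → List (Bool × Stp F ar)
  | [] => []
  | q :: qs => seqW (y.repl q (ρ.2.subst τ)) ρ τ qs ++
      [(false, ⟨y, q, ρ, y.repl q (ρ.2.subst τ)⟩)]

/-- Pairwise parallel positions of `y` at which `ρ.1 τ` stands. -/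
structure Seq (y : Tm F ar) (ρ : Rule F ar) (τ : ℕ → Tm F ar) (qs : List (List ℕ)) : Prop where
  par : qs.Pairwise fun q q' => ¬ q <+: q' ∧ ¬ q' <+: q
  at_ : ∀ q ∈ qs, y.subAt q = some (ρ.1.subst τ)

/-! ## The condition on the critical pairs -/

/-- `GS 𝒢 r u`: the position `u` of `r` is above or at an occurrence of a token (a variable or a
term of `𝒢`), and the same token occurs at a position which is not below `u`. -/
def GS (𝒢 : Set (Tm F ar)) (r : Tm F ar) (u : List ℕ) : Prop :=
  ∃ k k' s, u <+: k ∧ ¬ u <+: k' ∧ r.subAt k = some s ∧ r.subAt k' = some s ∧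
    ((∃ x, s = Tm.var x) ∨ s ∈ 𝒢)

/-- A closing step `z` whose target has an instance of `r` at the position `p`: (i) if a variable
stands at two positions of the right side of the rule of `z`, the corresponding subterm of the target
is not ground or belongs to `𝒢`; (ii) if a term of `𝒢` stands at two positions of the contractum of
`z`, then these are positions of `r` and it stands there in `r`. -/
def Mild (𝒢 : Set (Tm F ar)) (z : Stp F ar) (p : List ℕ) (r : Tm F ar) : Prop :=
  (∀ k k' x s, k ≠ k' → z.q.2.subAt k = some (Tm.var x) → z.q.2.subAt k' = some (Tm.var x) →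
    z.tgt.subAt (z.p ++ k) = some s → (∃ y, 0 < s.occ y) ∨ s ∈ 𝒢) ∧
  ∀ k k' s, s ∈ 𝒢 → k ≠ k' → z.p <+: k → z.p <+: k' → z.tgt.subAt k = some s →
    z.tgt.subAt k' = some s → ∃ m m', k = p ++ m ∧ k' = p ++ m' ∧ r.subAt m = some s ∧
      r.subAt m' = some s

/-- Condition (c) with mild closing steps. -/
def CondM (R : Set (Rule F ar)) (𝒢 : Set (Tm F ar)) : Prop :=
  ∀ l r g d ρ₁ ρ₂ p θ, Overlap R l r g d ρ₁ ρ₂ p θ →
    (d.ren ρ₂).subst θ = ((g.ren ρ₂).subst θ).repl p ((r.ren ρ₁).subst θ) ∨
    (∃ z : Stp F ar, z.OK R ∧ z.t = (d.ren ρ₂).subst θ ∧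
      z.tgt = ((g.ren ρ₂).subst θ).repl p ((r.ren ρ₁).subst θ) ∧ Mild 𝒢 z p r) ∨
    ∃ z : Stp F ar, z.OK R ∧ z.t = ((g.ren ρ₂).subst θ).repl p ((r.ren ρ₁).subst θ) ∧
      z.tgt = (d.ren ρ₂).subst θ ∧ Mild 𝒢 z [] d

/-- Every variable stands at one position of `t` only. -/
def Lin (t : Tm F ar) : Prop := ∀ k k' v, t.subAt k = some (Tm.var v) →
  t.subAt k' = some (Tm.var v) → k = k'

/-- The most general instance `q.1 σ` of an overlap of `q'` with `q` at `p`: it has only the
symbols of `q.1` and (at `p`) of `q'.1`, and every variable stands at one position. -/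
structure Most (q q' : Rule F ar) (p : List ℕ) (u : Tm F ar) (σ ψ : ℕ → Tm F ar) : Prop where
  at_ : q.1.subAt p = some u
  nv : ∀ x, u ≠ Tm.var x
  eq : u.subst σ = q'.1.subst ψ
  np : ∀ e, Np (q.1.subst σ) e → e ∈ NN q.1 q'.1 p
  lin : Lin (q.1.subst σ)

/-- Condition (c) with mild closing steps, for the most general instances. -/
def CondX (R : Set (Rule F ar)) (𝒢 : Set (Tm F ar)) : Prop :=
  ∀ q ∈ R, ∀ q' ∈ R, ∀ p u σ ψ, Most q q' p u σ ψ →
    q.2.subst σ = (q.1.subst σ).repl p (q'.2.subst ψ) ∨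
    (∃ z : Stp F ar, z.OK R ∧ z.t = q.2.subst σ ∧
      z.tgt = (q.1.subst σ).repl p (q'.2.subst ψ) ∧ Mild 𝒢 z p q'.2) ∨
    ∃ z : Stp F ar, z.OK R ∧ z.t = (q.1.subst σ).repl p (q'.2.subst ψ) ∧
      z.tgt = q.2.subst σ ∧ Mild 𝒢 z [] q.2

end Pool.Agent.Work.MP_d87e04_lc.SS
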