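import Pool.Agent.Work.MP_d87e04_lc.SS.SPos

/-!
# Module SFrame (M-L): triangles from generic triangles

`a`, `b`, `z` are steps of generic terms (every variable of the source `a.t = b.t` stands at one
position, the symbols of `a.t` are those on the path to `b.p` and those of the patterns of `b` and
`a`); `inst δ` gives the actual steps. `pat`, `Cre`, `og`, `Reg` are the same for `a` and `a.inst δ`;
`ps` of the instance: the non-variable positions, and the positions `K ++ n` with a variable `v` at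
`K` and `n ∈ ps (δ v)` (`ps_subst_cases`).

Key fact (`og_gen`): if `v` stands at `K` in the target of a step, then the step does not create
`K ++ n`, `og (K ++ n) = og K ++ n`, and `v` stands at `og K` in the source. Non-variable positions
`e` of `b.tgt`: below `b.p` they are created by `b`, or `b.og e` is a non-variable position of the
source below a variable of `b.q.1`, hence in `a.pat`; not below `b.p` they are proper prefixes of
`b.p` (then `z.cps e = {e}`, `a.cps e = {e}`).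
-/

set_option autoImplicit false

namespace Pool.Agent.Work.MP_d87e04_lc.SS

open Pool.Agent.Work.MP_d87e04_lc.CF Pool.Agent.Work.MP_d87e04_lc.CG

universe u

variable {F : Type u} {ar : F → ℕ} {R : Set (Rule F ar)} {S : Rule F ar → Set (List ℕ)}

private theorem sub_var {a : Stp F ar} {σ : ℕ → Tm F ar}
    (h0 : a.t.subAt a.p = some (a.q.1.subst σ)) (h1 : a.tgt = a.t.repl a.p (a.q.2.subst σ))
    {k : List ℕ} {x : ℕ} (hk : a.q.2.subAt k = some (Tm.var x)) (hx : 0 < a.q.1.occ x)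
    (n : List ℕ) :
    a.tgt.subAt (a.p ++ (k ++ n)) = (σ x).subAt n ∧
      a.t.subAt (a.p ++ (vpos a.q.1 x ++ n)) = (σ x).subAt n := by
  constructor
  · rw [h1, subAt_repl_below h0, subAt_append (Tm.subAt_subst σ _ _ _ hk)]
    rfl
  · rw [subAt_append h0, subAt_append (Tm.subAt_subst σ _ _ _ (vpos_spec hx))]
    rfl

private theorem not_np_var {t : Tm F ar} {k : List ℕ} {v : ℕ}
    (h : t.subAt k = some (Tm.var v)) : ¬ Np t k := by
  rintro ⟨f, x, hf⟩
  rw [h] at hf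
  cases hf

private theorem np_ps {t : Tm F ar} {k : List ℕ} (h : Np t k) : k ∈ ps t := by
  obtain ⟨f, x, hf⟩ := h
  exact mem_ps.2 ⟨_, hf⟩

private theorem np_lift {a : Stp F ar} {σ : ℕ → Tm F ar}
    (h0 : a.t.subAt a.p = some (a.q.1.subst σ)) {k : List ℕ} (h : Np a.q.1 k) :
    Np a.t (a.p ++ k) := by
  obtain ⟨f, x, hf⟩ := h
  refine ⟨f, fun i => (x i).subst σ, ?_⟩
  rw [subAt_append h0, Tm.subAt_subst σ _ _ _ hf]
  rfl

private theorem var_ps {t : Tm F ar} {k n : List ℕ} {v : ℕ} {δ : ℕ → Tm F ar}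
    (h : t.subAt k = some (Tm.var v)) (hn : n ∈ ps (δ v)) : k ++ n ∈ ps (t.subst δ) :=
  (ps_append (u := δ v) (Tm.subAt_subst δ _ _ _ h)).2 hn

theorem ok_inst {a : Stp F ar} (ha : a.OK R) (δ : ℕ → Tm F ar) : (a.inst δ).OK R := by
  obtain ⟨hq, σ, h0, h1⟩ := ha
  refine ⟨hq, fun x => (σ x).subst δ, ?_, ?_⟩
  · change (a.t.subst δ).subAt a.p = some (a.q.1.subst fun x => (σ x).subst δ)
    rw [Tm.subAt_subst δ _ _ _ h0, Tm.subst_subst]
  · change a.tgt.subst δ = (a.t.subst δ).repl a.p (a.q.2.subst fun x => (σ x).subst δ)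
    rw [h1, Tm.repl_subst δ _ _ _ _ h0, Tm.subst_subst]

private theorem og_np (hT : IsTRS R) {a : Stp F ar} (ha : a.OK R) {e : List ℕ}
    (he : Np a.tgt e) (hc : ¬ a.Cre e) : Np a.t (a.og e) := by
  obtain ⟨hq, σ, h0, h1⟩ := id ha
  rcases tgt_cases ha h1 (np_ps he) with ⟨h, -⟩ | ⟨k, rfl, hk⟩ | ⟨k, x, n, rfl, hk, -⟩
  · rw [og_out h]
    rw [h1] at he
    exact (np_repl h0 h).1 he
  · exact absurd ⟨k, rfl, hk⟩ hc
  · have hx := (hT _ hq).2 x (occ_of_subAt hk)
    obtain ⟨e1, e2⟩ := sub_var h0 h1 hk hx n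
    rw [og_var hk]
    obtain ⟨f, y, hf⟩ := he
    rw [e1] at hf
    exact ⟨f, y, by rw [e2, hf]⟩

theorem og_gen (hT : IsTRS R) (hL : LeftLinear R) {a : Stp F ar} (ha : a.OK R) {K : List ℕ}
    {v : ℕ} (hK : a.tgt.subAt K = some (Tm.var v)) :
    a.t.subAt (a.og K) = some (Tm.var v) ∧ ∀ n, ¬ a.Cre (K ++ n) ∧ a.og (K ++ n) = a.og K ++ n := by
  obtain ⟨hq, σ, h0, h1⟩ := id ha
  rcases tgt_cases ha h1 (mem_ps.2 ⟨_, hK⟩) with ⟨h, h2⟩ | ⟨k, rfl, hk⟩ | ⟨k, x, m, rfl, hk, -⟩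
  · have hnp : ¬ K <+: a.p := by
      rintro ⟨m, hm⟩
      cases m with
      | nil =>
        rw [List.append_nil] at hm
        exact h (hm ▸ List.prefix_refl _)
      | cons i m =>
        have h3 : Np a.t K := np_of_prefix (i := i) (k := m) (by
          rw [hm]; exact mem_ps.2 ⟨_, h0⟩)
        refine not_np_var hK ?_
        rw [h1]
        exact (np_repl h0 h).2 h3
    have hcomp : ∀ n, ¬ a.p <+: K ++ n := by
      intro n hn
      rcases List.prefix_or_prefix_of_prefix hn (List.prefix_append K n) with h4 | h4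
      · exact h h4
      · exact hnp h4
    refine ⟨?_, fun n => ⟨not_cre_out (hcomp n), ?_⟩⟩
    · rw [og_out h, ← hK, h1, subAt_repl_par h hnp]
    · rw [og_out (hcomp n), og_out h]
  · exfalso
    obtain ⟨f, y, hf⟩ := hk
    rw [h1, subAt_repl_below h0, Tm.subAt_subst σ _ _ _ hf] at hK
    cases hK
  · have hx := (hT _ hq).2 x (occ_of_subAt hk)
    obtain ⟨e1, e2⟩ := sub_var h0 h1 hk hx m
    refine ⟨?_, fun n => ?_⟩
    · rw [og_var hk, e2, ← e1, hK]
    · have e3 : a.p ++ (k ++ m) ++ n = a.p ++ (k ++ (m ++ n)) := by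
        simp only [List.append_assoc]
      rw [e3]
      refine ⟨not_cre_var hk, ?_⟩
      rw [og_var hk, og_var hk]
      simp only [List.append_assoc]

/-- Generic pair of overlapping steps, `b` is the outer one. -/
structure Gen (R : Set (Rule F ar)) (a b : Stp F ar) (p : List ℕ) (u : Tm F ar) : Prop where
  hT : IsTRS R
  hL : LeftLinear R
  okA : a.OK R
  okB : b.OK R
  ab : a.t = b.t
  hp : a.p = b.p ++ p
  hu : b.q.1.subAt p = some u
  nv : ∀ x, u ≠ Tm.var x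
  np : ∀ e, Np a.t e → (e <+: b.p ∧ e ≠ b.p) ∨ ∃ k, e = b.p ++ k ∧ k ∈ NN b.q.1 a.q.1 p
  lin : Lin a.t

private theorem pre_anti {l m : List ℕ} (h : l <+: m) (h' : m <+: l) : l = m :=
  h.eq_of_length (le_antisymm h.length_le h'.length_le)

private theorem npS {a b : Stp F ar} {p : List ℕ} {u : Tm F ar} (h : Gen R a b p u)
    {e : List ℕ} (he : Np a.t e) : (e <+: b.p ∧ e ≠ b.p) ∨ e ∈ b.pat ∨ e ∈ a.pat := by
  rcases h.np e he with h1 | ⟨k, rfl, hk | ⟨m, f, x, rfl, hf⟩⟩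
  · exact Or.inl h1
  · exact Or.inr (Or.inl (mem_pat.2 ⟨k, rfl, hk⟩))
  · refine Or.inr (Or.inr (mem_pat.2 ⟨m, ?_, f, x, hf⟩))
    rw [h.hp, List.append_assoc]

private theorem og_pre {a : Stp F ar} {c e : List ℕ} (hc : c <+: a.p) (he : c <+: e) :
    c <+: a.og e := by
  by_cases h : a.p <+: e
  · unfold Stp.og
    rw [if_pos h]
    exact hc.trans (List.prefix_append _ _)
  · rw [og_out h]
    exact he

private theorem nvB {a b : Stp F ar} {p : List ℕ} {u : Tm F ar} (h : Gen R a b p u)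
    {e : List ℕ} (he : Np b.tgt e) : b.Cre e ∨ b.og e ∈ a.pat ∨ ¬ b.p <+: e := by
  by_cases hc : b.Cre e
  · exact Or.inl hc
  have h1 := og_np h.hT h.okB he hc
  rw [← h.ab] at h1
  rcases npS h h1 with ⟨h2, h3⟩ | h2 | h2
  · refine Or.inr (Or.inr fun h4 => h3 ?_)
    exact pre_anti h2 (og_pre (List.prefix_refl _) h4)
  · exact absurd h2 (og_mem h.hT h.hL h.okB (np_ps he) hc).2
  · exact Or.inr (Or.inl h2)

private theorem nvA {a b : Stp F ar} {p : List ℕ} {u : Tm F ar} (h : Gen R a b p u)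
    {e : List ℕ} (he : Np a.tgt e) : a.Cre e ∨ a.og e ∈ b.pat ∨ ¬ b.p <+: e := by
  by_cases hc : a.Cre e
  · exact Or.inl hc
  have h1 := og_np h.hT h.okA he hc
  rcases npS h h1 with ⟨h2, h3⟩ | h2 | h2
  · refine Or.inr (Or.inr fun h4 => h3 ?_)
    refine pre_anti h2 (og_pre ?_ h4)
    rw [h.hp]
    exact List.prefix_append _ _
  · exact Or.inr (Or.inl h2)
  · exact absurd h2 (og_mem h.hT h.hL h.okA (np_ps he) hc).2

private theorem meet' {a b : Stp F ar} {p : List ℕ} {u : Tm F ar} (h : Gen R a b p u) :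
    ∃ f, f ∈ a.pat ∧ f ∈ b.pat := by
  refine ⟨a.p, p_mem_pat h.hT h.okA, mem_pat.2 ⟨p, h.hp, ?_⟩⟩
  cases hu : u with
  | var x => exact absurd hu (h.nv x)
  | app f y => exact ⟨f, y, by rw [h.hu, hu]⟩

private theorem not_pat {a : Stp F ar} {c e : List ℕ} (hc : c <+: a.p) (he : ¬ c <+: e) :
    e ∉ a.pat := by
  intro h
  obtain ⟨k, rfl, -⟩ := mem_pat.1 h
  exact he (hc.trans (List.prefix_append _ _))

private theorem tri (hT : IsTRS R) (hL : LeftLinear R) {X Y Z : Stp F ar} (hX : X.OK R)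
    (hY : Y.OK R) (hZ : Z.OK R) (hxy : X.t = Y.t) (hzy : Z.t = Y.tgt) (hzx : Z.tgt = X.tgt)
    {c : List ℕ} (cX : c <+: X.p) (cY : c <+: Y.p) (cZ : c <+: Z.p) (hm : ∃ f, f ∈ X.pat ∧ f ∈ Y.pat)
    (nX : ∀ e, Np X.tgt e → X.Cre e ∨ X.og e ∈ Y.pat ∨ ¬ c <+: e)
    (nY : ∀ e, Np Y.tgt e → Y.Cre e ∨ Y.og e ∈ X.pat ∨ ¬ c <+: e)
    (hr : ∀ u ∈ S Z.q, X.Reg S (Z.p ++ u)) (hlin : Lin X.t) (δ : ℕ → Tm F ar) :
    Tr S (X.inst δ) (Y.inst δ) (Z.inst δ) := by
  have hXi := ok_inst hX δ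
  have hYi := ok_inst hY δ
  have hZi := ok_inst hZ δ
  obtain ⟨hqZ, σZ, h0Z, h1Z⟩ := id hZ
  refine ⟨?_, ?_, ?_, hm, ?_, ?_, ?_⟩
  · exact congrArg (Tm.subst δ) hxy
  · exact congrArg (Tm.subst δ) hzy
  · exact congrArg (Tm.subst δ) hzx
  · rintro e - ⟨u, hu, hue⟩
    obtain ⟨u', hu', h2⟩ := hr u hu
    exact ⟨u', hu', h2.trans hue⟩
  · intro e he
    rcases ps_subst_cases he with h1 | ⟨K, v, n, hK, hn, rfl⟩
    · rcases nY e h1 with h2 | h2 | h2
      · exact Or.inl h2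
      · exact Or.inr (Or.inl h2)
      · refine Or.inr (Or.inr ⟨not_pat cZ h2, ?_⟩)
        have eY : ¬ (Y.inst δ).p <+: e := fun h3 => h2 (cY.trans h3)
        have eX : ¬ (X.inst δ).p <+: e := fun h3 => h2 (cX.trans h3)
        have eZ : ¬ (Z.inst δ).p <+: e := fun h3 => h2 (cZ.trans h3)
        have m1 : e ∈ ps (Y.inst δ).t := (mem_tgt_out hYi eY).1 he
        have m2 : e ∈ ps (X.inst δ).t := by
          have : (X.inst δ).t = (Y.inst δ).t := congrArg (Tm.subst δ) hxy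
          rw [this]; exact m1
        have m3 : e ∈ ps (Z.inst δ).t := by
          have : (Z.inst δ).t = (Y.inst δ).tgt := congrArg (Tm.subst δ) hzy
          rw [this]; exact he
        rw [og_out eY, cps_out hZi eZ m3, cps_out hXi eX m2]
    · obtain ⟨g1, g2⟩ := og_gen hT hL hY hK
      have hKZ : Z.t.subAt K = some (Tm.var v) := by rw [hzy]; exact hK
      refine Or.inr (Or.inr ⟨?_, ?_⟩)
      · intro h3
        obtain ⟨k, hk, hk'⟩ := mem_pat.1 h3
        have := np_lift h0Z hk'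
        refine not_np_of_var hKZ n ?_
        rw [hk]
        exact this
      · intro f hf
        obtain ⟨f1, f2, f3⟩ := mem_cps.1 hf
        rcases ps_subst_cases f1 with h4 | ⟨K', v', n', hK', hn', rfl⟩
        · exfalso
          have h5 := og_np hT hZ h4 f2
          have h6 : Z.og f = K ++ n := f3
          rw [h6] at h5
          exact not_np_of_var hKZ n h5
        · obtain ⟨z1, z2⟩ := og_gen hT hL hZ hK'
          have h6 : Z.og (K' ++ n') = K ++ n := f3
          rw [(z2 n').2] at h6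
          obtain ⟨e1, e2, e3⟩ := varpos_eq z1 hKZ h6
          subst e2 e3
          have hKX : X.tgt.subAt K' = some (Tm.var v') := by rw [← hzx]; exact hK'
          obtain ⟨x1, x2⟩ := og_gen hT hL hX hKX
          refine mem_cps.2 ⟨?_, (x2 n').1, ?_⟩
          · have : (X.inst δ).tgt = (Z.inst δ).tgt := (congrArg (Tm.subst δ) hzx).symm
            rw [this]; exact f1
          · have y1 : Y.og (K ++ n') = Y.og K ++ n' := (g2 n').2
            have y2 : X.og (K' ++ n') = X.og K' ++ n' := (x2 n').2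
            have y3 : X.og K' = Y.og K := hlin _ _ v' x1 (by rw [hxy]; exact g1)
            change X.og (K' ++ n') = Y.og (K ++ n')
            rw [y1, y2, y3]
  · intro e he
    rcases ps_subst_cases he with h1 | ⟨K, v, n, hK, hn, rfl⟩
    · rcases nX e h1 with h2 | h2 | h2
      · exact Or.inl h2
      · exact Or.inr (Or.inl h2)
      · have eY : ¬ (Y.inst δ).p <+: e := fun h3 => h2 (cY.trans h3)
        have eX : ¬ (X.inst δ).p <+: e := fun h3 => h2 (cX.trans h3)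
        have eZ : ¬ (Z.inst δ).p <+: e := fun h3 => h2 (cZ.trans h3)
        refine Or.inr (Or.inr ⟨not_cre_out eZ, ?_⟩)
        have m1 : e ∈ ps (X.inst δ).t := (mem_tgt_out hXi eX).1 he
        have m2 : e ∈ ps (Y.inst δ).t := by
          have : (Y.inst δ).t = (X.inst δ).t := (congrArg (Tm.subst δ) hxy).symm
          rw [this]; exact m1
        rw [og_out eZ, og_out eX]
        exact mem_cps.2 ⟨(mem_tgt_out hYi eY).2 m2, not_cre_out eY, og_out eY⟩
    · obtain ⟨x1, x2⟩ := og_gen hT hL hX hK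
      have hKZ : Z.tgt.subAt K = some (Tm.var v) := by rw [hzx]; exact hK
      obtain ⟨z1, z2⟩ := og_gen hT hL hZ hKZ
      have hKY : Y.tgt.subAt (Z.og K) = some (Tm.var v) := by rw [← hzy]; exact z1
      obtain ⟨y1, y2⟩ := og_gen hT hL hY hKY
      refine Or.inr (Or.inr ⟨(z2 n).1, ?_⟩)
      have w1 : Z.og (K ++ n) = Z.og K ++ n := (z2 n).2
      have w2 : X.og (K ++ n) = X.og K ++ n := (x2 n).2
      have w3 : X.og K = Y.og (Z.og K) := hlin _ _ v x1 (by rw [hxy]; exact y1)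
      change Z.og (K ++ n) ∈ (Y.inst δ).cps (X.og (K ++ n))
      rw [w1, w2]
      refine mem_cps.2 ⟨var_ps hKY hn, (y2 n).1, ?_⟩
      change Y.og (Z.og K ++ n) = X.og K ++ n
      rw [(y2 n).2, w3]

private theorem half (hT : IsTRS R) (hL : LeftLinear R) {X Y : Stp F ar} (hX : X.OK R)
    (hY : Y.OK R) (hxy : X.t = Y.t) (hxt : X.tgt = Y.tgt)
    {c : List ℕ} (cX : c <+: X.p) (cY : c <+: Y.p)
    (nY : ∀ e, Np Y.tgt e → Y.Cre e ∨ Y.og e ∈ X.pat ∨ ¬ c <+: e)
    (hlin : Lin X.t) (δ : ℕ → Tm F ar) :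
    ∀ e ∈ ps (Y.inst δ).tgt, (Y.inst δ).Cre e ∨ (Y.inst δ).og e ∈ (X.inst δ).pat ∨
      e ∈ (X.inst δ).cps ((Y.inst δ).og e) := by
  have hXi := ok_inst hX δ
  have hYi := ok_inst hY δ
  have ht : (X.inst δ).tgt = (Y.inst δ).tgt := congrArg (Tm.subst δ) hxt
  intro e he
  rcases ps_subst_cases he with h1 | ⟨K, v, n, hK, hn, rfl⟩
  · rcases nY e h1 with h2 | h2 | h2
    · exact Or.inl h2
    · exact Or.inr (Or.inl h2)
    · have eY : ¬ (Y.inst δ).p <+: e := fun h3 => h2 (cY.trans h3)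
      have eX : ¬ (X.inst δ).p <+: e := fun h3 => h2 (cX.trans h3)
      refine Or.inr (Or.inr ?_)
      rw [og_out eY]
      exact mem_cps.2 ⟨by rw [ht]; exact he, not_cre_out eX, og_out eX⟩
  · obtain ⟨g1, g2⟩ := og_gen hT hL hY hK
    have hKX : X.tgt.subAt K = some (Tm.var v) := by rw [hxt]; exact hK
    obtain ⟨x1, x2⟩ := og_gen hT hL hX hKX
    refine Or.inr (Or.inr (mem_cps.2 ⟨by rw [ht]; exact he, (x2 n).1, ?_⟩))
    have y3 : X.og K = Y.og K := hlin _ _ v x1 (by rw [hxy]; exact g1)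
    change X.og (K ++ n) = Y.og (K ++ n)
    rw [(x2 n).2, (g2 n).2, y3]

private theorem preA {a b : Stp F ar} {p : List ℕ} {u : Tm F ar} (h : Gen R a b p u) :
    b.p <+: a.p := by
  rw [h.hp]
  exact List.prefix_append _ _

theorem frame {a b z : Stp F ar} {p : List ℕ} {u : Tm F ar} (h : Gen R a b p u)
    (hz : z.OK R) (hzb : z.t = b.tgt) (hza : z.tgt = a.tgt) (hzp : b.p <+: z.p)
    (hr : ∀ u ∈ S z.q, a.Reg S (z.p ++ u)) (δ : ℕ → Tm F ar) :
    Tr S (a.inst δ) (b.inst δ) (z.inst δ) :=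
  tri h.hT h.hL h.okA h.okB hz h.ab hzb hza (preA h) (List.prefix_refl _) hzp (meet' h)
    (fun _ he => nvA h he) (fun _ he => nvB h he) hr h.lin δ

theorem frame' {a b z : Stp F ar} {p : List ℕ} {u : Tm F ar} (h : Gen R a b p u)
    (hz : z.OK R) (hzb : z.t = a.tgt) (hza : z.tgt = b.tgt) (hzp : b.p <+: z.p)
    (hr : ∀ u ∈ S z.q, b.Reg S (z.p ++ u)) (δ : ℕ → Tm F ar) :
    Tr S (b.inst δ) (a.inst δ) (z.inst δ) :=
  tri h.hT h.hL h.okB h.okA hz h.ab.symm hzb hza (List.prefix_refl _) (preA h) hzp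
    (let ⟨f, h1, h2⟩ := meet' h; ⟨f, h2, h1⟩)
    (fun _ he => nvB h he) (fun _ he => nvA h he) hr (h.ab ▸ h.lin) δ

theorem frame0 {a b : Stp F ar} {p : List ℕ} {u : Tm F ar} (h : Gen R a b p u)
    (hab : a.tgt = b.tgt) (δ : ℕ → Tm F ar) : Tr0 (a.inst δ) (b.inst δ) := by
  have hm : ∃ f, f ∈ (a.inst δ).pat ∧ f ∈ (b.inst δ).pat := by
    obtain ⟨f, h1, h2⟩ := meet' h
    exact ⟨f, h1, h2⟩
  refine ⟨congrArg (Tm.subst δ) h.ab, congrArg (Tm.subst δ) hab, hm, ?_, ?_⟩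
  · exact half h.hT h.hL h.okA h.okB h.ab hab (preA h) (List.prefix_refl _)
      (fun _ he => nvB h he) h.lin δ
  · exact half h.hT h.hL h.okB h.okA h.ab.symm hab.symm (List.prefix_refl _) (preA h)
      (fun _ he => nvA h he) (h.ab ▸ h.lin) δ

end Pool.Agent.Work.MP_d87e04_lc.SS
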