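import Pool.Agent.Work.MP_d87e04_lc.SS.SFrame

/-!
# Module SGS (M): the regions of mild closing steps

`S q = {u | GS 𝒢 q.2 u}`. Core (`gs_core`): let every variable stand at one position of one `ψ x`,
`x` in `r`. If the same non-ground term `s` stands at `k₁` and `k₁'` in `r ψ`, `u₁ <+: k₁` and not
`u₁ <+: k₁'`, then some prefix of `u₁` is in `GS 𝒢 r`. Proof: let the variable `y` stand at `m` in
`s`. Then `k₁ ++ m = kx ++ n`, `k₁' ++ m = kx' ++ n` with the same variable `x` at `kx`, `kx'` in `r`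
and `y` at `n` in `ψ x`. `kx ≠ kx'`. If `kx <+: u₁`, `kx` is in `GS`. Otherwise `u₁ <+: kx`; if not
`u₁ <+: kx'`, `u₁` is in `GS`; if `u₁ <+: kx'`, then `k₁' <+: u₁` is a proper prefix, and `u₁ <+: k₁`,
so `s` is a proper subterm of itself.
-/

set_option autoImplicit false

namespace Pool.Agent.Work.MP_d87e04_lc.SS

open Pool.Agent.Work.MP_d87e04_lc.CF Pool.Agent.Work.MP_d87e04_lc.CG

universe u

variable {F : Type u} {ar : F → ℕ} {R : Set (Rule F ar)} {𝒢 : Set (Tm F ar)}

private theorem subst_var_id (t : Tm F ar) : t.subst Tm.var = t := by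
  induction t with
  | var x => rfl
  | app f a ih => simp only [Tm.subst_app, ih]

private theorem subst_ground {t : Tm F ar} (h : ¬ ∃ x, 0 < t.occ x) (τ : ℕ → Tm F ar) :
    t.subst τ = t := by
  conv_rhs => rw [← subst_var_id t]
  exact Tm.subst_congr t fun x hx => absurd ⟨x, hx⟩ h

/-- a term is not a proper subterm of itself -/
private theorem no_self {t : Tm F ar} {j : List ℕ} (h : t.subAt j = some t) : j = [] := by
  classical
  by_contra hj
  have h1 : (ps t).image (fun m => j ++ m) ⊆ (ps t).erase [] := by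
    intro x hx
    obtain ⟨m, hm, rfl⟩ := Finset.mem_image.1 hx
    rw [Finset.mem_erase]
    refine ⟨?_, (ps_append h).2 hm⟩
    intro hc
    exact hj (List.append_eq_nil_iff.1 hc).1
  have h2 := Finset.card_le_card h1
  rw [Finset.card_image_of_injective _ (fun a b hab => List.append_cancel_left hab)] at h2
  have h3 : [] ∈ ps t := mem_ps.2 ⟨t, by cases t <;> rfl⟩
  rw [Finset.card_erase_of_mem h3] at h2
  have h4 : 0 < (ps t).card := Finset.card_pos.2 ⟨_, h3⟩
  omega

private theorem var_incomp {r : Tm F ar} {k k' : List ℕ} {x x' : ℕ} (h : r.subAt k = some (Tm.var x))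
    (h' : r.subAt k' = some (Tm.var x')) (hne : k ≠ k') : ¬ k <+: k' := by
  rintro ⟨n, hn⟩
  have e : k ++ n = k' ++ [] := by rw [hn, List.append_nil]
  exact hne (varpos_eq h h' e).1

private theorem subst_at {r : Tm F ar} {ψ : ℕ → Tm F ar} {j : List ℕ} {x : ℕ}
    (h : r.subAt j = some (Tm.var x)) (n : List ℕ) :
    (r.subst ψ).subAt (j ++ n) = (ψ x).subAt n := by
  have h1 := Tm.subAt_subst ψ r j _ h
  exact subAt_append h1

private theorem var_cases {r : Tm F ar} {ψ : ℕ → Tm F ar} {n : List ℕ} {y : ℕ}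
    (h : (r.subst ψ).subAt n = some (Tm.var y)) :
    ∃ j x n', r.subAt j = some (Tm.var x) ∧ (ψ x).subAt n' = some (Tm.var y) ∧ n = j ++ n' := by
  rcases ps_subst_cases (mem_ps.2 ⟨_, h⟩) with ⟨f, a, h1⟩ | ⟨j, x, n', h1, -, rfl⟩
  · have h2 := Tm.subAt_subst ψ r n _ h1
    rw [h] at h2
    exact absurd h2 (by simp)
  · refine ⟨j, x, n', h1, ?_, rfl⟩
    rw [subst_at h1] at h
    exact h

theorem sok_gs : Sok R fun q : Rule F ar => {u | GS 𝒢 q.2 u} := by
  refine ⟨?_, ?_⟩
  · rintro q hq u ⟨k, k', s, hu, -, hs, -, -⟩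
    exact mem_ps.1 (ps_of_prefix hu (mem_ps.2 ⟨s, hs⟩))
  · intro q hq k k' x hne hk hk'
    exact ⟨k, ⟨k, k', _, List.prefix_refl _, var_incomp hk hk' hne, hk, hk', Or.inl ⟨x, rfl⟩⟩,
      List.prefix_refl _⟩

theorem gs_core {r : Tm F ar} {ψ : ℕ → Tm F ar}
    (hψ : ∀ x x' m m' v, 0 < r.occ x → 0 < r.occ x' → (ψ x).subAt m = some (Tm.var v) →
      (ψ x').subAt m' = some (Tm.var v) → x = x' ∧ m = m')
    {k k' u : List ℕ} {s : Tm F ar} {y : ℕ} (h1 : (r.subst ψ).subAt k = some s)
    (h2 : (r.subst ψ).subAt k' = some s) (hy : 0 < s.occ y) (hu : u <+: k) (hu' : ¬ u <+: k') :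
    ∃ u', u' <+: u ∧ GS 𝒢 r u' := by
  have hm := vpos_spec hy
  set m := vpos s y with hmdef
  have e1 : (r.subst ψ).subAt (k ++ m) = some (Tm.var y) := by rw [subAt_append h1]; exact hm
  have e2 : (r.subst ψ).subAt (k' ++ m) = some (Tm.var y) := by rw [subAt_append h2]; exact hm
  obtain ⟨kx, x, n, hx, hn, hkx⟩ := var_cases e1
  obtain ⟨kx', x', n', hx', hn', hkx'⟩ := var_cases e2
  obtain ⟨rfl, rfl⟩ := hψ x x' n n' y (occ_of_subAt hx) (occ_of_subAt hx') hn hn'
  have hkk : k ≠ k' := by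
    rintro rfl
    exact hu' hu
  have hne : kx ≠ kx' := by
    rintro rfl
    rw [← hkx'] at hkx
    exact hkk (List.append_cancel_right hkx)
  have p1 : u <+: kx ++ n := by
    rw [← hkx]
    exact hu.trans (List.prefix_append _ _)
  rcases List.prefix_or_prefix_of_prefix p1 (List.prefix_append kx n) with hc | hc
  · by_cases hc' : u <+: kx'
    · exfalso
      have p2 : u <+: k' ++ m := by
        rw [hkx']
        exact hc'.trans (List.prefix_append _ _)
      rcases List.prefix_or_prefix_of_prefix p2 (List.prefix_append k' m) with h3 | h3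
      · exact hu' h3
      · obtain ⟨j, hj⟩ := h3.trans hu
        subst hj
        rw [subAt_append h2] at h1
        have := no_self h1
        subst this
        exact hkk (List.append_nil _)
    · exact ⟨u, List.prefix_refl _, kx, kx', _, hc, hc', hx, hx', Or.inl ⟨x, rfl⟩⟩
  · exact ⟨kx, hc, kx, kx', _, List.prefix_refl _, var_incomp hx hx' hne, hx, hx',
      Or.inl ⟨x, rfl⟩⟩

private theorem gs_aux {r : Tm F ar} {ψ : ℕ → Tm F ar}
    (hψ : ∀ x x' m m' v, 0 < r.occ x → 0 < r.occ x' → (ψ x).subAt m = some (Tm.var v) →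
      (ψ x').subAt m' = some (Tm.var v) → x = x' ∧ m = m')
    {z : Stp F ar} (hz : z.OK R) {p : List ℕ}
    (h0 : ∀ n, z.tgt.subAt (p ++ n) = (r.subst ψ).subAt n) (hM : Mild 𝒢 z p r)
    (hpre : ∀ P1 P2 t, z.tgt.subAt P1 = some t → z.tgt.subAt P2 = some t → (∃ y, 0 < t.occ y) →
      ¬ P1 <+: P2 → ¬ P2 <+: P1 → p <+: P1 ∧ p <+: P2)
    {v : List ℕ} (hv : GS 𝒢 z.q.2 v) : ∃ v', GS 𝒢 r v' ∧ p ++ v' <+: z.p ++ v := by
  obtain ⟨-, τ, ht1, ht2⟩ := hz
  obtain ⟨k, k', s, hk1, hk2, hs, hs', htok⟩ := hv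
  have hT : ∀ n w, z.q.2.subAt n = some w → z.tgt.subAt (z.p ++ n) = some (w.subst τ) := by
    intro n w hw
    rw [ht2, subAt_repl_below ht1]
    exact Tm.subAt_subst τ _ _ _ hw
  have hinj : ∀ {l a b : List ℕ}, l ++ a <+: l ++ b → a <+: b := fun {l a b} h =>
    (List.prefix_append_right_inj l).1 h
  have token : ∀ K K' g, v <+: K → ¬ v <+: K' → g ∈ 𝒢 → z.tgt.subAt (z.p ++ K) = some g →
      z.tgt.subAt (z.p ++ K') = some g → ∃ v', GS 𝒢 r v' ∧ p ++ v' <+: z.p ++ v := by
    intro K K' g hK hK' hg h1 h2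
    obtain ⟨m, m', e1, e2, r1, r2⟩ := hM.2 (z.p ++ K) (z.p ++ K') g hg (by
      intro hc
      rw [List.append_cancel_left hc] at hK
      exact hK' hK) (List.prefix_append _ _) (List.prefix_append _ _) h1 h2
    have q1 : z.p ++ v <+: p ++ m := by
      rw [← e1]
      exact (List.prefix_append_right_inj _).2 hK
    rcases List.prefix_or_prefix_of_prefix q1 (List.prefix_append p m) with hc | hc
    · exfalso
      have q2 : z.p ++ v <+: z.p ++ K' := by
        rw [e2]
        exact hc.trans (List.prefix_append _ _)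
      exact hK' (hinj q2)
    · obtain ⟨v', hv'⟩ := hc
      refine ⟨v', ⟨m, m', g, ?_, ?_, r1, r2, Or.inr hg⟩, by rw [hv']⟩
      · rw [← hv'] at q1
        exact hinj q1
      · intro hc2
        have q2 : z.p ++ v <+: z.p ++ K' := by
          rw [e2, ← hv']
          exact (List.prefix_append_right_inj _).2 hc2
        exact hK' (hinj q2)
  by_cases hvar : ∃ x, 0 < s.occ x
  · obtain ⟨x, hx⟩ := hvar
    have hm := vpos_spec hx
    set m0 := vpos s x with hm0
    have hK : z.q.2.subAt (k ++ m0) = some (Tm.var x) := by rw [subAt_append hs]; exact hm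
    have hK' : z.q.2.subAt (k' ++ m0) = some (Tm.var x) := by rw [subAt_append hs']; exact hm
    have v1 : v <+: k ++ m0 := hk1.trans (List.prefix_append _ _)
    have v2 : ¬ v <+: k' ++ m0 := by
      intro hc
      rcases List.prefix_or_prefix_of_prefix hc (List.prefix_append k' m0) with h3 | h3
      · exact hk2 h3
      · obtain ⟨j, hj⟩ := h3.trans hk1
        subst hj
        rw [subAt_append hs'] at hs
        have := no_self hs
        subst this
        rw [List.append_nil] at hk1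
        exact hk2 hk1
    have hne : k ++ m0 ≠ k' ++ m0 := by
      intro hc
      rw [hc] at v1
      exact v2 v1
    have t1 := hT _ _ hK
    have t2 := hT _ _ hK'
    rw [Tm.subst_var] at t1 t2
    rcases hM.1 _ _ x _ hne hK hK' t1 with hy | hg
    · obtain ⟨p1, p2⟩ := hpre _ _ _ t1 t2 hy
        (fun hc => var_incomp hK hK' hne (hinj hc)) (fun hc => var_incomp hK' hK hne.symm (hinj hc))
      obtain ⟨a1, ha1⟩ := p1
      obtain ⟨a2, ha2⟩ := p2
      rw [← ha1, h0] at t1
      rw [← ha2, h0] at t2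
      obtain ⟨y, hy⟩ := hy
      have q1 : z.p ++ v <+: p ++ a1 := by
        rw [ha1]
        exact (List.prefix_append_right_inj _).2 v1
      rcases List.prefix_or_prefix_of_prefix q1 (List.prefix_append p a1) with hc | hc
      · exfalso
        have q2 : z.p ++ v <+: z.p ++ (k' ++ m0) := by
          rw [← ha2]
          exact hc.trans (List.prefix_append _ _)
        exact v2 (hinj q2)
      · obtain ⟨u1, hu1⟩ := hc
        obtain ⟨u', hu', hG⟩ := gs_core (𝒢 := 𝒢) hψ t1 t2 hy (u := u1) (by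
          rw [← hu1] at q1
          exact hinj q1) (by
          intro hc2
          have q2 : z.p ++ v <+: z.p ++ (k' ++ m0) := by
            rw [← ha2, ← hu1]
            exact (List.prefix_append_right_inj _).2 hc2
          exact v2 (hinj q2))
        refine ⟨u', hG, ?_⟩
        rw [← hu1]
        exact (List.prefix_append_right_inj _).2 hu'
    · exact token _ _ _ v1 v2 hg t1 t2
  · have hg : s ∈ 𝒢 := by
      rcases htok with ⟨x, rfl⟩ | h
      · exact absurd ⟨x, by simp [Tm.occ]⟩ hvar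
      · exact h
    have t1 := hT _ _ hs
    have t2 := hT _ _ hs'
    rw [subst_ground hvar] at t1 t2
    exact token _ _ _ hk1 hk2 hg t1 t2

private theorem lin_unique (hT : IsTRS R) {q' : Rule F ar} (hq' : q' ∈ R) {T : Tm F ar}
    {p : List ℕ} {ψ : ℕ → Tm F ar} (hlin : Lin T) (hp : T.subAt p = some (q'.1.subst ψ))
    (x x' : ℕ) (m m' : List ℕ) (v : ℕ) (hx : 0 < q'.2.occ x) (hx' : 0 < q'.2.occ x')
    (h : (ψ x).subAt m = some (Tm.var v)) (h' : (ψ x').subAt m' = some (Tm.var v)) :
    x = x' ∧ m = m' := by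
  have a1 := vpos_spec ((hT _ hq').2 x hx)
  have a2 := vpos_spec ((hT _ hq').2 x' hx')
  have b1 : T.subAt (p ++ (vpos q'.1 x ++ m)) = some (Tm.var v) := by
    rw [subAt_append hp, subst_at a1]
    exact h
  have b2 : T.subAt (p ++ (vpos q'.1 x' ++ m')) = some (Tm.var v) := by
    rw [subAt_append hp, subst_at a2]
    exact h'
  have e := List.append_cancel_left (hlin _ _ _ b1 b2)
  exact (varpos_eq a1 a2 e).2

/-- The closing step ends in the target of the inner step. -/
theorem gs_inner (hT : IsTRS R) (hL : LeftLinear R) {q q' : Rule F ar} (hq : q ∈ R)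
    (hq' : q' ∈ R) {p : List ℕ} {u : Tm F ar} {σ ψ : ℕ → Tm F ar} (h : Most q q' p u σ ψ)
    {z : Stp F ar} (hz : z.OK R) (hzt : z.tgt = (q.1.subst σ).repl p (q'.2.subst ψ))
    (hM : Mild 𝒢 z p q'.2) {v : List ℕ} (hv : GS 𝒢 z.q.2 v) :
    ∃ v', GS 𝒢 q'.2 v' ∧ p ++ v' <+: z.p ++ v := by
  have hp : (q.1.subst σ).subAt p = some (q'.1.subst ψ) := by
    rw [← h.eq]
    exact Tm.subAt_subst σ _ _ _ h.at_
  refine gs_aux (lin_unique hT hq' h.lin hp) hz (fun n => ?_) hM ?_ hv
  · rw [hzt]
    exact subAt_repl_below hp n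
  · intro P1 P2 t t1 t2 hy i1 i2
    obtain ⟨y, hy⟩ := hy
    have hm := vpos_spec hy
    set m := vpos t y with hmdef
    have b1 : z.tgt.subAt (P1 ++ m) = some (Tm.var y) := by rw [subAt_append t1]; exact hm
    have b2 : z.tgt.subAt (P2 ++ m) = some (Tm.var y) := by rw [subAt_append t2]; exact hm
    have hne : P1 ++ m ≠ P2 ++ m := by
      intro hc
      rw [List.append_cancel_right hc] at i1
      exact i1 (List.prefix_refl _)
    -- positions of `y` outside of `p`
    have hout : ∀ Q, z.tgt.subAt Q = some (Tm.var y) → ¬ p <+: Q →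
        (q.1.subst σ).subAt Q = some (Tm.var y) := by
      intro Q hQ hpQ
      by_cases hQp : Q <+: p
      · exfalso
        obtain ⟨m', hm'⟩ := hQp
        cases m' with
        | nil =>
          rw [List.append_nil] at hm'
          exact hpQ (by rw [hm'])
        | cons i m' =>
          have h1 : Q ++ i :: m' ∈ ps (q.1.subst σ) := by
            rw [hm']
            exact mem_ps.2 ⟨_, hp⟩
          have h2 := np_of_prefix h1
          have h3 : Np z.tgt Q := by
            rw [hzt]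
            exact (np_repl hp hpQ).2 h2
          obtain ⟨f, a, h4⟩ := h3
          rw [hQ] at h4
          exact absurd h4 (by simp)
      · rw [hzt, subAt_repl_par hpQ hQp] at hQ
        exact hQ
    have hin : ∀ Q, z.tgt.subAt Q = some (Tm.var y) → p <+: Q →
        ∃ n, (q.1.subst σ).subAt (p ++ n) = some (Tm.var y) := by
      rintro Q hQ ⟨n, rfl⟩
      rw [hzt, subAt_repl_below hp] at hQ
      obtain ⟨j, x, n', c1, c2, -⟩ := var_cases hQ
      have a1 := vpos_spec ((hT _ hq').2 x (occ_of_subAt c1))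
      refine ⟨vpos q'.1 x ++ n', ?_⟩
      rw [subAt_append hp, subst_at a1]
      exact c2
    have hall : ∀ Q Q', z.tgt.subAt Q = some (Tm.var y) → z.tgt.subAt Q' = some (Tm.var y) →
        Q ≠ Q' → p <+: Q := by
      intro Q Q' hQ hQ' hne
      by_contra hpQ
      have c1 := hout Q hQ hpQ
      by_cases hpQ' : p <+: Q'
      · obtain ⟨n, c2⟩ := hin Q' hQ' hpQ'
        exact hpQ ⟨n, h.lin _ _ _ c2 c1⟩
      · exact hne (h.lin _ _ _ c1 (hout Q' hQ' hpQ'))
    have c1 := hall _ _ b1 b2 hne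
    have c2 := hall _ _ b2 b1 hne.symm
    have key : ∀ P P', ¬ P <+: P' → ¬ P' <+: P → p <+: P ++ m → p <+: P' ++ m → p <+: P := by
      intro P P' j1 j2 d1 d2
      rcases List.prefix_or_prefix_of_prefix d1 (List.prefix_append P m) with h3 | h3
      · exact h3
      · exfalso
        rcases List.prefix_or_prefix_of_prefix (h3.trans d2) (List.prefix_append P' m) with h4 | h4
        · exact j1 h4
        · exact j2 h4
    exact ⟨key _ _ i1 i2 c1 c2, key _ _ i2 i1 c2 c1⟩

/-- The closing step ends in the target of the outer step. -/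
theorem gs_outer (hT : IsTRS R) (hL : LeftLinear R) {q q' : Rule F ar} (hq : q ∈ R)
    (hq' : q' ∈ R) {p : List ℕ} {u : Tm F ar} {σ ψ : ℕ → Tm F ar} (h : Most q q' p u σ ψ)
    {z : Stp F ar} (hz : z.OK R) (hzt : z.tgt = q.2.subst σ)
    (hM : Mild 𝒢 z [] q.2) {v : List ℕ} (hv : GS 𝒢 z.q.2 v) :
    ∃ v', GS 𝒢 q.2 v' ∧ v' <+: z.p ++ v := by
  have hp : (q.1.subst σ).subAt [] = some (q.1.subst σ) := by
    cases q.1.subst σ <;> rfl
  obtain ⟨v', h1, h2⟩ := gs_aux (p := []) (lin_unique hT hq h.lin hp) hz (fun n => by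
    rw [hzt]
    rfl) hM (fun P1 P2 t _ _ _ _ _ => ⟨List.nil_prefix, List.nil_prefix⟩) hv
  exact ⟨v', h1, h2⟩

end Pool.Agent.Work.MP_d87e04_lc.SS
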