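import Pool.Agent.Work.MP_d87e04_lc.SS.SFrame

/-!
# Module SGen (M): the generic pair of an overlap

`N = {k | k is a proper prefix of b.p} ∪ {b.p ++ k | k ∈ NN b.q.1 a.q.1 p}`, `t₀ = cut N [] b.t`
(`CG/TCut.lean`: `cut_subst_pat`, `cut_at`, `tn_cut`, `cut_var`, `uncut`); compare the beginning of
`tri_base` in `CG/TTri.lean`. `σ₀ y = cut N (b.p ++ vpos b.q.1 y) (σ y)`,
`ψ₀ y = cut N (b.p ++ (p ++ vpos a.q.1 y)) (ψ y)`.
-/

set_option autoImplicit false

namespace Pool.Agent.Work.MP_d87e04_lc.SS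

open Pool.Agent.Work.MP_d87e04_lc.CF Pool.Agent.Work.MP_d87e04_lc.CG

universe u

variable {F : Type u} {ar : F → ℕ} {R : Set (Rule F ar)}

private theorem repl_nilG (t s : Tm F ar) : t.repl [] s = s := by
  cases t <;> rfl

private theorem repl_appendG {t v s : Tm F ar} {k m : List ℕ} (h : t.subAt k = some v) :
    t.repl (k ++ m) s = t.repl k (v.repl m s) := by
  induction k generalizing t with
  | nil =>
    cases t <;>
    · simp only [Tm.subAt, Option.some.injEq] at h
      subst h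
      rw [List.nil_append, repl_nilG]
  | cons i k ih =>
    cases t with
    | var x => cases h
    | app f c =>
      rw [Tm.subAt] at h
      split at h
      · rename_i hi
        rw [List.cons_append, Tm.repl, Tm.repl, dif_pos hi, dif_pos hi, ih h]
      · cases h

private theorem subAt_prefixG {t u : Tm F ar} {a b : List ℕ} {i : ℕ}
    (h : t.subAt (a ++ i :: b) = some u) : ∃ f c, t.subAt a = some (Tm.app f c) := by
  induction a generalizing t with
  | nil =>
    cases t with
    | var x => cases h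
    | app f c => exact ⟨f, c, rfl⟩
  | cons j a ih =>
    cases t with
    | var x => cases h
    | app f c =>
      rw [List.cons_append, Tm.subAt] at h
      split at h
      · rename_i hj
        obtain ⟨f', c', h'⟩ := ih h
        refine ⟨f', c', ?_⟩
        rw [Tm.subAt, dif_pos hj]
        exact h'
      · cases h

theorem exists_gen (hT : IsTRS R) (hL : LeftLinear R) {a b : Stp F ar} (ha : a.OK R)
    (hb : b.OK R) (hab : a.t = b.t) {p : List ℕ} {u : Tm F ar} (hp : a.p = b.p ++ p)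
    (hu : b.q.1.subAt p = some u) (hnv : ∀ x, u ≠ Tm.var x) :
    ∃ (a₀ b₀ : Stp F ar) (δ σ ψ : ℕ → Tm F ar), Gen R a₀ b₀ p u ∧ a₀.inst δ = a ∧
      b₀.inst δ = b ∧ Most b.q a.q p u σ ψ ∧ b₀.t.subAt b.p = some (b.q.1.subst σ) ∧
      b₀.tgt = b₀.t.repl b.p (b.q.2.subst σ) ∧
      a₀.tgt = b₀.t.repl b.p ((b.q.1.subst σ).repl p (a.q.2.subst ψ)) := by
  classical
  obtain ⟨ta, pa, q', ga⟩ := a
  obtain ⟨t, P, q, gb⟩ := b
  simp only at hab hp hu
  subst hab hp
  obtain ⟨hq', ψ, hψ, hga⟩ := ha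
  obtain ⟨hq, σ, hσ, hgb⟩ := hb
  simp only at hq' hψ hga hq hσ hgb
  have hl : q.1.Linear := hL q hq
  have hl' : q'.1.Linear := hL q' hq'
  let N : Set (List ℕ) := {e | (e <+: P ∧ e ≠ P) ∨ ∃ k, e = P ++ k ∧ k ∈ NN q.1 q'.1 p}
  let σ' : ℕ → Tm F ar := fun x => cut N (P ++ vpos q.1 x) (σ x)
  let ψ' : ℕ → Tm F ar := fun x => cut N (P ++ (p ++ vpos q'.1 x)) (ψ x)
  let t₀ : Tm F ar := cut N [] ta
  -- proper prefixes
  have hpre : ∀ a i b, P = a ++ i :: b → a ∈ N := by
    intro a i b hab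
    refine Or.inl ⟨⟨i :: b, hab.symm⟩, ?_⟩
    intro h
    have h2 : a.length = P.length := by rw [h]
    rw [hab, List.length_append, List.length_cons] at h2
    omega
  have hpre' : ∀ a i b, P ++ p = a ++ i :: b → a ∈ N := by
    intro a i b hab
    rcases List.append_eq_append_iff.1 hab with ⟨c, h1, h2⟩ | ⟨c, h1, h2⟩
    · subst h1
      refine Or.inr ⟨c, rfl, Or.inl ?_⟩
      rw [h2] at hu
      exact subAt_prefixG hu
    · cases c with
      | nil =>
        rw [List.append_nil] at h1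
        rw [List.nil_append] at h2
        subst h1
        refine Or.inr ⟨[], (List.append_nil _).symm, Or.inl ?_⟩
        rw [← h2] at hu
        exact subAt_prefixG (a := []) hu
      | cons j c =>
        exact hpre a j c h1
  have hA : cut N P (q.1.subst σ) = q.1.subst σ' := by
    refine cut_subst_pat (fun k f a hk => Or.inr ⟨k, rfl, Or.inl ⟨f, a, hk⟩⟩) fun k x hk => ?_
    show cut N (P ++ vpos q.1 x) (σ x) = _
    rw [vpos_eq hl hk]
  have hB : cut N (P ++ p) (q'.1.subst ψ) = q'.1.subst ψ' := by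
    refine cut_subst_pat (fun k f a hk => Or.inr ⟨p ++ k, List.append_assoc _ _ _,
      Or.inr ⟨k, f, a, rfl, hk⟩⟩) fun k x hk => ?_
    show cut N (P ++ (p ++ vpos q'.1 x)) (ψ x) = _
    rw [vpos_eq hl' hk, List.append_assoc]
  have atB : t₀.subAt P = some (q.1.subst σ') := by
    rw [← hA]
    exact cut_at hσ fun a i b h => hpre a i b h
  have atA : t₀.subAt (P ++ p) = some (q'.1.subst ψ') := by
    rw [← hB]
    exact cut_at hψ fun a i b h => hpre' a i b h
  have hnp : ∀ e, Np t₀ e → e ∈ N := by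
    rintro e ⟨f, c, he⟩
    exact (tn_cut (T := Set.univ) (mem_tn_iff.2 ⟨f, c, he, Set.mem_univ _⟩)).2
  have hlin : Lin t₀ := by
    intro k k' v h1 h2
    exact enc_inj ((cut_var h1).symm.trans (cut_var h2))
  obtain ⟨δ, hδt⟩ := uncut N ta
  have hσt : (q.1.subst σ').subst δ = q.1.subst σ := by
    have h := Tm.subAt_subst δ t₀ P _ atB
    rw [hδt, hσ] at h
    exact (Option.some.inj h).symm
  have hψt : (q'.1.subst ψ').subst δ = q'.1.subst ψ := by
    have h := Tm.subAt_subst δ t₀ (P ++ p) _ atA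
    rw [hδt, hψ] at h
    exact (Option.some.inj h).symm
  have hσδ : ∀ x, 0 < q.1.occ x → (σ' x).subst δ = σ x := by
    rw [Tm.subst_subst] at hσt
    exact Tm.subst_inj q.1 hσt
  have hψδ : ∀ x, 0 < q'.1.occ x → (ψ' x).subst δ = ψ x := by
    rw [Tm.subst_subst] at hψt
    exact Tm.subst_inj q'.1 hψt
  have hX : (q.2.subst σ').subst δ = q.2.subst σ := by
    rw [Tm.subst_subst]
    exact Tm.subst_congr q.2 fun x hx => hσδ x ((hT q hq).2 x hx)
  have hY : (q'.2.subst ψ').subst δ = q'.2.subst ψ := by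
    rw [Tm.subst_subst]
    exact Tm.subst_congr q'.2 fun x hx => hψδ x ((hT q' hq').2 x hx)
  have hat : (q.1.subst σ').subAt p = some (q'.1.subst ψ') := by
    rw [← subAt_append atB]
    exact atA
  have heq : u.subst σ' = q'.1.subst ψ' := by
    have h := Tm.subAt_subst σ' q.1 p u hu
    rw [hat] at h
    exact (Option.some.inj h).symm
  refine ⟨⟨t₀, P ++ p, q', t₀.repl (P ++ p) (q'.2.subst ψ')⟩,
    ⟨t₀, P, q, t₀.repl P (q.2.subst σ')⟩, δ, σ', ψ', ?_, ?_, ?_, ?_, atB, rfl, ?_⟩
  · exact ⟨hT, hL, ⟨hq', ψ', atA, rfl⟩, ⟨hq, σ', atB, rfl⟩, rfl, rfl, hu, hnv,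
      fun e he => hnp e he, hlin⟩
  · simp only [Stp.inst]
    rw [Tm.repl_subst δ _ _ _ _ atA, hY, hga, hδt]
  · simp only [Stp.inst]
    rw [Tm.repl_subst δ _ _ _ _ atB, hX, hgb, hδt]
  · refine ⟨hu, hnv, heq, ?_, ?_⟩
    · rintro e ⟨f, c, he⟩
      rcases hnp (P ++ e) ⟨f, c, by rw [subAt_append atB]; exact he⟩ with ⟨h1, h2⟩ | ⟨k, hk, h⟩
      · exfalso
        apply h2
        have h3 := h1.length_le
        rw [List.length_append] at h3
        have h4 : e = [] := List.length_eq_zero_iff.1 (by omega)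
        rw [h4, List.append_nil]
      · rw [List.append_cancel_left hk]
        exact h
    · intro k k' v h1 h2
      have h3 := hlin (P ++ k) (P ++ k') v (by rw [subAt_append atB]; exact h1)
        (by rw [subAt_append atB]; exact h2)
      exact List.append_cancel_left h3
  · exact repl_appendG atB

end Pool.Agent.Work.MP_d87e04_lc.SS
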