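import Pool.Agent.Work.MP_d87e04_lc.SS.SMgu

/-!
# Module SNG (M): no ground proper subterms in left sides

`𝒢` = all ground terms. Part (i) of `Mild` is trivial. Part (ii): let the ground term `s` stand at
`k ≠ k'` in `T = (q.1 σ).repl p (q'.2 ψ)`; then `k`, `k'` are parallel. First `gen_var`: no proper
subterm of `q.1 σ` is ground, and `ψ x` (`σ x`) is not ground for the variables `x` of `q'.1` (`q.1`).
If `p` is not a prefix of `k`: if `k`, `p` are parallel, `s` is a proper subterm of `q.1 σ`; if `k` is
a proper prefix of `p`, then `k'` and `p` are parallel, and the same holds for `k'`. So `k = p ++ m`,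
and `s` stands at `m` in `q'.2 ψ`; `m` is a position of `q'.2` (`s` is no subterm of some `ψ x`: it
would be a ground proper subterm of `q.1 σ`), and `q'.2` has no variable below `m`, so `s` stands at
`m` in `q'.2`. The same for `q.2 σ`.
-/

set_option autoImplicit false

namespace Pool.Agent.Work.MP_d87e04_lc.SS

open Pool.Agent.Work.MP_d87e04_lc.CF Pool.Agent.Work.MP_d87e04_lc.CG

universe u

variable {F : Type u} {ar : F → ℕ} {R : Set (Rule F ar)}

private theorem ng_nil (t : Tm F ar) : t.subAt [] = some t := by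
  cases t <;> rfl

private theorem ng_cons {f : F} {a : Fin (ar f) → Tm F ar} {i : ℕ} {p : List ℕ} {s : Tm F ar} :
    (Tm.app f a).subAt (i :: p) = some s ↔ ∃ h : i < ar f, (a ⟨i, h⟩).subAt p = some s := by
  simp only [Tm.subAt]
  constructor
  · intro h
    split at h
    · rename_i hi
      exact ⟨hi, h⟩
    · exact absurd h (by simp)
  · rintro ⟨h, h'⟩
    rw [dif_pos h]
    exact h'

private theorem ng_var {x : ℕ} {k : List ℕ} {s : Tm F ar} (h : (Tm.var x : Tm F ar).subAt k = some s) :
    k = [] ∧ s = Tm.var x := by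
  cases k with
  | nil =>
    rw [ng_nil] at h
    cases h
    exact ⟨rfl, rfl⟩
  | cons i k => exact absurd h (by simp [Tm.subAt])

/-- a ground term is not a variable -/
private theorem ng_app {s : Tm F ar} (h : ∀ x, s.occ x = 0) : ∃ f a, s = Tm.app f a := by
  cases s with
  | var x => exact absurd (h x) (by simp [Tm.occ])
  | app f a => exact ⟨f, a, rfl⟩

private theorem ng_sub {t s : Tm F ar} {k : List ℕ} (h : ∀ x, t.occ x = 0)
    (hk : t.subAt k = some s) : ∀ x, s.occ x = 0 := fun x =>
  Nat.le_zero.1 ((Tm.subAt_linear t k s hk x).trans (h x).le)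

private theorem ng_not {s : Tm F ar} (h : ¬ ∃ x, 0 < s.occ x) : ∀ x, s.occ x = 0 := by
  intro x
  by_contra hx
  exact h ⟨x, Nat.pos_of_ne_zero hx⟩

private theorem ng_id (t : Tm F ar) : t.subst Tm.var = t := by
  induction t with
  | var x => rfl
  | app f a ih =>
    show Tm.app f (fun i => (a i).subst Tm.var) = Tm.app f a
    congr 1
    funext i
    exact ih i

private theorem ng_ground {t : Tm F ar} {τ : ℕ → Tm F ar} (h : ∀ x, t.occ x = 0) :
    t.subst τ = t := by
  have h1 : t.subst τ = t.subst Tm.var := Tm.subst_congr t fun x hx => by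
    rw [h x] at hx
    exact absurd hx (lt_irrefl 0)
  rw [h1, ng_id]

/-- a position below a variable -/
private theorem ng_below {t s : Tm F ar} {k m : List ℕ} {x : ℕ} (h : t.subAt k = some (Tm.var x))
    {f : F} {a : Fin (ar f) → Tm F ar} (h' : t.subAt (k ++ m) = some (Tm.app f a)) : False := by
  rw [subAt_append h] at h'
  obtain ⟨_, h2⟩ := ng_var h'
  exact absurd h2 (by simp)

/-- ground subterms of an instance are subterms of the pattern if the variables are replaced by
terms without ground subterms -/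
private theorem ng_pat {τ : ℕ → Tm F ar} {s : Tm F ar} (hs : ∀ x, s.occ x = 0) : ∀ (r : Tm F ar)
    (_ : ∀ x, 0 < r.occ x → ∀ k s', (τ x).subAt k = some s' → ∃ y, 0 < s'.occ y) (m : List ℕ),
    (r.subst τ).subAt m = some s → r.subAt m = some s := by
  intro r
  induction r with
  | var x =>
    intro hx m hm
    obtain ⟨y, hy⟩ := hx x (by simp [Tm.occ]) m s hm
    rw [hs y] at hy
    exact absurd hy (lt_irrefl 0)
  | app f a ih =>
    intro hx m hm
    cases m with
    | nil =>
      rw [ng_nil] at hm ⊢
      have hs' : (Tm.app f a).subst τ = s := by injection hm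
      have hg : ∀ x, (Tm.app f a).occ x = 0 := by
        refine ng_not ?_
        rintro ⟨x, hx0⟩
        have h1 := vpos_spec hx0
        have h2 := Tm.subAt_subst τ _ _ _ h1
        rw [hs'] at h2
        obtain ⟨y, hy⟩ := hx x hx0 [] (τ x) (ng_nil _)
        have h3 := ng_sub hs h2 y
        have h4 : (τ x).occ y = 0 := h3
        rw [h4] at hy
        exact absurd hy (lt_irrefl 0)
      rw [← hs', ng_ground hg]
    | cons i m =>
      have hm' : (Tm.app f fun i => (a i).subst τ).subAt (i :: m) = some s := hm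
      obtain ⟨hi, h1⟩ := ng_cons.1 hm'
      exact ng_cons.2 ⟨hi, ih ⟨i, hi⟩ (fun x hx0 => hx x (Tm.occ_arg hx0)) m h1⟩

/-- size of a term -/
private def ngz : Tm F ar → ℕ
  | .var _ => 1
  | .app _ a => 1 + ∑ i, ngz (a i)

private theorem ngz_sub : ∀ (t : Tm F ar) (k : List ℕ) (s : Tm F ar), t.subAt k = some s →
    ngz s ≤ ngz t := by
  intro t
  induction t with
  | var x =>
    intro k s h
    obtain ⟨_, rfl⟩ := ng_var h
    exact le_rfl
  | app f a ih =>
    intro k s h
    cases k with
    | nil =>
      rw [ng_nil] at h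
      cases h
      exact le_rfl
    | cons i k =>
      obtain ⟨hi, h1⟩ := ng_cons.1 h
      have h2 := ih ⟨i, hi⟩ k s h1
      have h3 : ngz (a ⟨i, hi⟩) ≤ ∑ i, ngz (a i) :=
        Finset.single_le_sum (f := fun i => ngz (a i)) (fun _ _ => Nat.zero_le _)
          (Finset.mem_univ _)
      show ngz s ≤ 1 + ∑ i, ngz (a i)
      omega

/-- a term is not a proper subterm of itself -/
private theorem ng_self (s : Tm F ar) (i : ℕ) (n : List ℕ) : ¬ s.subAt (i :: n) = some s := by
  intro h
  cases s with
  | var x => exact absurd h (by simp [Tm.subAt])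
  | app f a =>
    obtain ⟨hi, h1⟩ := ng_cons.1 h
    have h2 := ngz_sub _ _ _ h1
    have h3 : ngz (a ⟨i, hi⟩) ≤ ∑ i, ngz (a i) :=
      Finset.single_le_sum (f := fun i => ngz (a i)) (fun _ _ => Nat.zero_le _)
        (Finset.mem_univ _)
    have h4 : ngz (Tm.app f a) = 1 + ∑ i, ngz (a i) := rfl
    omega

/-- No proper subterm of `q.1 σ` is ground. -/
theorem gen_var (hT : IsTRS R) (hL : LeftLinear R) (hN : NoGP R) {q q' : Rule F ar}
    (hq : q ∈ R) (hq' : q' ∈ R) {p : List ℕ} {u : Tm F ar} {σ ψ : ℕ → Tm F ar}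
    (hm : Most q q' p u σ ψ) {i : ℕ} {k : List ℕ} {s : Tm F ar}
    (h : (q.1.subst σ).subAt (i :: k) = some s) : ∃ x, 0 < s.occ x := by
  by_contra hcon
  have hs := ng_not hcon
  have hNP : ∀ {e : List ℕ} {s' : Tm F ar}, (q.1.subst σ).subAt e = some s' →
      (∀ x, s'.occ x = 0) → e ∈ NN q.1 q'.1 p := by
    intro e s' he hs'
    obtain ⟨f, a, rfl⟩ := ng_app hs'
    exact hm.np e ⟨f, a, he⟩
  have hψ : ∀ m, (q.1.subst σ).subAt (p ++ m) = (q'.1.subst ψ).subAt m := by
    intro m
    rw [subAt_append (Tm.subAt_subst σ _ _ _ hm.at_), hm.eq]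
  -- first case: the position belongs to `q.1`
  have case1 : ∀ {i : ℕ} {k : List ℕ} {s s₁ : Tm F ar}, (q.1.subst σ).subAt (i :: k) = some s →
      (∀ x, s.occ x = 0) → q.1.subAt (i :: k) = some s₁ → False := by
    intro i k s s₁ h hs h1
    obtain ⟨x, hx⟩ := hN q hq i k s₁ h1
    have h2 := vpos_spec hx
    have h3 : q.1.subAt ((i :: k) ++ vpos s₁ x) = some (Tm.var x) := by
      rw [subAt_append h1]
      exact h2
    have h4 := Tm.subAt_subst σ _ _ _ h3
    have h5 : ∀ y, ((Tm.var x : Tm F ar).subst σ).occ y = 0 := by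
      have h6 := h4
      rw [subAt_append h] at h6
      exact ng_sub hs h6
    rcases hNP h4 h5 with ⟨f, a, h6⟩ | ⟨m₁, f, a, h6, h7⟩
    · rw [h3] at h6
      exact absurd h6 (by simp)
    · rw [h6] at h3 h4
      cases m₁ with
      | nil =>
        rw [List.append_nil, hm.at_] at h3
        exact hm.nv x (by injection h3)
      | cons j m₁ =>
        obtain ⟨y, hy⟩ := hN q' hq' j m₁ _ h7
        have h8 := vpos_spec hy
        have h9 : q'.1.subAt ((j :: m₁) ++ vpos (Tm.app f a) y) = some (Tm.var y) := by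
          rw [subAt_append h7]
          exact h8
        have h10 := Tm.subAt_subst ψ _ _ _ h9
        rw [← hψ] at h10
        have h11 : ∀ z, ((Tm.var y : Tm F ar).subst ψ).occ z = 0 := by
          have h12 := h10
          rw [← List.append_assoc, subAt_append h4] at h12
          exact ng_sub h5 h12
        rcases hNP h10 h11 with ⟨f', a', h12⟩ | ⟨m', f', a', h12, h13⟩
        · rw [← List.append_assoc] at h12
          exact ng_below (s := Tm.var x) h3 h12
        · rw [← List.append_cancel_left h12, h9] at h13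
          exact absurd h13 (by simp)
  rcases hNP h hs with ⟨f, a, h1⟩ | ⟨m, f, a, h1, h2⟩
  · exact case1 h hs h1
  · cases m with
    | nil =>
      rw [List.append_nil] at h1
      rw [h1] at h
      have h3 := hm.at_
      rw [← h1] at h3
      rw [← h1] at h
      exact case1 h hs h3
    | cons j m =>
      obtain ⟨y, hy⟩ := hN q' hq' j m _ h2
      have h8 := vpos_spec hy
      have h9 : q'.1.subAt ((j :: m) ++ vpos (Tm.app f a) y) = some (Tm.var y) := by
        rw [subAt_append h2]
        exact h8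
      have h10 := Tm.subAt_subst ψ _ _ _ h9
      rw [← hψ] at h10
      have h11 : ∀ z, ((Tm.var y : Tm F ar).subst ψ).occ z = 0 := by
        have h12 := h10
        rw [← List.append_assoc, ← h1, subAt_append h] at h12
        exact ng_sub hs h12
      rcases hNP h10 h11 with ⟨f', a', h12⟩ | ⟨m', f', a', h12, h13⟩
      · have h14 : p ++ (j :: m ++ vpos (Tm.app f a) y) =
            i :: (k ++ vpos (Tm.app f a) y) := by
          rw [← List.append_assoc, ← h1, List.cons_append]
        rw [h14] at h12 h10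
        exact case1 h10 h11 h12
      · rw [← List.append_cancel_left h12, h9] at h13
        exact absurd h13 (by simp)

/-- ground subterms of `q.2 σ` -/
private theorem ng_right (hT : IsTRS R) {q : Rule F ar} (hq : q ∈ R) {σ : ℕ → Tm F ar}
    (hg : ∀ (i : ℕ) (k : List ℕ) (s : Tm F ar), (q.1.subst σ).subAt (i :: k) = some s →
      ∃ x, 0 < s.occ x) {s : Tm F ar} (hs : ∀ x, s.occ x = 0) {m : List ℕ}
    (h : (q.2.subst σ).subAt m = some s) : q.2.subAt m = some s := by
  refine ng_pat hs q.2 (fun x hx k s' hk => ?_) m h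
  have h1 := (hT q hq).2 x hx
  have h2 := vpos_spec h1
  have h3 := Tm.subAt_subst σ _ _ _ h2
  have h4 : (q.1.subst σ).subAt (vpos q.1 x ++ k) = some s' := by
    rw [subAt_append h3]
    exact hk
  cases hv : vpos q.1 x with
  | nil =>
    rw [hv, ng_nil] at h2
    exact absurd (by injection h2) ((hT q hq).1 x)
  | cons i k' =>
    rw [hv, List.cons_append] at h4
    exact hg i _ s' h4

theorem condX_of_noGP (hT : IsTRS R) (hL : LeftLinear R) (hN : NoGP R) (hC : CondC R) :
    CondX R {s : Tm F ar | ∀ x, s.occ x = 0} := by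
  intro q hq q' hq' p u σ ψ hm
  have hG : ∀ (i : ℕ) (k : List ℕ) (s : Tm F ar), (q.1.subst σ).subAt (i :: k) = some s →
      ∃ x, 0 < s.occ x := fun i k s h => gen_var hT hL hN hq hq' hm h
  have hat : (q.1.subst σ).subAt p = some (q'.1.subst ψ) := by
    rw [Tm.subAt_subst σ _ _ _ hm.at_, hm.eq]
  have hG' : ∀ (i : ℕ) (k : List ℕ) (s : Tm F ar), (q'.1.subst ψ).subAt (i :: k) = some s →
      ∃ x, 0 < s.occ x := by
    intro i k s h
    rw [← subAt_append hat] at h
    cases p with
    | nil => exact hG i k s h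
    | cons i' k' => exact hG i' _ s h
  have part1 : ∀ (z : Stp F ar) (k k' : List ℕ) (x : ℕ) (s : Tm F ar), k ≠ k' →
      z.q.2.subAt k = some (Tm.var x) → z.q.2.subAt k' = some (Tm.var x) →
      z.tgt.subAt (z.p ++ k) = some s → (∃ y, 0 < s.occ y) ∨
        s ∈ {s : Tm F ar | ∀ x, s.occ x = 0} := by
    intro z k k' x s _ _ _ _
    by_cases h : ∃ y, 0 < s.occ y
    · exact Or.inl h
    · exact Or.inr (ng_not h)
  rcases condC_most hT hL hC hq hq' hm with h | h | h
  · exact Or.inl h
  · obtain ⟨z, hz, hzt, hzg⟩ := exists_stp h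
    refine Or.inr (Or.inl ⟨z, hz, hzt, hzg, part1 z, ?_⟩)
    intro k k' s hs hkk _ _ hk hk'
    rw [hzg] at hk hk'
    have hs' : ∀ x, s.occ x = 0 := hs
    -- `k` and `k'` are parallel
    have hself : ∀ {k k' : List ℕ}, ((q.1.subst σ).repl p (q'.2.subst ψ)).subAt k = some s →
        ((q.1.subst σ).repl p (q'.2.subst ψ)).subAt k' = some s → k <+: k' → k = k' := by
      rintro k _ hk hk' ⟨n, rfl⟩
      rw [subAt_append hk] at hk'
      cases n with
      | nil => rw [List.append_nil]
      | cons i n => exact absurd hk' (ng_self s i n)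
    have hpk : ∀ {k k' : List ℕ}, k ≠ k' →
        ((q.1.subst σ).repl p (q'.2.subst ψ)).subAt k = some s →
        ((q.1.subst σ).repl p (q'.2.subst ψ)).subAt k' = some s → p <+: k := by
      intro k k' hkk hk hk'
      by_contra hp
      have hout : ∀ {k : List ℕ}, ((q.1.subst σ).repl p (q'.2.subst ψ)).subAt k = some s →
          ¬ p <+: k → ¬ k <+: p → False := by
        intro k hk h1 h2
        rw [subAt_repl_par h1 h2] at hk
        cases k with
        | nil => exact h2 List.nil_prefix
        | cons i k =>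
          obtain ⟨y, hy⟩ := hG i k s hk
          rw [hs' y] at hy
          exact absurd hy (lt_irrefl 0)
      by_cases hkp : k <+: p
      · refine hout hk' (fun h1 => ?_) fun h1 => ?_
        · exact hkk (hself hk hk' (hkp.trans h1))
        · rcases List.prefix_or_prefix_of_prefix hkp h1 with h2 | h2
          · exact hkk (hself hk hk' h2)
          · exact hkk (hself hk' hk h2).symm
      · exact hout hk hp hkp
    obtain ⟨m, rfl⟩ := hpk hkk hk hk'
    obtain ⟨m', rfl⟩ := hpk (Ne.symm hkk) hk' hk
    rw [subAt_repl_below hat] at hk hk'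
    exact ⟨m, m', rfl, rfl, ng_right hT hq' hG' hs' hk, ng_right hT hq' hG' hs' hk'⟩
  · obtain ⟨z, hz, hzt, hzg⟩ := exists_stp h
    refine Or.inr (Or.inr ⟨z, hz, hzt, hzg, part1 z, ?_⟩)
    intro k k' s hs hkk _ _ hk hk'
    rw [hzg] at hk hk'
    exact ⟨k, k', rfl, rfl, ng_right hT hq hG hs hk, ng_right hT hq hG hs hk'⟩

end Pool.Agent.Work.MP_d87e04_lc.SS
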