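import Pool.Agent.Work.MP_d87e04_lc.SS.SSeqL

/-!
# Module SSeqR (M): right weights and costs along a sequence of parallel steps

`RW (ws ++ [(false, a)]) w = RW ws (wD a w)`, and
`CW (ws ++ [(false, a)]) V w = CW ws V (wD a w) + {wc a (wU S a (LW ws V)) w}`.
-/

set_option autoImplicit false

namespace Pool.Agent.Work.MP_d87e04_lc.SS

open Pool.Agent.Work.MP_d87e04_lc.CF Pool.Agent.Work.MP_d87e04_lc.CG

universe u

variable {F : Type u} {ar : F → ℕ} {R : Set (Rule F ar)} {S : Rule F ar → Set (List ℕ)}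

private theorem par_below {q q' e : List ℕ} (h : ¬ q <+: q' ∧ ¬ q' <+: q) (he : q <+: e) :
    ¬ q' <+: e := fun h' => by
  rcases List.prefix_or_prefix_of_prefix he h' with h3 | h3
  · exact h.1 h3
  · exact h.2 h3

private theorem Seq.ok {y : Tm F ar} {ρ : Rule F ar} {τ : ℕ → Tm F ar} {q : List ℕ}
    {qs : List (List ℕ)} (hρ : ρ ∈ R) (h : Seq y ρ τ (q :: qs)) :
    (⟨y, q, ρ, y.repl q (ρ.2.subst τ)⟩ : Stp F ar).OK R :=
  ⟨hρ, τ, h.at_ q (List.mem_cons_self), rfl⟩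

private theorem LW_append {T S P : Type*} (K : Sc T S P) :
    ∀ (ws ws' : List (Bool × S)) (v : P → ℕ), K.LW (ws ++ ws') v = K.LW ws' (K.LW ws v) := by
  intro ws
  induction ws with
  | nil => intro ws' v; rfl
  | cons l ws ih =>
    intro ws' v
    obtain ⟨b, c⟩ := l
    cases b with
    | true => exact ih ws' _
    | false => exact ih ws' _

private theorem RW_append {T S P : Type*} (K : Sc T S P) :
    ∀ (ws ws' : List (Bool × S)) (w : P → ℕ), K.RW (ws ++ ws') w = K.RW ws (K.RW ws' w) := by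
  intro ws
  induction ws with
  | nil => intro ws' w; rfl
  | cons l ws ih =>
    intro ws' w
    obtain ⟨b, c⟩ := l
    cases b with
    | true => exact congrArg (K.U c) (ih ws' w)
    | false => exact congrArg (K.D c) (ih ws' w)

private theorem CW_append {T S P : Type*} (K : Sc T S P) :
    ∀ (ws ws' : List (Bool × S)) (v w : P → ℕ),
      K.CW (ws ++ ws') v w = K.CW ws v (K.RW ws' w) + K.CW ws' (K.LW ws v) w := by
  intro ws
  induction ws with
  | nil => intro ws' v w; simp [Sc.CW, Sc.LW]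
  | cons l ws ih =>
    intro ws' v w
    obtain ⟨b, c⟩ := l
    cases b with
    | true =>
      rw [List.cons_append, Sc.CW, Sc.CW, Sc.LW, ih, RW_append, Multiset.cons_add]
    | false =>
      rw [List.cons_append, Sc.CW, Sc.CW, Sc.LW, ih, RW_append, Multiset.cons_add]

private theorem CW_card {T S P : Type*} (K : Sc T S P) :
    ∀ (ws : List (Bool × S)) (v w : P → ℕ), Multiset.card (K.CW ws v w) = ws.length := by
  intro ws
  induction ws with
  | nil => intro v w; simp [Sc.CW]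
  | cons l ws ih =>
    intro v w
    obtain ⟨b, c⟩ := l
    cases b with
    | true => rw [Sc.CW, Multiset.card_cons, ih, List.length_cons]
    | false => rw [Sc.CW, Multiset.card_cons, ih, List.length_cons]

private theorem LW_seqW_cons (y : Tm F ar) (ρ : Rule F ar) (τ : ℕ → Tm F ar) (q : List ℕ)
    (qs : List (List ℕ)) (V : List ℕ → ℕ) :
    (sc S).LW (seqW y ρ τ (q :: qs)) V = wU S ⟨y, q, ρ, y.repl q (ρ.2.subst τ)⟩
      ((sc S).LW (seqW (y.repl q (ρ.2.subst τ)) ρ τ qs) V) := by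
  rw [seqW, LW_append]
  rfl

private theorem RW_seqW_cons (y : Tm F ar) (ρ : Rule F ar) (τ : ℕ → Tm F ar) (q : List ℕ)
    (qs : List (List ℕ)) (w : List ℕ → ℕ) :
    (sc S).RW (seqW y ρ τ (q :: qs)) w = (sc S).RW (seqW (y.repl q (ρ.2.subst τ)) ρ τ qs)
      (wD ⟨y, q, ρ, y.repl q (ρ.2.subst τ)⟩ w) := by
  rw [seqW, RW_append]
  rfl

private theorem CW_seqW_cons (y : Tm F ar) (ρ : Rule F ar) (τ : ℕ → Tm F ar) (q : List ℕ)
    (qs : List (List ℕ)) (V w : List ℕ → ℕ) :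
    (sc S).CW (seqW y ρ τ (q :: qs)) V w = (sc S).CW (seqW (y.repl q (ρ.2.subst τ)) ρ τ qs) V
      (wD ⟨y, q, ρ, y.repl q (ρ.2.subst τ)⟩ w) +
      {wc ⟨y, q, ρ, y.repl q (ρ.2.subst τ)⟩ ((sc S).LW (seqW y ρ τ (q :: qs)) V) w} := by
  rw [seqW, CW_append, LW_append]
  rfl

theorem RW_seq_out {y : Tm F ar} {ρ : Rule F ar} {τ : ℕ → Tm F ar} {qs : List (List ℕ)}
    (hρ : ρ ∈ R) (h : Seq y ρ τ qs) (w : List ℕ → ℕ) {e : List ℕ} (he : e ∈ ps y)
    (hq : ∀ q ∈ qs, ¬ q <+: e) : (sc S).RW (seqW y ρ τ qs) w e = w e := by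
  induction qs generalizing y w with
  | nil => rfl
  | cons q qs ih =>
    have h0 := hq q (List.mem_cons_self)
    rw [RW_seqW_cons, ih (h.tail _) _ ((mem_ps_repl (h.at_ q (List.mem_cons_self)) h0).2 he)
      (fun q' hq' => hq q' (List.mem_cons_of_mem _ hq')), wD_out (h.ok hρ) h0 he]

theorem RW_seq_cre {y : Tm F ar} {ρ : Rule F ar} {τ : ℕ → Tm F ar} {qs : List (List ℕ)}
    (hρ : ρ ∈ R) (h : Seq y ρ τ qs) (w : List ℕ → ℕ) {q k : List ℕ} (hq : q ∈ qs)
    (hk : Np ρ.2 k) :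
    (sc S).RW (seqW y ρ τ qs) w (q ++ k) = (tn Set.univ ρ.1).sup fun m => w (q ++ m) := by
  induction qs generalizing y w with
  | nil => exact absurd hq (List.not_mem_nil)
  | cons q₀ qs ih =>
    have hp := List.pairwise_cons.1 h.par
    rw [RW_seqW_cons]
    rcases List.mem_cons.1 hq with rfl | hq
    · have hc : (⟨y, q, ρ, y.repl q (ρ.2.subst τ)⟩ : Stp F ar).Cre (q ++ k) := ⟨k, rfl, hk⟩
      rw [RW_seq_out hρ (h.tail _) _ (mem_tgt_cre (h.ok hρ) hc)
        (fun q' hq' => par_below (hp.1 q' hq') (List.prefix_append _ _)), wD_cre (h.ok hρ) hc]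
      unfold Stp.pat
      rw [Finset.sup_image]
      rfl
    · rw [ih (h.tail _) _ hq]
      refine Finset.sup_congr rfl ?_
      intro m hm
      have hout : ¬ q₀ <+: q ++ m :=
        par_below ⟨(hp.1 q hq).2, (hp.1 q hq).1⟩ (List.prefix_append _ _)
      refine wD_out (h.ok hρ) hout ?_
      refine (ps_append (h.at_ q (List.mem_cons_of_mem _ hq))).2 ?_
      exact tn_subset_tv _ (tn_subset_subst _ _ hm)

theorem RW_seq_var (hT : IsTRS R) {y : Tm F ar} {ρ : Rule F ar} {τ : ℕ → Tm F ar} {qs : List (List ℕ)}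
    (hρ : ρ ∈ R) (h : Seq y ρ τ qs) (w : List ℕ → ℕ) {q k n : List ℕ} {x : ℕ} (hq : q ∈ qs)
    (hk : ρ.2.subAt k = some (Tm.var x)) (hn : n ∈ ps (τ x)) :
    (sc S).RW (seqW y ρ τ qs) w (q ++ (k ++ n)) = w (q ++ (vpos ρ.1 x ++ n)) := by
  induction qs generalizing y w with
  | nil => exact absurd hq (List.not_mem_nil)
  | cons q₀ qs ih =>
    have hp := List.pairwise_cons.1 h.par
    rw [RW_seqW_cons]
    rcases List.mem_cons.1 hq with rfl | hq
    · rw [RW_seq_out hρ (h.tail _) _ (mem_tgt_var (h.ok hρ) rfl hk hn)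
        (fun q' hq' => par_below (hp.1 q' hq') (List.prefix_append _ _))]
      exact wD_var (h.ok hρ) (σ := τ) rfl hk hn
    · rw [ih (h.tail _) _ hq]
      have hout : ¬ q₀ <+: q ++ (vpos ρ.1 x ++ n) :=
        par_below ⟨(hp.1 q hq).2, (hp.1 q hq).1⟩ (List.prefix_append _ _)
      refine wD_out (h.ok hρ) hout ?_
      refine (ps_append (h.at_ q (List.mem_cons_of_mem _ hq))).2 ?_
      exact (mem_tv_subst (vpos_spec ((hT ρ hρ).2 x (occ_of_subAt hk))) τ n).2 hn

theorem RW_seq_le (hT : IsTRS R) (hL : LeftLinear R) {y : Tm F ar} {ρ : Rule F ar}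
    {τ : ℕ → Tm F ar} {qs : List (List ℕ)} (hρ : ρ ∈ R) (h : Seq y ρ τ qs) {w : List ℕ → ℕ}
    {B : ℕ} (h1 : ∀ e ∈ ps y, w e ≤ B) (e : List ℕ)
    (he : e ∈ ps (seqT y (ρ.2.subst τ) qs)) : (sc S).RW (seqW y ρ τ qs) w e ≤ B := by
  induction qs generalizing y w with
  | nil => exact h1 e he
  | cons q qs ih =>
    rw [RW_seqW_cons]
    refine ih (h.tail _) ?_ he
    intro e' _
    exact wD_le hT hL (h.ok hρ) h1 e'

theorem CW_seq_card {y : Tm F ar} {ρ : Rule F ar} {τ : ℕ → Tm F ar} {qs : List (List ℕ)}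
    (V w : List ℕ → ℕ) : Multiset.card ((sc S).CW (seqW y ρ τ qs) V w) = qs.length := by
  rw [CW_card]
  induction qs generalizing y with
  | nil => rfl
  | cons q qs ih => rw [seqW, List.length_append, ih]; rfl

theorem CW_seq_le (hT : IsTRS R) (hL : LeftLinear R) (hS : Sok R S) {y : Tm F ar}
    {ρ : Rule F ar} {τ : ℕ → Tm F ar} {qs : List (List ℕ)} (hρ : ρ ∈ R) (h : Seq y ρ τ qs)
    {V w : List ℕ → ℕ} {B M : ℕ} (h0 : 1 ≤ B) (h1 : ∀ e, V e ≤ B)
    (h2 : ∀ q ∈ qs, ∀ u ∈ S ρ, ∀ e ∈ ps (seqT y (ρ.2.subst τ) qs), q ++ u <+: e →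
      1 + V e ≤ B) (h3 : ∀ q ∈ qs, ∀ m, Np ρ.1 m → w (q ++ m) ≤ M) {c : ℕ}
    (hc : c ∈ (sc S).CW (seqW y ρ τ qs) V w) : c ≤ B + M := by
  induction qs generalizing y w with
  | nil => exact absurd hc (Multiset.notMem_zero c)
  | cons q qs ih =>
    have hp := List.pairwise_cons.1 h.par
    rw [CW_seqW_cons] at hc
    rcases Multiset.mem_add.1 hc with hc | hc
    · refine ih (h.tail _) (fun q' hq' => h2 q' (List.mem_cons_of_mem _ hq')) ?_ hc
      intro q' hq' m hm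
      have hout : ¬ q <+: q' ++ m :=
        par_below ⟨(hp.1 q' hq').2, (hp.1 q' hq').1⟩ (List.prefix_append _ _)
      rw [wD_out (h.ok hρ) hout]
      · exact h3 q' (List.mem_cons_of_mem _ hq') m hm
      · refine (ps_append (h.at_ q' (List.mem_cons_of_mem _ hq'))).2 ?_
        exact tn_subset_tv _ (tn_subset_subst _ _ (mem_tn_univ.2 hm))
    · rw [Multiset.mem_singleton.1 hc]
      unfold wc
      refine Finset.sup_le ?_
      intro f hf
      refine Nat.add_le_add (LW_seq_le hT hL hS hρ h h0 h1 h2 f) ?_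
      obtain ⟨m, rfl, hm⟩ := mem_pat.1 hf
      exact h3 q (List.mem_cons_self) m hm

end Pool.Agent.Work.MP_d87e04_lc.SS
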