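import Pool.Agent.Work.MP_d87e04_lc.SS.SNestT
import Pool.Agent.Work.MP_d87e04_lc.SS.SSeqR

/-!
# Module SNestR (M-L): right weights of a nested pair

Let `W = RW (seqW b.tgt a.q τ (nqs b n x)) w`, weights on `(nb ..).tgt = seqT ..`. By cases on
`e ∈ ps a.tgt` (`Nest.tgta_cases`):
* `e ∈ b.pat` (the pattern of `nb` is the same): left `lab S nb W`, right `lab S b w` (`wU_pat`); use
  `lab_le`: `W ≤` max (`RW_seq_le`), and below `b.p ++ u`, `u ∈ S b.q`, the weights `W` are weights `w`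
  of positions below `b.p ++ u` (if `e` is below a copy `b.p ++ (j ++ n)`, then `u <+: j` by
  `prefix_var`);
* `e` created by `a`: left `cp` of the copies `b.p ++ (j ++ (n ++ k))` with weights `W` = sup of `w` over
  the pattern of the copy of `a`; right `a.pat.sup (wU S b w)`, `wU_var`;
* the rest: both sides are `cp` of corresponding copies, or `w e`.
-/

set_option autoImplicit false

namespace Pool.Agent.Work.MP_d87e04_lc.SS

open Pool.Agent.Work.MP_d87e04_lc.CF Pool.Agent.Work.MP_d87e04_lc.CG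

universe u

variable {F : Type u} {ar : F → ℕ} {R : Set (Rule F ar)} {S : Rule F ar → Set (List ℕ)}
  {a b : Stp F ar} {σ τ : ℕ → Tm F ar} {kx n : List ℕ} {x : ℕ}

private theorem Nest.vk (h : Nest R a b σ τ kx n x) : vpos b.q.1 x = kx :=
  vpos_eq (h.hL _ h.qb) h.hkx

private theorem Nest.pp (h : Nest R a b σ τ kx n x) (m : List ℕ) :
    b.p ++ (kx ++ (n ++ m)) = a.p ++ m := by
  rw [h.pa]
  simp only [List.append_assoc]

/-- positions below a copy of `x` after `a` -/
private theorem Nest.nσ_below (h : Nest R a b σ τ kx n x) {m : List ℕ} :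
    n ++ m ∈ ps (nσ a σ τ n x x) ↔ m ∈ ps (a.q.2.subst τ) := by
  have h1 : nσ a σ τ n x x = (σ x).repl n (a.q.2.subst τ) := by
    rw [nσ, Function.update_self]
  rw [h1, mem_ps, mem_ps, subAt_repl_below h.sub_n]

private theorem nσ_ne {y : ℕ} (hy : y ≠ x) : nσ a σ τ n x y = σ y := by
  rw [nσ, Function.update_of_ne hy]

private theorem Nest.nσ_out (h : Nest R a b σ τ kx n x) {m : List ℕ} (hm : ¬ n <+: m) :
    m ∈ ps (nσ a σ τ n x x) ↔ m ∈ ps (σ x) := by
  rw [nσ, Function.update_self, mem_ps_repl h.sub_n hm]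

/-- positions of the target of `b` below a copy -/
private theorem Nest.b_copy (h : Nest R a b σ τ kx n x) {j : List ℕ} {y : ℕ}
    (hj : b.q.2.subAt j = some (Tm.var y)) (m : List ℕ) :
    b.p ++ (j ++ m) ∈ ps b.tgt ↔ m ∈ ps (σ y) := by
  have h1 : b.tgt.subAt (b.p ++ j) = some (σ y) := by
    rw [h.bs, subAt_repl_below h.bt]
    exact Tm.subAt_subst _ _ _ _ hj
  rw [← List.append_assoc, ps_append h1]

private theorem pre_cancel {p k m : List ℕ} (h : p ++ k <+: p ++ m) : k <+: m :=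
  (List.prefix_append_right_inj p).1 h

/-- two variable positions, one continued to the other -/
private theorem var_cmp {r : Tm F ar} {j j' n' m : List ℕ} {y y' : ℕ}
    (hj : r.subAt j = some (Tm.var y)) (hj' : r.subAt j' = some (Tm.var y'))
    (hp : j' ++ n' <+: j ++ m) : j' = j ∧ y' = y ∧ n' <+: m := by
  obtain ⟨r', hr'⟩ := hp
  rw [List.append_assoc] at hr'
  obtain ⟨h1, h2, h3⟩ := varpos_eq hj' hj hr'
  exact ⟨h1, h2, ⟨r', h3⟩⟩

private theorem var_cmp_np {r : Tm F ar} {k j' n' : List ℕ} {y' : ℕ} (hk : Np r k)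
    (hj' : r.subAt j' = some (Tm.var y')) : ¬ (j' ++ n' <+: k) := by
  rintro ⟨r', rfl⟩
  rw [List.append_assoc] at hk
  exact not_np_of_var hj' _ hk

private theorem Nest.b_mem (h : Nest R a b σ τ kx n x) {y : ℕ} {k : List ℕ}
    (hk : b.q.1.subAt k = some (Tm.var y)) {m : List ℕ} (hm : m ∈ ps (σ y)) :
    b.p ++ (k ++ m) ∈ ps a.t := by
  rw [h.ab]
  have h1 : b.t.subAt (b.p ++ k) = some (σ y) := by
    rw [subAt_append h.bt]
    exact Tm.subAt_subst _ _ _ _ hk
  rw [← List.append_assoc, ps_append h1]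
  exact hm

private theorem Nest.np_below (h : Nest R a b σ τ kx n x) {k : List ℕ} (hk : Np a.q.1 k) :
    n ++ k ∈ ps (σ x) := by
  rw [ps_append h.sub_n, mem_ps]
  obtain ⟨f, c, hf⟩ := hk
  exact ⟨_, Tm.subAt_subst _ _ _ _ hf⟩

private theorem Nest.np_below2 (h : Nest R a b σ τ kx n x) {k : List ℕ} (hk : Np a.q.2 k) :
    n ++ k ∈ ps (nσ a σ τ n x x) := by
  rw [h.nσ_below, mem_ps]
  obtain ⟨f, c, hf⟩ := hk
  exact ⟨_, Tm.subAt_subst _ _ _ _ hf⟩

private theorem Nest.var_below (h : Nest R a b σ τ kx n x) {k m : List ℕ} {y : ℕ}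
    (hk : a.q.1.subAt k = some (Tm.var y)) (hm : m ∈ ps (τ y)) : n ++ (k ++ m) ∈ ps (σ x) := by
  have h9 : (a.q.1.subst τ).subAt k = some (τ y) := Tm.subAt_subst _ _ _ _ hk
  rw [ps_append h.sub_n, ps_append h9]
  exact hm

private theorem Nest.var_below2 (h : Nest R a b σ τ kx n x) {k m : List ℕ} {y : ℕ}
    (hk : a.q.2.subAt k = some (Tm.var y)) (hm : m ∈ ps (τ y)) :
    n ++ (k ++ m) ∈ ps (nσ a σ τ n x x) := by
  have h9 : (a.q.2.subst τ).subAt k = some (τ y) := Tm.subAt_subst _ _ _ _ hk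
  rw [h.nσ_below, ps_append h9]
  exact hm

/-- the weights outside of the copies of `a` -/
private theorem Nest.W_out (h : Nest R a b σ τ kx n x) (w : List ℕ → ℕ) {e : List ℕ}
    (he : e ∈ ps b.tgt) (h3 : ∀ q ∈ nqs b n x, ¬ q <+: e) :
    (sc S).RW (seqW b.tgt a.q τ (nqs b n x)) w e = w e :=
  RW_seq_out h.qa h.seq w he h3

private theorem Nest.W_cre (h : Nest R a b σ τ kx n x) (w : List ℕ → ℕ) {j k : List ℕ}
    (hj : b.q.2.subAt j = some (Tm.var x)) (hk : Np a.q.2 k) :
    (sc S).RW (seqW b.tgt a.q τ (nqs b n x)) w (b.p ++ (j ++ (n ++ k))) =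
      (tn Set.univ a.q.1).sup fun m => w (b.p ++ (j ++ (n ++ m))) := by
  have h1 := RW_seq_cre (S := S) h.qa h.seq w (mem_nqs.2 ⟨j, hj, rfl⟩) hk
  have e1 : ∀ m, b.p ++ (j ++ n) ++ m = b.p ++ (j ++ (n ++ m)) := by
    intro m
    simp only [List.append_assoc]
  simp only [e1] at h1
  exact h1

private theorem Nest.W_var (h : Nest R a b σ τ kx n x) (w : List ℕ → ℕ) {j k m : List ℕ} {y : ℕ}
    (hj : b.q.2.subAt j = some (Tm.var x)) (hk : a.q.2.subAt k = some (Tm.var y))
    (hm : m ∈ ps (τ y)) :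
    (sc S).RW (seqW b.tgt a.q τ (nqs b n x)) w (b.p ++ (j ++ (n ++ (k ++ m)))) =
      w (b.p ++ (j ++ (n ++ (vpos a.q.1 y ++ m)))) := by
  have h1 := RW_seq_var (S := S) h.hT h.qa h.seq w (mem_nqs.2 ⟨j, hj, rfl⟩) hk hm
  have e1 : ∀ m, b.p ++ (j ++ n) ++ m = b.p ++ (j ++ (n ++ m)) := by
    intro m
    simp only [List.append_assoc]
  simp only [e1] at h1
  exact h1

/-- The weights on the target of `nb`. -/
private theorem Nest.W_cases (h : Nest R a b σ τ kx n x) (w : List ℕ → ℕ) {e : List ℕ}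
    (he : e ∈ ps (nb a b σ τ n x).tgt) :
    (e ∈ ps b.tgt ∧ (sc S).RW (seqW b.tgt a.q τ (nqs b n x)) w e = w e) ∨
      ∃ j m, b.q.2.subAt j = some (Tm.var x) ∧ e = b.p ++ (j ++ m) ∧
        ∀ B, (∀ m', b.p ++ (j ++ m') ∈ ps b.tgt → w (b.p ++ (j ++ m')) ≤ B) →
          (sc S).RW (seqW b.tgt a.q τ (nqs b n x)) w e ≤ B := by
  rcases tgt_cases h.nb_ok (σ := nσ a σ τ n x) rfl he with ⟨h1, h2⟩ | ⟨k, rfl, hk⟩ |
    ⟨j, y, m, rfl, hj, hm⟩
  · left
    have h1' : ¬ b.p <+: e := h1
    have h3 : ∀ q ∈ nqs b n x, ¬ q <+: e := by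
      intro q hq hqe
      obtain ⟨j, _, rfl⟩ := mem_nqs.1 hq
      exact h1' ((List.prefix_append _ _).trans hqe)
    have h5 : ¬ a.p <+: e := by
      rw [h.pa]
      intro hp
      exact h1' ((List.prefix_append _ _).trans hp)
    have h4 : e ∈ ps b.tgt := by
      rw [mem_tgt_out h.okB h1', ← h.ab, ← mem_tgt_out h.okA h5]
      exact h2
    exact ⟨h4, h.W_out w h4 h3⟩
  · left
    have hk' : Np b.q.2 k := hk
    have h3 : ∀ q ∈ nqs b n x, ¬ q <+: b.p ++ k := by
      intro q hq hqe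
      obtain ⟨j, hj, rfl⟩ := mem_nqs.1 hq
      exact var_cmp_np hk' hj (pre_cancel hqe)
    have h4 : b.p ++ k ∈ ps b.tgt := mem_tgt_cre h.okB ⟨k, rfl, hk'⟩
    exact ⟨h4, h.W_out w h4 h3⟩
  · have hj' : b.q.2.subAt j = some (Tm.var y) := hj
    by_cases hy : y = x
    · subst hy
      by_cases hnm : n <+: m
      · right
        obtain ⟨m, rfl⟩ := hnm
        refine ⟨j, n ++ m, hj', rfl, ?_⟩
        intro B hB
        rw [h.nσ_below] at hm
        rcases ps_subst_cases hm with hk | ⟨k, z, m', hk, hm', rfl⟩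
        · show (sc S).RW _ w (b.p ++ (j ++ (n ++ m))) ≤ B
          rw [h.W_cre w hj' hk]
          refine Finset.sup_le fun m' hm' => ?_
          refine hB _ ?_
          rw [h.b_copy hj']
          exact h.np_below (mem_tn_univ.1 hm')
        · show (sc S).RW _ w (b.p ++ (j ++ (n ++ (k ++ m')))) ≤ B
          rw [h.W_var w hj' hk hm']
          refine hB _ ?_
          rw [h.b_copy hj']
          exact h.var_below (vpos_spec ((h.hT _ h.qa).2 z (occ_of_subAt hk))) hm'
      · left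
        have h3 : ∀ q ∈ nqs b n y, ¬ q <+: b.p ++ (j ++ m) := by
          intro q hq hqe
          obtain ⟨j', hj2, rfl⟩ := mem_nqs.1 hq
          exact hnm (var_cmp hj' hj2 (pre_cancel hqe)).2.2
        have h4 : b.p ++ (j ++ m) ∈ ps b.tgt := by
          rw [h.b_copy hj']
          exact (h.nσ_out hnm).1 hm
        exact ⟨h4, h.W_out w h4 h3⟩
    · left
      have h3 : ∀ q ∈ nqs b n x, ¬ q <+: b.p ++ (j ++ m) := by
        intro q hq hqe
        obtain ⟨j', hj2, rfl⟩ := mem_nqs.1 hq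
        exact hy (var_cmp hj' hj2 (pre_cancel hqe)).2.1.symm
      have h4 : b.p ++ (j ++ m) ∈ ps b.tgt := by
        rw [h.b_copy hj']
        rw [nσ_ne hy] at hm
        exact hm
      exact ⟨h4, h.W_out w h4 h3⟩

/-- The label of `nb`. -/
theorem Nest.lab_nb (hS : Sok R S) (h : Nest R a b σ τ kx n x) (w : List ℕ → ℕ) :
    lab S (nb a b σ τ n x) ((sc S).RW (seqW b.tgt a.q τ (nqs b n x)) w) ≤ lab S b w := by
  refine lab_le (one_le_lab w) ?_ ?_
  · intro e he
    rcases h.W_cases (S := S) w he with ⟨h1, h2⟩ | ⟨j, m, hj, rfl, h2⟩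
    · rw [h2]
      exact le_lab h1
    · exact h2 _ fun m' hm' => le_lab hm'
  · rintro e he ⟨u, hu, hue⟩
    have hu' : u ∈ S b.q := hu
    have hue' : b.p ++ u <+: e := hue
    rcases h.W_cases (S := S) w he with ⟨h1, h2⟩ | ⟨j, m, hj, rfl, h2⟩
    · rw [h2]
      exact reg_lab h1 ⟨u, hu', hue'⟩
    · obtain ⟨s, hs⟩ := hS.pos _ h.qb u hu'
      have h3 : u <+: j := prefix_var hj hs (pre_cancel hue')
      have h4 := h2 (lab S b w - 1) fun m' hm' => by
        have h5 : 1 + w (b.p ++ (j ++ m')) ≤ lab S b w := by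
          refine reg_lab hm' ⟨u, hu', ?_⟩
          exact (List.prefix_append_right_inj b.p).2 (h3.trans (List.prefix_append _ _))
        omega
      have h6 := one_le_lab (S := S) (a := b) w
      omega

private theorem cp_img_congr {J : Finset (List ℕ)} {f g : List ℕ → List ℕ} {w w' : List ℕ → ℕ}
    (hf : Function.Injective f) (hg : Function.Injective g)
    (hw : ∀ j ∈ J, w (f j) = w' (g j)) : cp (J.image f) w = cp (J.image g) w' := by
  unfold cp
  rw [Finset.card_image_of_injective _ hf, Finset.card_image_of_injective _ hg, Finset.sup_image,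
    Finset.sup_image]
  have h10 : J.sup (w ∘ f) = J.sup (w' ∘ g) := Finset.sup_congr rfl fun j hj => hw j hj
  rw [h10]

private theorem inj_app (p m : List ℕ) : Function.Injective fun j : List ℕ => p ++ (j ++ m) := by
  intro j1 j2 h12
  exact List.append_cancel_right (List.append_cancel_left h12)

/-- the weight of copies, weights being suprema -/
private theorem cp_sup_le {J : Finset (List ℕ)} {N : Finset (List ℕ)} (hN : N.Nonempty)
    {f : List ℕ → List ℕ} {g : List ℕ → List ℕ → List ℕ} {W w : List ℕ → ℕ} {B : ℕ}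
    (hf : Function.Injective f) (hg : ∀ k, Function.Injective (g k))
    (hW : ∀ j ∈ J, W (f j) = N.sup fun k => w (g k j))
    (hB : ∀ k ∈ N, cp (J.image (g k)) w ≤ B) : cp (J.image f) W ≤ B := by
  have h1 : ∀ k ∈ N, ∀ j ∈ J, w (g k j) + (if J.card ≤ 1 then 0 else 1) ≤ B := by
    intro k hk j hj
    have h2 := hB k hk
    unfold cp at h2
    rw [Finset.card_image_of_injective _ (hg k), Finset.sup_image] at h2
    have h3 : (w ∘ g k) j ≤ J.sup (w ∘ g k) := Finset.le_sup hj
    have h4 : (w ∘ g k) j = w (g k j) := rfl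
    split_ifs at h2 ⊢
    · omega
    · omega
  have h0 : (if J.card ≤ 1 then 0 else 1) ≤ B := by
    split_ifs with hc
    · exact Nat.zero_le _
    · obtain ⟨k, hk⟩ := hN
      have h5 : J.Nonempty := by
        rw [← Finset.card_pos]
        omega
      obtain ⟨j, hj⟩ := h5
      have h6 := h1 k hk j hj
      rw [if_neg hc] at h6
      omega
  have h7 : J.sup (W ∘ f) ≤ B - (if J.card ≤ 1 then 0 else 1) := by
    refine Finset.sup_le fun j hj => ?_
    show W (f j) ≤ _
    rw [hW j hj]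
    refine Finset.sup_le fun k hk => ?_
    have h8 := h1 k hk j hj
    omega
  unfold cp
  rw [Finset.card_image_of_injective _ hf, Finset.sup_image]
  split_ifs with hc
  · rw [if_pos hc] at h7
    omega
  · rw [if_neg hc] at h7 h0
    omega

theorem Nest.right (hS : Sok R S) (h : Nest R a b σ τ kx n x) (w : List ℕ → ℕ) :
    wU S (nb a b σ τ n x) ((sc S).RW (seqW b.tgt a.q τ (nqs b n x)) w) ≤ wD a (wU S b w) := by
  classical
  intro e
  have hoB := h.okB
  have hoA := h.okA
  have hoN := h.nb_ok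
  by_cases he : e ∈ ps a.tgt
  swap
  · rw [wU, if_neg]
    · exact Nat.zero_le _
    · exact he
  · rcases h.tgta_cases he with ⟨h1, h2⟩ | hp | ⟨k, y, m, hy, rfl, hk, hm⟩ |
      ⟨m, rfl, hm, hnm⟩ | ⟨k, rfl, hk⟩ | ⟨k, y, m, rfl, hk, hm⟩
    · -- outside
      have h3 : ∀ q ∈ nqs b n x, ¬ q <+: e := by
        intro q hq hqe
        obtain ⟨j, _, rfl⟩ := mem_nqs.1 hq
        exact h1 ((List.prefix_append _ _).trans hqe)
      have h5 : ¬ a.p <+: e := by
        rw [h.pa]
        intro hp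
        exact h1 ((List.prefix_append _ _).trans hp)
      have h6 : e ∈ ps a.t := by
        rw [h.ab]
        exact h2
      rw [wU_out hoN h1 he, h.W_out w ((mem_tgt_out hoB h1).2 h2) h3, wD_out hoA h5 h6,
        wU_out hoB h1 h2]
    · -- the pattern of `b`
      have h6 : e ∈ ps a.t := by
        rw [h.ab]
        exact pat_subset hoB hp
      have h5 : ¬ a.p <+: e := by
        obtain ⟨k', rfl, hk'⟩ := mem_pat.1 hp
        rw [h.pa]
        intro hp
        exact var_cmp_np hk' h.hkx (pre_cancel hp)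
      rw [wU_pat hoN (show e ∈ (nb a b σ τ n x).pat from hp), wD_out hoA h5 h6, wU_pat hoB hp]
      exact h.lab_nb hS w
    · -- another variable
      have h5 : ¬ a.p <+: b.p ++ (k ++ m) := by
        rw [h.pa]
        intro hp
        exact hy (var_cmp hk h.hkx (pre_cancel hp)).2.1.symm
      have h7 := wU_var (S := S) (a := nb a b σ τ n x) h.hT h.hL hoN h.nb_at rfl
        (w := (sc S).RW (seqW b.tgt a.q τ (nqs b n x)) w) (k := k) (n := m) hk
        (by rw [nσ_ne hy]; exact hm)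
      rw [wD_out hoA h5 (h.b_mem hk hm), wU_var h.hT h.hL hoB h.bt h.bs hk hm]
      refine le_of_eq (h7.trans ?_)
      refine cp_img_congr (inj_app _ _) (inj_app _ _) ?_
      intro j hj
      have hj' : b.q.2.subAt j = some (Tm.var y) := mem_vps.1 hj
      refine h.W_out w ((h.b_copy hj' m).2 hm) ?_
      intro q hq hqe
      obtain ⟨j', hj2, rfl⟩ := mem_nqs.1 hq
      exact hy (var_cmp hj' hj2 (pre_cancel hqe)).2.1.symm
    · -- in the content of `x`, not below `n`
      have h5 : ¬ a.p <+: b.p ++ (kx ++ m) := by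
        rw [h.pa]
        intro hp
        exact hnm (var_cmp h.hkx h.hkx (pre_cancel hp)).2.2
      have h7 := wU_var (S := S) (a := nb a b σ τ n x) h.hT h.hL hoN h.nb_at rfl
        (w := (sc S).RW (seqW b.tgt a.q τ (nqs b n x)) w) (k := kx) (n := m) h.hkx
        ((h.nσ_out hnm).2 hm)
      rw [wD_out hoA h5 (h.b_mem h.hkx hm), wU_var h.hT h.hL hoB h.bt h.bs h.hkx hm]
      refine le_of_eq (h7.trans ?_)
      refine cp_img_congr (inj_app _ _) (inj_app _ _) ?_
      intro j hj
      have hj' : b.q.2.subAt j = some (Tm.var x) := mem_vps.1 hj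
      refine h.W_out w ((h.b_copy hj' m).2 hm) ?_
      intro q hq hqe
      obtain ⟨j', hj2, rfl⟩ := mem_nqs.1 hq
      exact hnm (var_cmp hj' hj2 (pre_cancel hqe)).2.2
    · -- created by `a`
      have h7 := wU_var (S := S) (a := nb a b σ τ n x) h.hT h.hL hoN h.nb_at rfl
        (w := (sc S).RW (seqW b.tgt a.q τ (nqs b n x)) w) (k := kx) (n := n ++ k) h.hkx
        (h.np_below2 hk)
      rw [← h.pp, h.pp, wD_cre hoA ⟨k, rfl, hk⟩, ← h.pp k]
      refine h7.le.trans ?_
      have hne : (tn Set.univ a.q.1).Nonempty := by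
        obtain ⟨k', _, hk'⟩ := mem_pat.1 (p_mem_pat h.hT hoA)
        exact ⟨k', mem_tn_univ.2 hk'⟩
      refine cp_sup_le hne (g := fun k' j => b.p ++ (j ++ (n ++ k'))) (w := w) (inj_app _ _)
        (fun k' => inj_app _ _) ?_ ?_
      · intro j hj
        exact h.W_cre w (mem_vps.1 hj) hk
      · intro k' hk'
        have hk2 : Np a.q.1 k' := mem_tn_univ.1 hk'
        have h8 : cp ((vps b.q.2 x).image fun j => b.p ++ (j ++ (n ++ k'))) w =
            wU S b w (a.p ++ k') := by
          rw [← h.pp]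
          exact (wU_var h.hT h.hL hoB h.bt h.bs h.hkx (h.np_below hk2)).symm
        have h9 : wU S b w (a.p ++ k') ≤ a.pat.sup (wU S b w) :=
          Finset.le_sup (mem_pat.2 ⟨k', rfl, hk2⟩)
        exact h8.le.trans h9
    · -- in the content of `a`
      have h7 := wU_var (S := S) (a := nb a b σ τ n x) h.hT h.hL hoN h.nb_at rfl
        (w := (sc S).RW (seqW b.tgt a.q τ (nqs b n x)) w) (k := kx) (n := n ++ (k ++ m)) h.hkx
        (h.var_below2 hk hm)
      have hk2 := vpos_spec ((h.hT _ h.qa).2 y (occ_of_subAt hk))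
      rw [wD_var hoA h.as_ hk hm, ← h.pp, ← h.pp,
        wU_var h.hT h.hL hoB h.bt h.bs h.hkx (h.var_below hk2 hm)]
      refine le_of_eq (h7.trans ?_)
      refine cp_img_congr (inj_app _ _) (inj_app _ _) ?_
      intro j hj
      exact h.W_var w (mem_vps.1 hj) hk hm

end Pool.Agent.Work.MP_d87e04_lc.SS
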