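import Pool.Agent.Work.MP_d87e04_lc.SS.SNestL
import Pool.Agent.Work.MP_d87e04_lc.SS.SNestR

/-!
# Module SNest (M): a step in the content of another step

Word `(true, nb ..) :: seqW b.tgt a.q τ (nqs b n x)`; `Nest.left`, `Nest.right`. Costs:
* `wc nb v (wU S nb W) ≤ wc b (wU S a v) (wU S b w)`: on the pattern of `b`, `wU S nb W = lab S nb W ≤
  lab S b w` and `wU S a v = v`;
* the cost of every copy is `≤ lab S a v + M` with `M` = the maximum of `w` over the patterns of the
  copies (`CW_seq_le`, `Nest.V_le`, `Nest.V_reg`), and `wc a (wU S a v) (wU S b w)` is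
  `lab S a v + M` for one copy and `lab S a v + 1 + M` for at least two copies (`wU_var`).
Cases: `(nqs b n x).length = 0` or `≥ 2`: first alternative of `Good` (Dershowitz-Manna); `= 1`: second
alternative.
-/

set_option autoImplicit false

namespace Pool.Agent.Work.MP_d87e04_lc.SS

open Pool.Agent.Work.MP_d87e04_lc.CF Pool.Agent.Work.MP_d87e04_lc.CG

universe u

variable {F : Type u} {ar : F → ℕ} {R : Set (Rule F ar)} {S : Rule F ar → Set (List ℕ)}

/-- The Dershowitz-Manna comparison. -/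
private theorem dm_pair {s : Multiset ℕ} {c ca cb : ℕ} (h1 : c ≤ cb) (h2 : ∀ y ∈ s, y < ca) :
    Multiset.IsDershowitzMannaLT (c ::ₘ s) {ca, cb} := by
  rcases h1.eq_or_lt with rfl | hlt
  · refine ⟨{c}, s, {ca}, by simp, ?_, ?_, ?_⟩
    · rw [Multiset.singleton_add]
    · rw [Multiset.singleton_add, Multiset.pair_comm]
      rfl
    · intro y hy
      exact ⟨ca, Multiset.mem_singleton_self _, h2 y hy⟩
  · refine ⟨0, c ::ₘ s, {ca, cb}, by simp, by simp, by simp, ?_⟩
    intro y hy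
    rcases Multiset.mem_cons.1 hy with rfl | hy
    · exact ⟨cb, by simp, hlt⟩
    · exact ⟨ca, by simp, h2 y hy⟩

variable {a b : Stp F ar} {σ τ : ℕ → Tm F ar} {kx n : List ℕ} {x : ℕ}

/-- The right weight of the pattern of `a`. -/
private theorem wU_copy (N : Nest R a b σ τ kx n x) (w : List ℕ → ℕ) {m : List ℕ}
    (hm : Np a.q.1 m) :
    wU S b w (a.p ++ m) = (if (vps b.q.2 x).card ≤ 1 then 0 else 1) +
      (vps b.q.2 x).sup (fun j => w (b.p ++ (j ++ (n ++ m)))) := by
  have h1 : n ++ m ∈ ps (σ x) := by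
    rw [ps_append N.sub_n, mem_ps]
    obtain ⟨f, c, hf⟩ := hm
    exact ⟨_, Tm.subAt_subst _ _ _ _ hf⟩
  have h2 := wU_var (S := S) (w := w) N.hT N.hL N.okB N.bt N.bs N.hkx h1
  have h3 : b.p ++ (kx ++ (n ++ m)) = a.p ++ m := by
    rw [N.pa]
    simp only [List.append_assoc]
  rw [h3] at h2
  have inj : Function.Injective fun j : List ℕ => b.p ++ (j ++ (n ++ m)) := by
    intro j1 j2 h12
    exact List.append_cancel_right (List.append_cancel_left h12)
  rw [h2]
  unfold cp
  rw [Finset.card_image_of_injective _ inj, Finset.sup_image]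
  split
  · rw [zero_add]
    rfl
  · rfl

/-- The cost of the redex of `b` after `a`. -/
private theorem cost_nb (hS : Sok R S) (N : Nest R a b σ τ kx n x) (v w : List ℕ → ℕ) :
    wc (nb a b σ τ n x) v (wU S (nb a b σ τ n x)
      ((sc S).RW (seqW b.tgt a.q τ (nqs b n x)) w)) ≤ wc b (wU S a v) (wU S b w) := by
  unfold wc
  refine Finset.sup_mono_fun ?_
  intro f hf
  have hf' : f ∈ b.pat := hf
  obtain ⟨k, hk, hnp⟩ := mem_pat.1 hf'
  have h1 : ¬ a.p <+: f := by
    rw [hk, N.pa]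
    rintro ⟨r, hr⟩
    rw [List.append_assoc] at hr
    have hr' := List.append_cancel_left hr
    rw [List.append_assoc] at hr'
    rw [← hr'] at hnp
    exact not_np_of_var N.hkx _ hnp
  have h2 : f ∈ ps a.t := by
    rw [N.ab]
    exact pat_subset N.okB hf'
  rw [wU_out N.okA h1 h2, wU_pat N.nb_ok hf, wU_pat N.okB hf']
  exact Nat.add_le_add_left (N.lab_nb hS w) _

/-- The costs of the copies. -/
private theorem cost_copies (hS : Sok R S) (N : Nest R a b σ τ kx n x) (v w : List ℕ → ℕ) {c : ℕ}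
    (hc : c ∈ (sc S).CW (seqW b.tgt a.q τ (nqs b n x)) (wD (nb a b σ τ n x) v) w) :
    c + (if (vps b.q.2 x).card ≤ 1 then 0 else 1) ≤ wc a (wU S a v) (wU S b w) := by
  classical
  have hne : (tn Set.univ a.q.1).Nonempty := by
    obtain ⟨k, _, hk⟩ := mem_pat.1 (p_mem_pat N.hT N.okA)
    exact ⟨k, mem_tn_univ.2 hk⟩
  obtain ⟨m, hm, hM⟩ := Finset.exists_mem_eq_sup (tn Set.univ a.q.1) hne
    (fun m => (vps b.q.2 x).sup (fun j => w (b.p ++ (j ++ (n ++ m)))))
  have hm' : Np a.q.1 m := mem_tn_univ.1 hm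
  have h1 : c ≤ lab S a v + (vps b.q.2 x).sup (fun j => w (b.p ++ (j ++ (n ++ m)))) := by
    refine CW_seq_le N.hT N.hL hS N.qa N.seq (one_le_lab v) (N.V_le hS v) (N.V_reg hS v) ?_ hc
    intro q hq k hk
    obtain ⟨j, hj, rfl⟩ := mem_nqs.1 hq
    have h2 : w (b.p ++ (j ++ n) ++ k) ≤
        (vps b.q.2 x).sup (fun j => w (b.p ++ (j ++ (n ++ k)))) := by
      have h3 := Finset.le_sup (f := fun j => w (b.p ++ (j ++ (n ++ k)))) (mem_vps.2 hj)
      have h4 : b.p ++ (j ++ n) ++ k = b.p ++ (j ++ (n ++ k)) := by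
        simp only [List.append_assoc]
      rw [h4]
      exact h3
    refine h2.trans ?_
    rw [← hM]
    exact Finset.le_sup (f := fun m => (vps b.q.2 x).sup (fun j => w (b.p ++ (j ++ (n ++ m)))))
      (mem_tn_univ.2 hk)
  have hmp : a.p ++ m ∈ a.pat := mem_pat.2 ⟨m, rfl, hm'⟩
  have h5 : wU S a v (a.p ++ m) + wU S b w (a.p ++ m) ≤ wc a (wU S a v) (wU S b w) :=
    Finset.le_sup (f := fun f => wU S a v f + wU S b w f) hmp
  rw [wU_pat N.okA hmp, wU_copy N w hm'] at h5
  omega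

theorem good_nest (hT : IsTRS R) (hL : LeftLinear R) (hS : Sok R S) {a b : Stp F ar}
    (ha : a.OK R) (hb : b.OK R) (hab : a.t = b.t) {kx n : List ℕ} {x : ℕ}
    (hkx : b.q.1.subAt kx = some (Tm.var x)) (hp : a.p = b.p ++ (kx ++ n)) :
    (sc S).Good {x | x.OK R} a b := by
  obtain ⟨qa, τ, ha1, ha2⟩ := ha
  obtain ⟨qb, σ, hb1, hb2⟩ := hb
  have N : Nest R a b σ τ kx n x := ⟨hT, hL, qa, qb, hab, hb1, hb2, ha1, ha2, hkx, hp⟩
  refine ⟨(true, nb a b σ τ n x) :: seqW b.tgt a.q τ (nqs b n x), ?_, ?_⟩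
  · refine ⟨N.nb_ok, rfl, ?_⟩
    have h1 := isW_seq (S := S) N.qa N.seq
    rw [← N.tgt] at h1
    exact h1
  · intro v w _ _
    refine ⟨N.left hS v, N.right hS w, ?_⟩
    by_cases hcard : (vps b.q.2 x).card = 1
    · right
      have hlen : (nqs b n x).length = 1 := by
        rw [length_nqs, hcard]
      obtain ⟨q, hq⟩ := List.length_eq_one_iff.1 hlen
      have h1 := cost_nb hS N v w
      have h2 := fun c hc => cost_copies hS N v w (c := c) hc
      rw [hq] at h1 h2 ⊢
      refine ⟨nb a b σ τ n x, ⟨b.tgt, q, a.q, b.tgt.repl q (a.q.2.subst τ)⟩, rfl, h1, ?_⟩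
      have h3 := h2 _ (Multiset.mem_cons_self _ _)
      exact (Nat.le_add_right _ _).trans h3
    · left
      refine dm_pair (cost_nb hS N v w) ?_
      intro y hy
      show y < wc a (wU S a v) (wU S b w)
      replace hy : y ∈ (sc S).CW (seqW b.tgt a.q τ (nqs b n x)) (wD (nb a b σ τ n x) v) w := hy
      have h2 := cost_copies hS N v w hy
      by_cases h0 : (vps b.q.2 x).card = 0
      · exfalso
        have h3 : Multiset.card ((sc S).CW (seqW b.tgt a.q τ (nqs b n x))
          (wD (nb a b σ τ n x) v) w) = 0 := by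
          rw [CW_seq_card, length_nqs, h0]
        rw [Multiset.card_eq_zero] at h3
        rw [h3] at hy
        exact Multiset.notMem_zero _ hy
      · rw [if_neg (by omega)] at h2
        omega

end Pool.Agent.Work.MP_d87e04_lc.SS
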