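import Pool.Agent.Work.MP_d87e04_lc.SS.SMono

/-!
# Module SPar (M): two parallel steps

`a' = ⟨b.tgt, a.p, a.q, m⟩`, `b' = ⟨a.tgt, b.p, b.q, m⟩` with `m = a.tgt.repl b.p (..) =
b.tgt.repl a.p (..)`, word `[(true, b'), (false, a')]`. The weight inequalities are equalities
except for the label, where `(ps m).sup (wD b' v) ≤ (ps a.tgt).sup v` is used (`wD_le`) and the
regions of `a'` and `a` coincide (they are below `a.p`, where `wD b' v = v`).
-/

set_option autoImplicit false

namespace Pool.Agent.Work.MP_d87e04_lc.SS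

open Pool.Agent.Work.MP_d87e04_lc.CF Pool.Agent.Work.MP_d87e04_lc.CG

universe u

variable {F : Type u} {ar : F → ℕ} {R : Set (Rule F ar)} {S : Rule F ar → Set (List ℕ)}

private theorem repl_comm_par (s s' : Tm F ar) : ∀ (p p' : List ℕ) (t : Tm F ar),
    ¬ p <+: p' → ¬ p' <+: p → (t.repl p s).repl p' s' = (t.repl p' s').repl p s := by
  intro p
  induction p with
  | nil => intro p' t h1 _; exact absurd (List.nil_prefix) h1
  | cons i p ih =>
    intro p' t h1 h2
    cases p' with
    | nil => exact absurd (List.nil_prefix) h2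
    | cons j p' =>
      cases t with
      | var x => rfl
      | app f a =>
        by_cases hi : i < ar f
        · by_cases hj : j < ar f
          · by_cases hij : i = j
            · subst hij
              have h1' : ¬ p <+: p' := fun h => h1 ((List.cons_prefix_cons).2 ⟨rfl, h⟩)
              have h2' : ¬ p' <+: p := fun h => h2 ((List.cons_prefix_cons).2 ⟨rfl, h⟩)
              simp only [Tm.repl, dif_pos hi, Function.update_self, Function.update_idem]
              rw [ih p' _ h1' h2']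
            · have hne : (⟨i, hi⟩ : Fin (ar f)) ≠ ⟨j, hj⟩ := fun h => hij (congrArg Fin.val h)
              simp only [Tm.repl, dif_pos hi, dif_pos hj]
              rw [Function.update_of_ne hne.symm, Function.update_of_ne hne,
                Function.update_comm hne]
          · simp only [Tm.repl, dif_pos hi, dif_neg hj]
        · by_cases hj : j < ar f
          · simp only [Tm.repl, dif_neg hi, dif_pos hj]
          · simp only [Tm.repl, dif_neg hi, dif_neg hj]

private theorem not_prefix_of_par {p p' f : List ℕ} (h1 : ¬ p <+: p') (h2 : ¬ p' <+: p)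
    (h : p <+: f) : ¬ p' <+: f := fun h' => by
  rcases List.prefix_or_prefix_of_prefix h h' with h3 | h3
  · exact h1 h3
  · exact h2 h3

/-- The data of two parallel steps `a`, `b` and their residuals `a'`, `b'`. -/
private structure PP (R : Set (Rule F ar)) (a b a' b' : Stp F ar) : Prop where
  ha : a.OK R
  hb : b.OK R
  ha' : a'.OK R
  hb' : b'.OK R
  hab : a.t = b.t
  h1 : ¬ a.p <+: b.p
  h2 : ¬ b.p <+: a.p
  ta : a'.t = b.tgt
  pa : a'.p = a.p
  qa : a'.q = a.q
  tb : b'.t = a.tgt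
  pb : b'.p = b.p
  qb : b'.q = b.q
  tt : a'.tgt = b'.tgt
  sa : ∃ σ : ℕ → Tm F ar, a.t.subAt a.p = some (a.q.1.subst σ) ∧
    a.tgt = a.t.repl a.p (a.q.2.subst σ) ∧ a'.t.subAt a.p = some (a.q.1.subst σ) ∧
    a'.tgt = a'.t.repl a.p (a.q.2.subst σ)

private theorem PP.lab (hT : IsTRS R) (hL : LeftLinear R) {a b a' b' : Stp F ar}
    (h : PP R a b a' b') (v : List ℕ → ℕ) : lab S a' (wD b' v) ≤ lab S a v := by
  refine lab_le (one_le_lab v) ?_ ?_
  · intro e _
    refine wD_le hT hL h.hb' (fun f hf => ?_) e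
    rw [h.tb] at hf
    exact le_lab hf
  · intro e he hr
    have hpe : a.p <+: e := by
      obtain ⟨u, _, hue⟩ := hr
      rw [h.pa] at hue
      exact (List.prefix_append _ _).trans hue
    have hbe : ¬ b'.p <+: e := by
      rw [h.pb]
      exact not_prefix_of_par h.h1 h.h2 hpe
    have he' : e ∈ ps b'.t := by
      rw [h.tt] at he
      exact (mem_tgt_out h.hb' hbe).1 he
    rw [wD_out h.hb' hbe he']
    rw [h.tb] at he'
    refine reg_lab he' ?_
    obtain ⟨u, hu, hue⟩ := hr
    rw [h.pa] at hue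
    rw [h.qa] at hu
    exact ⟨u, hu, hue⟩

private theorem PP.le (hT : IsTRS R) (hL : LeftLinear R) {a b a' b' : Stp F ar}
    (h : PP R a b a' b') (v : List ℕ → ℕ) : wU S a' (wD b' v) ≤ wD b (wU S a v) := by
  intro f
  have hpat : a'.pat = a.pat := by
    unfold Stp.pat
    rw [h.pa, h.qa]
  have hpatb : b'.pat = b.pat := by
    unfold Stp.pat
    rw [h.pb, h.qb]
  by_cases hf : f ∈ ps a'.t
  swap
  · unfold wU
    rw [if_neg hf]
    exact Nat.zero_le _
  have hf2 : f ∈ ps b.tgt := h.ta ▸ hf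
  by_cases hfp : f ∈ a.pat
  · have hpf : a.p <+: f := by
      obtain ⟨k, rfl, _⟩ := mem_pat.1 hfp
      exact List.prefix_append _ _
    have hbf : ¬ b.p <+: f := not_prefix_of_par h.h1 h.h2 hpf
    have hft : f ∈ ps b.t := (mem_tgt_out h.hb hbf).1 hf2
    rw [wU_pat h.ha' (by rw [hpat]; exact hfp), wD_out h.hb hbf hft, wU_pat h.ha hfp]
    exact h.lab hT hL v
  · by_cases hpf : a.p <+: f
    · have hbf : ¬ b.p <+: f := not_prefix_of_par h.h1 h.h2 hpf
      have hft : f ∈ ps b.t := (mem_tgt_out h.hb hbf).1 hf2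
      obtain ⟨σ, hs, ht, hs', ht'⟩ := h.sa
      rw [← h.pa, ← h.qa] at hs' ht'
      rcases src_cases hs' hf with h3 | h3 | ⟨k, x, n, hk, hx, hn⟩
      · rw [h.pa] at h3
        exact absurd hpf h3
      · rw [hpat] at h3
        exact absurd h3 hfp
      · have hk2 := hk
        rw [h.pa] at hk2
        have hx2 := hx
        rw [h.qa] at hx2
        rw [wD_out h.hb hbf hft, hk, wU_var hT hL h.ha' hs' ht' hx hn, h.pa,
          wU_var hT hL h.ha hs ht hx2 hn, h.qa]
        refine cp_le_cp (Finset.Subset.refl _) ?_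
        intro e he
        obtain ⟨j, hj, rfl⟩ := Finset.mem_image.1 he
        have hpe : a.p <+: a.p ++ (j ++ n) := List.prefix_append _ _
        have hbe : ¬ b'.p <+: a.p ++ (j ++ n) := by
          rw [h.pb]
          exact not_prefix_of_par h.h1 h.h2 hpe
        have hmem : a.p ++ (j ++ n) ∈ ps b'.t := by
          rw [h.tb]
          exact mem_tgt_var h.ha ht (mem_vps.1 hj) hn
        rw [wD_out h.hb' hbe hmem]
    · have hpf' : ¬ a'.p <+: f := by
        rw [h.pa]
        exact hpf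
      rw [wU_out h.ha' hpf' hf]
      have hfm : f ∈ ps b'.tgt := by
        rw [← h.tt]
        exact (mem_tgt_out h.ha' hpf').2 hf
      by_cases hc : b.Cre f
      · have hc' : b'.Cre f := by
          obtain ⟨k, hk, hn⟩ := hc
          exact ⟨k, by rw [h.pb]; exact hk, by rw [h.qb]; exact hn⟩
        rw [wD_cre h.hb' hc', wD_cre h.hb hc, hpatb]
        refine Finset.sup_mono_fun ?_
        intro e he
        have hbe : b.p <+: e := by
          obtain ⟨k, rfl, _⟩ := mem_pat.1 he
          exact List.prefix_append _ _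
        have hae : ¬ a.p <+: e := not_prefix_of_par h.h2 h.h1 hbe
        rw [wU_out h.ha hae (by rw [h.hab]; exact pat_subset h.hb he)]
      · have hc' : ¬ b'.Cre f := by
          rintro ⟨k, hk, hn⟩
          exact hc ⟨k, by rw [← h.pb]; exact hk, by rw [← h.qb]; exact hn⟩
        have hog : b'.og f = b.og f := by
          unfold Stp.og
          rw [h.pb, h.qb]
        have e1 : wD b' v f = v (b.og f) := by
          unfold wD
          rw [if_pos hfm, if_neg hc', hog]
        have e2 : wD b (wU S a v) f = wU S a v (b.og f) := by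
          unfold wD
          rw [if_pos hf2, if_neg hc]
        have hnot : ¬ a.p <+: b.og f := by
          by_cases hbf : b.p <+: f
          · refine not_prefix_of_par h.h2 h.h1 ?_
            unfold Stp.og
            rw [if_pos hbf]
            exact List.prefix_append _ _
          · rw [og_out hbf]
            exact hpf
        rw [e1, e2, wU_out h.ha hnot (by rw [h.hab]; exact (og_mem hT hL h.hb hf2 hc).1)]

private theorem PP.cost (hT : IsTRS R) (hL : LeftLinear R) {a b a' b' : Stp F ar}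
    (h : PP R a b a' b') (v w : List ℕ → ℕ) :
    wc a' (wU S a' (wD b' v)) w ≤ wc a (wU S a v) (wU S b w) := by
  have hpat : a'.pat = a.pat := by
    unfold Stp.pat
    rw [h.pa, h.qa]
  unfold wc
  rw [hpat]
  refine Finset.sup_mono_fun ?_
  intro f hf
  have hpf : a.p <+: f := by
    obtain ⟨k, rfl, _⟩ := mem_pat.1 hf
    exact List.prefix_append _ _
  have hbf : ¬ b.p <+: f := not_prefix_of_par h.h1 h.h2 hpf
  rw [wU_out h.hb hbf (by rw [← h.hab]; exact pat_subset h.ha hf), wU_pat h.ha hf,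
    wU_pat h.ha' (by rw [hpat]; exact hf)]
  exact Nat.add_le_add_right (h.lab hT hL v) _

theorem good_par (hT : IsTRS R) (hL : LeftLinear R) (hS : Sok R S) {a b : Stp F ar}
    (ha : a.OK R) (hb : b.OK R) (hab : a.t = b.t) (h1 : ¬ a.p <+: b.p) (h2 : ¬ b.p <+: a.p) :
    (sc S).Good {x | x.OK R} a b := by
  obtain ⟨hqa, σ, hs, hta⟩ := ha
  obtain ⟨hqb, τ, hs', htb⟩ := hb
  have ha : a.OK R := ⟨hqa, σ, hs, hta⟩
  have hb : b.OK R := ⟨hqb, τ, hs', htb⟩
  have hm : a.tgt.repl b.p (b.q.2.subst τ) = b.tgt.repl a.p (a.q.2.subst σ) := by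
    rw [hta, htb, hab]
    exact repl_comm_par _ _ _ _ _ h1 h2
  have hsb : a.tgt.subAt b.p = some (b.q.1.subst τ) := by
    rw [hta, subAt_repl_par h1 h2, hab]
    exact hs'
  have hsa : b.tgt.subAt a.p = some (a.q.1.subst σ) := by
    rw [htb, subAt_repl_par h2 h1, ← hab]
    exact hs
  have hb' : (⟨a.tgt, b.p, b.q, a.tgt.repl b.p (b.q.2.subst τ)⟩ : Stp F ar).OK R :=
    ⟨hqb, τ, hsb, rfl⟩
  have ha' : (⟨b.tgt, a.p, a.q, a.tgt.repl b.p (b.q.2.subst τ)⟩ : Stp F ar).OK R :=
    ⟨hqa, σ, hsa, hm⟩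
  have P1 : PP R a b ⟨b.tgt, a.p, a.q, a.tgt.repl b.p (b.q.2.subst τ)⟩
      ⟨a.tgt, b.p, b.q, a.tgt.repl b.p (b.q.2.subst τ)⟩ :=
    ⟨ha, hb, ha', hb', hab, h1, h2, rfl, rfl, rfl, rfl, rfl, rfl, rfl, σ, hs, hta, hsa, hm⟩
  have P2 : PP R b a ⟨a.tgt, b.p, b.q, a.tgt.repl b.p (b.q.2.subst τ)⟩
      ⟨b.tgt, a.p, a.q, a.tgt.repl b.p (b.q.2.subst τ)⟩ :=
    ⟨hb, ha, hb', ha', hab.symm, h2, h1, rfl, rfl, rfl, rfl, rfl, rfl, rfl, τ, hs', htb, hsb, rfl⟩
  refine ⟨[(true, ⟨a.tgt, b.p, b.q, a.tgt.repl b.p (b.q.2.subst τ)⟩),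
    (false, ⟨b.tgt, a.p, a.q, a.tgt.repl b.p (b.q.2.subst τ)⟩)], ?_, ?_⟩
  · exact ⟨hb', rfl, ha', rfl, rfl⟩
  · intro v w _ _
    refine ⟨P1.le hT hL v, P2.le hT hL w, Or.inr ⟨_, _, rfl, ?_, P1.cost hT hL v w⟩⟩
    have := P2.cost (S := S) hT hL w v
    have e : ∀ (c : Stp F ar) (x y : List ℕ → ℕ), wc c x y = wc c y x := by
      intro c x y
      unfold wc
      simp only [add_comm]
    rw [e, e b] at this
    exact this

end Pool.Agent.Work.MP_d87e04_lc.SS
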