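import Pool.Agent.Work.MP_d87e04_lc.SS.SMono

/-!
# Module STri (S-M): triangles are good

`good_tr`: word `[(false, z)]`. Let `A = lab S a v`, `B = lab S b w`. `lab S z v ≤ A` (`za`, `reg`).
Left: `wU S z v ≤ wD b (wU S a v)` at `e ∈ ps b.tgt`: by `g1`; if `b.Cre e`, the right side is
`b.pat.sup (wU S a v) ≥ A` (`meet`); if `b.og e ∈ a.pat`, it is `A`; the left side is `≤ lab S z v`
(`wU_le`); otherwise both sides are `cp` of the copies (`b.og e ∈ ps a.t` by `og_mem`), use
`cp_le_cp`. Right: `wD z w ≤ wD a (wU S b w)` at `e ∈ ps a.tgt`: by `g2`; the left side is `≤ B`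
(`wD_le`, `le_lab`), or it is `w (z.og e) ≤ cp (b.cps (a.og e)) w`. Costs: both `wc a ..`, `wc b ..`
are `≥ A + B` (at the point of `meet`), and `wc z (wU S z v) w ≤ A + B`.

`good_tr0`: word `[]`.
-/

set_option autoImplicit false

namespace Pool.Agent.Work.MP_d87e04_lc.SS

open Pool.Agent.Work.MP_d87e04_lc.CF Pool.Agent.Work.MP_d87e04_lc.CG

universe u

variable {F : Type u} {ar : F → ℕ} {R : Set (Rule F ar)} {S : Rule F ar → Set (List ℕ)}

private theorem dm_zero (ca cb : ℕ) :
    Multiset.IsDershowitzMannaLT (0 : Multiset ℕ) {ca, cb} := by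
  refine ⟨0, 0, {ca, cb}, by simp, by simp, by simp, ?_⟩
  intro y hy
  simp at hy

private theorem dm_one {c ca cb : ℕ} (h : c ≤ ca) (h' : c ≤ cb) :
    Multiset.IsDershowitzMannaLT ({c} : Multiset ℕ) {ca, cb} := by
  rcases h.eq_or_lt with rfl | h
  · refine ⟨{c}, 0, {cb}, by simp, by simp, ?_, by simp⟩
    rfl
  · refine ⟨0, {c}, {ca, cb}, by simp, by simp, by simp, ?_⟩
    intro y hy
    rw [Multiset.mem_singleton] at hy
    subst hy
    exact ⟨ca, by simp, h⟩

private theorem le_wc {a : Stp F ar} {v w : List ℕ → ℕ} {f : List ℕ} (hf : f ∈ a.pat) :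
    v f + w f ≤ wc a v w := by
  unfold wc
  exact Finset.le_sup (f := fun f => v f + w f) hf

/-- the values of `D b` on `U a v` -/
private theorem tri_left (hT : IsTRS R) (hL : LeftLinear R) {a b : Stp F ar} (ha : a.OK R)
    (hb : b.OK R) (hab : a.t = b.t) (hm : ∃ f, f ∈ a.pat ∧ f ∈ b.pat) {v : List ℕ → ℕ} {x : ℕ}
    {e : List ℕ} (he : e ∈ ps b.tgt) (hx : x ≤ lab S a v)
    (h : b.Cre e ∨ b.og e ∈ a.pat ∨ x ≤ cp (a.cps (b.og e)) v) : x ≤ wD b (wU S a v) e := by
  unfold wD
  rw [if_pos he]
  split_ifs with h1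
  · obtain ⟨f, hf, hf'⟩ := hm
    refine hx.trans ?_
    rw [← wU_pat (S := S) ha (w := v) hf]
    exact Finset.le_sup (f := wU S a v) hf'
  · by_cases h2 : b.og e ∈ a.pat
    · rw [wU_pat ha h2]
      exact hx
    · rcases h with h | h | h
      · exact absurd h h1
      · exact absurd h h2
      · unfold wU
        rw [if_pos (by rw [hab]; exact (og_mem hT hL hb he h1).1), if_neg h2]
        exact h

theorem good_tr (hT : IsTRS R) (hL : LeftLinear R) (hS : Sok R S) {a b z : Stp F ar}
    (ha : a.OK R) (hb : b.OK R) (hz : z.OK R) (h : Tr S a b z) :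
    (sc S).Good {x | x.OK R} a b := by
  have hle : ∀ v, lab S z v ≤ lab S a v := by
    intro v
    refine lab_le (one_le_lab v) (fun e he => ?_) fun e he hr => ?_
    · rw [h.za] at he
      exact le_lab he
    · rw [h.za] at he
      exact reg_lab he (h.reg e he hr)
  refine ⟨[(false, z)], ⟨hz, h.za, h.zb⟩, fun v w _ _ => ⟨?_, ?_, Or.inl ?_⟩⟩
  · intro e
    show wU S z v e ≤ wD b (wU S a v) e
    by_cases he : e ∈ ps b.tgt
    · refine tri_left hT hL ha hb h.ab h.meet he ((wU_le hT hL hS hz v e).trans (hle v)) ?_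
      rcases h.g1 e he with h1 | h1 | ⟨h1, h2⟩
      · exact Or.inl h1
      · exact Or.inr (Or.inl h1)
      · right
        right
        unfold wU
        rw [if_pos (by rw [h.zb]; exact he), if_neg h1]
        exact cp_le_cp h2 fun _ _ => le_rfl
    · unfold wU
      rw [if_neg (by rw [h.zb]; exact he)]
      exact Nat.zero_le _
  · intro e
    show wD z w e ≤ wD a (wU S b w) e
    have hB : ∀ f ∈ ps z.t, w f ≤ lab S b w := fun f hf => le_lab (by rw [← h.zb]; exact hf)
    by_cases he : e ∈ ps a.tgt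
    · refine tri_left hT hL hb ha h.ab.symm (by
        obtain ⟨f, hf, hf'⟩ := h.meet
        exact ⟨f, hf', hf⟩) he (wD_le hT hL hz hB e) ?_
      rcases h.g2 e he with h1 | h1 | ⟨h1, h2⟩
      · exact Or.inl h1
      · exact Or.inr (Or.inl h1)
      · right
        right
        unfold wD
        rw [if_pos (by rw [h.za]; exact he), if_neg h1]
        exact le_cp h2
    · unfold wD
      rw [if_neg (by rw [h.za]; exact he)]
      exact Nat.zero_le _
  · obtain ⟨f, hf, hf'⟩ := h.meet
    have h1 : wc z (wU S z v) w ≤ lab S a v + lab S b w := by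
      unfold wc
      refine Finset.sup_le fun g hg => Nat.add_le_add ?_ ?_
      · exact (wU_le hT hL hS hz v g).trans (hle v)
      · refine le_lab ?_
        rw [← h.zb]
        exact pat_subset hz hg
    have h2 : lab S a v + lab S b w ≤ wc a (wU S a v) (wU S b w) := by
      have := le_wc (v := wU S a v) (w := wU S b w) hf
      rwa [wU_pat ha hf, wU_pat hb hf'] at this
    have h3 : lab S a v + lab S b w ≤ wc b (wU S a v) (wU S b w) := by
      have := le_wc (v := wU S a v) (w := wU S b w) hf'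
      rwa [wU_pat ha hf, wU_pat hb hf'] at this
    exact dm_one (h1.trans h2) (h1.trans h3)

theorem good_tr0 (hT : IsTRS R) (hL : LeftLinear R) (hS : Sok R S) {a b : Stp F ar}
    (ha : a.OK R) (hb : b.OK R) (h : Tr0 a b) :
    (sc S).Good {x | x.OK R} a b := by
  refine ⟨[], h.ta, fun v w hv hw => ⟨?_, ?_, Or.inl ?_⟩⟩
  · intro e
    show v e ≤ wD b (wU S a v) e
    by_cases he : e ∈ ps b.tgt
    · refine tri_left hT hL ha hb h.ab h.meet he (le_lab (by rw [h.ta]; exact he)) ?_
      rcases h.g1 e he with h1 | h1 | h1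
      · exact Or.inl h1
      · exact Or.inr (Or.inl h1)
      · exact Or.inr (Or.inr (le_cp h1))
    · have h0 : v e = 0 := hv e (by
        show e ∉ ps a.tgt
        rw [h.ta]
        exact he)
      rw [h0]
      exact Nat.zero_le _
  · intro e
    show w e ≤ wD a (wU S b w) e
    by_cases he : e ∈ ps a.tgt
    · refine tri_left hT hL hb ha h.ab.symm (by
        obtain ⟨f, hf, hf'⟩ := h.meet
        exact ⟨f, hf', hf⟩) he (le_lab (by rw [← h.ta]; exact he)) ?_
      rcases h.g2 e he with h1 | h1 | h1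
      · exact Or.inl h1
      · exact Or.inr (Or.inl h1)
      · exact Or.inr (Or.inr (le_cp h1))
    · have h0 : w e = 0 := hw e (by
        show e ∉ ps b.tgt
        rw [← h.ta]
        exact he)
      rw [h0]
      exact Nat.zero_le _
  · exact dm_zero _ _

end Pool.Agent.Work.MP_d87e04_lc.SS
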