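import Pool.Agent.Work.MP_d87e04_lc.SS.SWord
import Pool.Agent.Work.MP_d87e04_lc.SS.SPar
import Pool.Agent.Work.MP_d87e04_lc.SS.STri
import Pool.Agent.Work.MP_d87e04_lc.SS.SNest
import Pool.Agent.Work.MP_d87e04_lc.SS.SGen
import Pool.Agent.Work.MP_d87e04_lc.SS.SGS
import Pool.Agent.Work.MP_d87e04_lc.SS.SNG

/-!
# Module SMain (S-M): assembly

Peaks: `pos_cases`; parallel: `good_par`; nested: `good_nest` (and `good_symm`); overlap: `exists_gen`,
`CondX`, `ok_ctx`, `gs_inner`, `gs_outer`, `frame`, `frame'`, `frame0`, `good_tr`, `good_tr0`,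
`ok_inst`. Then `confluent_of_good` and `exists_stp`, `step_of_ok`.
-/

set_option autoImplicit false

namespace Pool.Agent.Work.MP_d87e04_lc.SS

open Pool.Agent.Work.MP_d87e04_lc.CF Pool.Agent.Work.MP_d87e04_lc.CG Relation

universe u

variable {F : Type u} {ar : F → ℕ} {R : Set (Rule F ar)}

/-- An overlap is good. -/
theorem good_ov (hT : IsTRS R) (hL : LeftLinear R) {𝒢 : Set (Tm F ar)}
    (hX : CondX R 𝒢) {a b : Stp F ar}
    (ha : a.OK R) (hb : b.OK R) (hab : a.t = b.t) {p : List ℕ} {u : Tm F ar}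
    (hp : a.p = b.p ++ p) (hu : b.q.1.subAt p = some u) (hnv : ∀ x, u ≠ Tm.var x) :
    (sc fun q : Rule F ar => {v | GS 𝒢 q.2 v}).Good {x | x.OK R} a b := by
  have hS : Sok R fun q : Rule F ar => {u | GS 𝒢 q.2 u} := sok_gs
  obtain ⟨a₀, b₀, δ, σ, ψ, hG, hia, hib, hm, h1, h2, h3⟩ := exists_gen hT hL ha hb hab hp hu hnv
  have hap : a₀.p = a.p := by rw [← hia]; rfl
  have hbp : b₀.p = b.p := by rw [← hib]; rfl
  have haq : a₀.q = a.q := by rw [← hia]; rfl
  have hbq : b₀.q = b.q := by rw [← hib]; rfl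
  rcases hX b.q hb.1 a.q ha.1 p u σ ψ hm with h | ⟨z, hz, hzt, hzg, hM⟩ | ⟨z, hz, hzt, hzg, hM⟩
  · have h0 : a₀.tgt = b₀.tgt := by rw [h2, h3, h]
    have := frame0 hG h0 δ
    rw [hia, hib] at this
    exact good_tr0 hT hL hS ha hb this
  · set Z : Stp F ar := ⟨b₀.t.repl b.p z.t, b.p ++ z.p, z.q, b₀.t.repl b.p z.tgt⟩ with hZ
    have hZok : Z.OK R := ok_ctx hz h1
    have hZt : Z.t = b₀.tgt := by rw [hZ, h2, ← hzt]
    have hZg : Z.tgt = a₀.tgt := by rw [hZ, h3, ← hzg]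
    have hZp : b₀.p <+: Z.p := by rw [hbp]; exact List.prefix_append _ _
    have hr : ∀ u ∈ (fun q : Rule F ar => {v | GS 𝒢 q.2 v}) Z.q,
        a₀.Reg (fun q : Rule F ar => {v | GS 𝒢 q.2 v}) (Z.p ++ u) := by
      intro v hv
      obtain ⟨v', hv', hpre⟩ := gs_inner hT hL hb.1 ha.1 hm hz hzg hM hv
      refine ⟨v', by rw [haq]; exact hv', ?_⟩
      rw [hap, hp, List.append_assoc]
      change b.p ++ (p ++ v') <+: (b.p ++ z.p) ++ v
      rw [List.append_assoc]
      exact (List.prefix_append_right_inj _).2 hpre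
    have := frame (S := fun q : Rule F ar => {v | GS 𝒢 q.2 v}) hG hZok hZt hZg hZp hr δ
    rw [hia, hib] at this
    exact good_tr hT hL hS ha hb (ok_inst hZok δ) this
  · set Z : Stp F ar := ⟨b₀.t.repl b.p z.t, b.p ++ z.p, z.q, b₀.t.repl b.p z.tgt⟩ with hZ
    have hZok : Z.OK R := ok_ctx hz h1
    have hZt : Z.t = a₀.tgt := by rw [hZ, h3, ← hzt]
    have hZg : Z.tgt = b₀.tgt := by rw [hZ, h2, ← hzg]
    have hZp : b₀.p <+: Z.p := by rw [hbp]; exact List.prefix_append _ _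
    have hr : ∀ u ∈ (fun q : Rule F ar => {v | GS 𝒢 q.2 v}) Z.q,
        b₀.Reg (fun q : Rule F ar => {v | GS 𝒢 q.2 v}) (Z.p ++ u) := by
      intro v hv
      obtain ⟨v', hv', hpre⟩ := gs_outer hT hL hb.1 ha.1 hm hz hzg hM hv
      refine ⟨v', by rw [hbq]; exact hv', ?_⟩
      rw [hbp]
      change b.p ++ v' <+: (b.p ++ z.p) ++ v
      rw [List.append_assoc]
      exact (List.prefix_append_right_inj _).2 hpre
    have := frame' (S := fun q : Rule F ar => {v | GS 𝒢 q.2 v}) hG hZok hZt hZg hZp hr δ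
    rw [hia, hib] at this
    exact good_symm (mon_sc _) (good_tr hT hL hS hb ha (ok_inst hZok δ) this)

theorem confluent_of_condX (hT : IsTRS R) (hL : LeftLinear R) {𝒢 : Set (Tm F ar)}
    (hX : CondX R 𝒢) : Confluent R := by
  have hS : Sok R fun q : Rule F ar => {u | GS 𝒢 q.2 u} := sok_gs
  have key : ∀ a b : Stp F ar, a.OK R → b.OK R → a.t = b.t → b.p <+: a.p →
      (sc fun q : Rule F ar => {v | GS 𝒢 q.2 v}).Good {x | x.OK R} a b := by
    intro a b ha hb hab hpre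
    rcases pos_cases ha hb hab hpre with ⟨p, u, hp, hu, hnv⟩ | ⟨k, n, x, hk, hp⟩
    · exact good_ov hT hL hX ha hb hab hp hu hnv
    · exact good_nest hT hL hS ha hb hab hk hp
  have hP : ∀ a ∈ {x : Stp F ar | x.OK R}, ∀ b ∈ {x : Stp F ar | x.OK R},
      (sc fun q : Rule F ar => {v | GS 𝒢 q.2 v}).src a =
        (sc fun q : Rule F ar => {v | GS 𝒢 q.2 v}).src b →
      (sc fun q : Rule F ar => {v | GS 𝒢 q.2 v}).Good {x | x.OK R} a b := by
    intro a ha b hb hab
    by_cases h1 : b.p <+: a.p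
    · exact key a b ha hb hab h1
    · by_cases h2 : a.p <+: b.p
      · exact good_symm (mon_sc _) (key b a hb ha hab.symm h2)
      · exact good_par hT hL hS ha hb hab h2 h1
  have toK : ∀ {x y : Tm F ar}, Steps R x y →
      ReflTransGen ((sc fun q : Rule F ar => {v | GS 𝒢 q.2 v}).Rel {x | x.OK R}) x y := by
    intro x y h
    refine ReflTransGen.mono ?_ _ _ h
    intro x y hxy
    obtain ⟨a, ha, h1, h2⟩ := exists_stp hxy
    exact ⟨a, ha, h1, h2⟩
  have ofK : ∀ {x y : Tm F ar},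
      ReflTransGen ((sc fun q : Rule F ar => {v | GS 𝒢 q.2 v}).Rel {x | x.OK R}) x y →
      Steps R x y := by
    intro x y h
    refine ReflTransGen.mono ?_ _ _ h
    rintro x y ⟨a, ha, h1, h2⟩
    have := step_of_ok ha
    rw [show a.t = x from h1, show a.tgt = y from h2] at this
    exact this
  intro x y z h1 h2
  obtain ⟨e, he1, he2⟩ := confluent_of_good (mon_sc _) hP (toK h1) (toK h2)
  exact ⟨e, ofK he1, ofK he2⟩

end Pool.Agent.Work.MP_d87e04_lc.SS
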