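import Pool.Agent.Work.MP_d87e04_lc.SS.SStep
import Pool.Agent.Work.MP_d87e04_lc.SS.SFrame
import Pool.Agent.Work.MP_d87e04_lc.CG.TMain

/-!
# Module SMgu (M): from critical pairs to most general instances

Given `Most q q' p u σ ψ` with `q, q' ∈ R`. Either `p = []` and `q'`, `q` are variants: then
`q.2 σ = (q.1 σ).repl [] (q'.2 ψ)` (see `overlapQ` in `CF/Ov.lean`); or there are `ρ₁ ρ₂ θ χ` with
`Overlap R q'.1 q'.2 q.1 q.2 ρ₁ ρ₂ p θ`, `((q.1.ren ρ₂).subst θ).subst χ = q.1.subst σ`, and the same for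
`q.2`, `q'.1`, `q'.2` (`exists_overlap` in `CG/TMain.lean`, and the proof of `overlapQ`). `χ v` is a
variable for every variable `v` of `(q.1.ren ρ₂).subst θ`: at its position `K`, `χ v` stands in
`q.1.subst σ`; if it is not a variable, `K ∈ NN q.1 q'.1 p` (`Most.np`), so a symbol stands at `K` in
`(q.1.ren ρ₂).subst θ`. Hence ground subterms of `T.subst χ` are ground subterms of `T` at the same
positions, for the terms `T` in question.
-/

set_option autoImplicit false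

namespace Pool.Agent.Work.MP_d87e04_lc.SS

open Pool.Agent.Work.MP_d87e04_lc.CF Pool.Agent.Work.MP_d87e04_lc.CG

universe u

variable {F : Type u} {ar : F → ℕ} {R : Set (Rule F ar)}

private theorem nilM (t : Tm F ar) : t.subAt [] = some t := by
  cases t <;> rfl

private theorem consM {f : F} {a : Fin (ar f) → Tm F ar} {i : ℕ} {p : List ℕ}
    {s : Tm F ar} : (Tm.app f a).subAt (i :: p) = some s ↔
      ∃ h : i < ar f, (a ⟨i, h⟩).subAt p = some s := by
  simp only [Tm.subAt]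
  constructor
  · intro h
    split at h
    · rename_i hi
      exact ⟨hi, h⟩
    · exact absurd h (by simp)
  · rintro ⟨h, hs⟩
    rw [dif_pos h]
    exact hs

/-- The data of an overlap from an instance. -/
private theorem mgu_data (hL : LeftLinear R) {q q' : Rule F ar}
    (hq : q ∈ R) (h3 : q' ∈ R) {p : List ℕ} {u : Tm F ar} {σ ψ : ℕ → Tm F ar}
    (h1 : q.1.subAt p = some u) (h2 : ∀ x, u ≠ Tm.var x) (h4 : u.subst σ = q'.1.subst ψ)
    (hvar : ¬ (p = [] ∧ Variant q' q)) :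
    ∃ (ρ₁ ρ₂ : ℕ → ℕ) (θ χ : ℕ → Tm F ar), Overlap R q'.1 q'.2 q.1 q.2 ρ₁ ρ₂ p θ ∧
      (∀ t : Tm F ar, ((t.ren ρ₂).subst θ).subst χ = t.subst σ) ∧
      (∀ t : Tm F ar, ((t.ren ρ₁).subst θ).subst χ = t.subst ψ) ∧
      (q.1.ren ρ₂).subAt p = some (u.ren ρ₂) ∧
      (u.ren ρ₂).subst θ = (q'.1.ren ρ₁).subst θ := by
  let ρ₁ : ℕ → ℕ := fun x => 2 * x + 1
  let ρ₂ : ℕ → ℕ := fun x => 2 * x
  have i1 : Function.Injective ρ₁ := fun x y h => by simp only [ρ₁] at h; omega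
  have i2 : Function.Injective ρ₂ := fun x y h => by simp only [ρ₂] at h; omega
  have i12 : ∀ x y, ρ₁ x ≠ ρ₂ y := fun x y h => by simp only [ρ₁, ρ₂] at h; omega
  let χ : ℕ → Tm F ar := fun x => if x % 2 = 0 then σ (x / 2) else ψ (x / 2)
  have hχ2 : ∀ t : Tm F ar, (t.ren ρ₂).subst χ = t.subst σ := by
    intro t
    rw [Tm.ren, Tm.subst_subst]
    refine Tm.subst_congr t fun x _ => ?_
    simp [χ, ρ₂]
  have hχ1 : ∀ t : Tm F ar, (t.ren ρ₁).subst χ = t.subst ψ := by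
    intro t
    rw [Tm.ren, Tm.subst_subst]
    refine Tm.subst_congr t fun x _ => ?_
    have : (2 * x + 1) / 2 = x := by omega
    simp [χ, ρ₁, this]
  have hu : (q.1.ren ρ₂).subAt p = some (u.ren ρ₂) := Tm.subAt_subst _ _ _ _ h1
  have hlu : u.Linear := fun x => (Tm.subAt_linear _ _ _ h1 x).trans (hL q hq x)
  obtain ⟨θ, hθ, hθ'⟩ := Tm.exists_mgu (u.ren ρ₂) (q'.1.ren ρ₁) (hlu.ren i2)
    (Tm.Linear.ren i1 (hL q' h3)) (by
      intro x hx hx'
      obtain ⟨a, ha, _⟩ := Tm.occ_ren_pos _ hx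
      obtain ⟨b, hb, _⟩ := Tm.occ_ren_pos _ hx'
      exact i12 b a (hb.trans ha.symm)) ⟨χ, by rw [hχ2, hχ1, h4]⟩
  have hun : (u.ren ρ₂).subst χ = (q'.1.ren ρ₁).subst χ := by rw [hχ2, hχ1, h4]
  have hfac : ∀ t : Tm F ar, (t.subst θ).subst χ = t.subst χ := by
    intro t
    rw [Tm.subst_subst]
    exact Tm.subst_congr t fun x _ => hθ' χ hun x
  have hnv : ∀ x, u.ren ρ₂ ≠ Tm.var x := by
    intro x
    cases u with
    | var z => exact (h2 z rfl).elim
    | app f a => simp [Tm.ren]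
  refine ⟨ρ₁, ρ₂, θ, χ, ⟨h3, hq, i1, i2, i12, ⟨u.ren ρ₂, hu, hnv,
        ⟨hθ, fun τ hτ => ⟨τ, fun x => (hθ' τ hτ x).symm⟩⟩⟩,
        fun hp hv => hvar ⟨hp, hv⟩⟩, fun t => ?_, fun t => ?_, hu, hθ⟩
  · rw [hfac, hχ2]
  · rw [hfac, hχ1]

/-- The case of variants. -/
private theorem variant_eq (hT : IsTRS R) {q q' : Rule F ar} (h3 : q' ∈ R) {p : List ℕ}
    {u : Tm F ar} {σ ψ : ℕ → Tm F ar}
    (h1 : q.1.subAt p = some u) (h4 : u.subst σ = q'.1.subst ψ)
    (hvar : p = [] ∧ Variant q' q) :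
    q.2.subst σ = (q.1.subst σ).repl p (q'.2.subst ψ) := by
  obtain ⟨hp, π, hπ1, hπ2⟩ := hvar
  subst hp
  rw [nilM] at h1
  have hu1 : u = q.1 := (Option.some.inj h1).symm
  rw [hu1, ← hπ1, Tm.ren, Tm.subst_subst] at h4
  have h6 := Tm.subst_inj _ h4
  have h7 : (q.1.subst σ).repl [] (q'.2.subst ψ) = q'.2.subst ψ := by
    cases q.1.subst σ <;> rfl
  have h8 : q.2.subst σ = q'.2.subst ψ := by
    rw [← hπ2, Tm.ren, Tm.subst_subst]
    exact Tm.subst_congr _ fun x hx => h6 x ((hT q' h3).2 x hx)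
  rw [h7, h8]

/-- A ground term is not changed by a substitution. -/
private theorem subst_ground {T : Tm F ar} {χ : ℕ → Tm F ar} (h : ∀ x, T.occ x = 0) :
    T.subst χ = T := by
  induction T with
  | var y =>
    have := h y
    simp [Tm.occ] at this
  | app f a ih =>
    rw [Tm.subst_app]
    congr 1
    funext i
    refine ih i fun x => ?_
    by_contra hc
    have h1 := Tm.occ_arg (f := f) (a := a) (i := i) (x := x) (Nat.pos_of_ne_zero hc)
    rw [h x] at h1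
    exact absurd h1 (lt_irrefl 0)

/-- Variables are not lost. -/
private theorem occ_subst_pos {T : Tm F ar} {χ : ℕ → Tm F ar} {v w : ℕ} (h : 0 < T.occ v)
    (hw : 0 < (χ v).occ w) : 0 < (T.subst χ).occ w := by
  induction T with
  | var y =>
    simp only [Tm.occ] at h
    split at h
    · rename_i hy
      subst hy
      exact hw
    · exact absurd h (lt_irrefl 0)
  | app f a ih =>
    obtain ⟨i, hi⟩ := Tm.occ_app h
    rw [Tm.subst_app]
    exact Tm.occ_arg (i := i) (ih i hi)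

private theorem ground_of_subst {T : Tm F ar} {χ : ℕ → Tm F ar}
    (hχ : ∀ v, 0 < T.occ v → ∃ w, χ v = Tm.var w) (h : ∀ x, (T.subst χ).occ x = 0) :
    ∀ x, T.occ x = 0 := by
  intro v
  by_contra hc
  obtain ⟨w, hw⟩ := hχ v (Nat.pos_of_ne_zero hc)
  have h1 : 0 < (T.subst χ).occ w :=
    occ_subst_pos (Nat.pos_of_ne_zero hc) (by rw [hw]; simp [Tm.occ])
  rw [h w] at h1
  exact absurd h1 (lt_irrefl 0)

/-- Ground subterms of `T.subst χ` are ground subterms of `T`. -/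
private theorem ground_sub {T s : Tm F ar} {χ : ℕ → Tm F ar} {k : List ℕ}
    (hχ : ∀ v, 0 < T.occ v → ∃ w, χ v = Tm.var w) (hs : ∀ x, s.occ x = 0)
    (h : (T.subst χ).subAt k = some s) : T.subAt k = some s := by
  induction T generalizing k with
  | var v =>
    obtain ⟨w, hw⟩ := hχ v (by simp [Tm.occ])
    rw [Tm.subst_var, hw] at h
    cases k with
    | nil =>
      rw [nilM] at h
      have h1 := hs w
      rw [← Option.some.inj h] at h1
      simp [Tm.occ] at h1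
    | cons i k => exact absurd h (by simp [Tm.subAt])
  | app f a ih =>
    cases k with
    | nil =>
      rw [nilM] at h
      have h1 : (Tm.app f a).subst χ = s := Option.some.inj h
      have h2 : ∀ x, (Tm.app f a).occ x = 0 := ground_of_subst hχ (by rw [h1]; exact hs)
      rw [nilM, ← h1, subst_ground h2]
    | cons i k =>
      rw [Tm.subst_app] at h
      obtain ⟨hi, h⟩ := consM.1 h
      exact consM.2 ⟨hi, ih ⟨i, hi⟩ (fun v hv => hχ v (Tm.occ_arg hv)) h⟩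

private theorem occ_repl {t s : Tm F ar} {p : List ℕ} {x : ℕ} (h : 0 < (t.repl p s).occ x) :
    0 < t.occ x ∨ 0 < s.occ x := by
  induction t generalizing p with
  | var y =>
    cases p with
    | nil =>
      have h1 : (Tm.var y : Tm F ar).repl [] s = s := rfl
      rw [h1] at h
      exact Or.inr h
    | cons i p => exact Or.inl h
  | app f a ih =>
    cases p with
    | nil =>
      have h1 : (Tm.app f a).repl [] s = s := rfl
      rw [h1] at h
      exact Or.inr h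
    | cons i p =>
      simp only [Tm.repl] at h
      split at h
      · rename_i hi
        obtain ⟨j, hj⟩ := Tm.occ_app h
        by_cases hji : j = ⟨i, hi⟩
        · subst hji
          rw [Function.update_self] at hj
          rcases ih ⟨i, hi⟩ hj with h1 | h1
          · exact Or.inl (Tm.occ_arg h1)
          · exact Or.inr h1
        · rw [Function.update_of_ne hji] at hj
          exact Or.inl (Tm.occ_arg hj)
      · exact Or.inl h

private theorem occ_subst_cases {T : Tm F ar} {χ : ℕ → Tm F ar} {w : ℕ}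
    (h : 0 < (T.subst χ).occ w) : ∃ v, 0 < T.occ v ∧ 0 < (χ v).occ w := by
  induction T with
  | var y => exact ⟨y, by simp [Tm.occ], h⟩
  | app f a ih =>
    rw [Tm.subst_app] at h
    obtain ⟨i, hi⟩ := Tm.occ_app h
    obtain ⟨v, hv, hw⟩ := ih i hi
    exact ⟨v, Tm.occ_arg hv, hw⟩

/-- Mild steps and instances. -/
private theorem mild_inst {𝒢 : Set (Tm F ar)} (h𝒢 : ∀ s ∈ 𝒢, ∀ x, s.occ x = 0)
    {z : Stp F ar} (hz : z.OK R) {p : List ℕ} {r : Tm F ar} (h : Mild 𝒢 z p r)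
    {χ : ℕ → Tm F ar} (hχ : ∀ v, 0 < z.tgt.occ v → ∃ w, χ v = Tm.var w) :
    Mild 𝒢 (z.inst χ) p r := by
  obtain ⟨h1, h2⟩ := h
  refine ⟨?_, ?_⟩
  · intro k k' x s hkk hk hk' hs
    obtain ⟨_, τ, h3, h4⟩ := hz
    have hk0 : z.q.2.subAt k = some (Tm.var x) := hk
    have h5 : z.tgt.subAt (z.p ++ k) = some (τ x) := by
      rw [h4, subAt_repl_below h3]
      exact Tm.subAt_subst τ _ _ _ hk0
    have h6 : (z.tgt.subst χ).subAt (z.p ++ k) = some ((τ x).subst χ) :=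
      Tm.subAt_subst χ _ _ _ h5
    have h7 : (z.tgt.subst χ).subAt (z.p ++ k) = some s := hs
    have h8 : s = (τ x).subst χ := Option.some.inj (h7.symm.trans h6)
    rcases h1 k k' x (τ x) hkk hk hk' h5 with ⟨y, hy⟩ | h9
    · left
      have hy' : 0 < z.tgt.occ y := lt_of_lt_of_le hy (Tm.subAt_linear _ _ _ h5 y)
      obtain ⟨w, hw⟩ := hχ y hy'
      refine ⟨w, ?_⟩
      rw [h8]
      exact occ_subst_pos hy (by rw [hw]; simp [Tm.occ])
    · right
      rw [h8, subst_ground (h𝒢 _ h9)]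
      exact h9
  · intro k k' s hs hkk hk hk' h3 h4
    exact h2 k k' s hs hkk hk hk' (ground_sub hχ (h𝒢 s hs) h3) (ground_sub hχ (h𝒢 s hs) h4)

/-- Transfer from critical pairs to most general instances, for a property of closing steps which
is preserved by renamings. -/
theorem most_of_mgu (hT : IsTRS R) (hL : LeftLinear R)
    {Φ : Stp F ar → List ℕ → Tm F ar → Prop}
    (hΦ : ∀ (z : Stp F ar) (p : List ℕ) (r : Tm F ar) (χ : ℕ → Tm F ar), z.OK R → Φ z p r →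
      (∀ v, 0 < z.tgt.occ v → ∃ w, χ v = Tm.var w) → Φ (z.inst χ) p r)
    (h : ∀ l r g d ρ₁ ρ₂ p θ, Overlap R l r g d ρ₁ ρ₂ p θ →
      (d.ren ρ₂).subst θ = ((g.ren ρ₂).subst θ).repl p ((r.ren ρ₁).subst θ) ∨
      (∃ z : Stp F ar, z.OK R ∧ z.t = (d.ren ρ₂).subst θ ∧
        z.tgt = ((g.ren ρ₂).subst θ).repl p ((r.ren ρ₁).subst θ) ∧ Φ z p r) ∨
      ∃ z : Stp F ar, z.OK R ∧ z.t = ((g.ren ρ₂).subst θ).repl p ((r.ren ρ₁).subst θ) ∧
        z.tgt = (d.ren ρ₂).subst θ ∧ Φ z [] d) :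
    ∀ q ∈ R, ∀ q' ∈ R, ∀ p u σ ψ, Most q q' p u σ ψ →
      q.2.subst σ = (q.1.subst σ).repl p (q'.2.subst ψ) ∨
      (∃ z : Stp F ar, z.OK R ∧ z.t = q.2.subst σ ∧
        z.tgt = (q.1.subst σ).repl p (q'.2.subst ψ) ∧ Φ z p q'.2) ∨
      ∃ z : Stp F ar, z.OK R ∧ z.t = (q.1.subst σ).repl p (q'.2.subst ψ) ∧
        z.tgt = q.2.subst σ ∧ Φ z [] q.2 := by
  intro q hq q' hq' p u σ ψ hm
  by_cases hvar : p = [] ∧ Variant q' q
  · exact Or.inl (variant_eq hT hq' hm.at_ hm.eq hvar)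
  · obtain ⟨ρ₁, ρ₂, θ, χ, hov, e2, e1, hu, hθ⟩ := mgu_data hL hq hq' hm.at_ hm.nv hm.eq hvar
    -- the positions
    have hGp : ((q.1.ren ρ₂).subst θ).subAt p = some ((q'.1.ren ρ₁).subst θ) := by
      rw [← hθ]
      exact Tm.subAt_subst θ _ _ _ hu
    have hχ : ∀ v, 0 < ((q.1.ren ρ₂).subst θ).occ v → ∃ w, χ v = Tm.var w := by
      intro v hv
      have hK := vpos_spec hv
      set K := vpos ((q.1.ren ρ₂).subst θ) v with hKdef
      have hK' : (q.1.subst σ).subAt K = some (χ v) := by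
        rw [← e2]
        exact Tm.subAt_subst χ _ _ _ hK
      cases hc : χ v with
      | var w => exact ⟨w, rfl⟩
      | app f a =>
        exfalso
        rw [hc] at hK'
        rcases hm.np K ⟨f, a, hK'⟩ with ⟨g, b, hg⟩ | ⟨m, g, b, hKm, hg⟩
        · have h5 := Tm.subAt_subst θ _ _ _ (Tm.subAt_subst (fun x => Tm.var (ρ₂ x)) _ _ _ hg)
          have h6 : ((q.1.ren ρ₂).subst θ).subAt K =
            some (((Tm.app g b).subst fun x => Tm.var (ρ₂ x)).subst θ) := h5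
          rw [hK] at h6
          simp [Tm.subst_app] at h6
        · have h5 := Tm.subAt_subst θ _ _ _ (Tm.subAt_subst (fun x => Tm.var (ρ₁ x)) _ _ _ hg)
          have h6 : ((q'.1.ren ρ₁).subst θ).subAt m =
            some (((Tm.app g b).subst fun x => Tm.var (ρ₁ x)).subst θ) := h5
          rw [hKm, CF.subAt_append hGp, h6] at hK
          simp [Tm.subst_app] at hK
    have hχ2 : ∀ v, 0 < ((q.2.ren ρ₂).subst θ).occ v → ∃ w, χ v = Tm.var w := by
      intro v hv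
      obtain ⟨y, hy, hyv⟩ := occ_subst_cases hv
      obtain ⟨x, hx, hx'⟩ := Tm.occ_ren_pos _ hy
      have h5 : 0 < (q.1.ren ρ₂).occ y := by
        rw [← hx, Tm.occ_ren_inj hov.2.2.2.1]
        exact (hT q hq).2 x hx'
      exact hχ v (occ_subst_pos h5 hyv)
    have hχ1 : ∀ v, 0 < ((q'.2.ren ρ₁).subst θ).occ v → ∃ w, χ v = Tm.var w := by
      intro v hv
      obtain ⟨y, hy, hyv⟩ := occ_subst_cases hv
      obtain ⟨x, hx, hx'⟩ := Tm.occ_ren_pos _ hy
      have h5 : 0 < (q'.1.ren ρ₁).occ y := by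
        rw [← hx, Tm.occ_ren_inj hov.2.2.1]
        exact (hT q' hq').2 x hx'
      have h6 : 0 < ((q'.1.ren ρ₁).subst θ).occ v := occ_subst_pos h5 hyv
      exact hχ v (lt_of_lt_of_le h6 (Tm.subAt_linear _ _ _ hGp v))
    have hχ3 : ∀ v, 0 < (((q.1.ren ρ₂).subst θ).repl p ((q'.2.ren ρ₁).subst θ)).occ v →
        ∃ w, χ v = Tm.var w := by
      intro v hv
      rcases occ_repl hv with h5 | h5
      · exact hχ v h5
      · exact hχ1 v h5
    have ht : (((q.1.ren ρ₂).subst θ).repl p ((q'.2.ren ρ₁).subst θ)).subst χ =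
        (q.1.subst σ).repl p (q'.2.subst ψ) := by
      rw [Tm.repl_subst χ _ _ p _ hGp, e2, e1]
    have hs : ((q.2.ren ρ₂).subst θ).subst χ = q.2.subst σ := e2 _
    rcases h _ _ _ _ _ _ _ _ hov with h5 | ⟨z, hz, hz1, hz2, hz3⟩ | ⟨z, hz, hz1, hz2, hz3⟩
    · left
      rw [← hs, ← ht, h5]
    · right; left
      refine ⟨z.inst χ, ok_inst hz χ, ?_, ?_, ?_⟩
      · rw [← hs, ← hz1]; rfl
      · rw [← ht, ← hz2]; rfl
      · exact hΦ z _ _ χ hz hz3 (by rw [hz2]; exact hχ3)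
    · right; right
      refine ⟨z.inst χ, ok_inst hz χ, ?_, ?_, ?_⟩
      · rw [← ht, ← hz1]; rfl
      · rw [← hs, ← hz2]; rfl
      · exact hΦ z _ _ χ hz hz3 (by rw [hz2]; exact hχ2)

theorem condX_of_condM (hT : IsTRS R) (hL : LeftLinear R) {𝒢 : Set (Tm F ar)}
    (h𝒢 : ∀ s ∈ 𝒢, ∀ x, s.occ x = 0) (h : CondM R 𝒢) : CondX R 𝒢 :=
  most_of_mgu hT hL (Φ := Mild 𝒢) (fun _ _ _ _ hz hM hχ => mild_inst h𝒢 hz hM hχ) h

/-- Part (i) of `Mild` alone is preserved by renamings, too. -/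
theorem mildI_inst {𝒢 : Set (Tm F ar)} (h𝒢 : ∀ s ∈ 𝒢, ∀ x, s.occ x = 0)
    {z : Stp F ar} (hz : z.OK R)
    (h1 : ∀ k k' x s, k ≠ k' → z.q.2.subAt k = some (Tm.var x) →
      z.q.2.subAt k' = some (Tm.var x) → z.tgt.subAt (z.p ++ k) = some s →
      (∃ y, 0 < s.occ y) ∨ s ∈ 𝒢)
    {χ : ℕ → Tm F ar} (hχ : ∀ v, 0 < z.tgt.occ v → ∃ w, χ v = Tm.var w) :
    ∀ k k' x s, k ≠ k' → (z.inst χ).q.2.subAt k = some (Tm.var x) →
      (z.inst χ).q.2.subAt k' = some (Tm.var x) →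
      (z.inst χ).tgt.subAt ((z.inst χ).p ++ k) = some s → (∃ y, 0 < s.occ y) ∨ s ∈ 𝒢 := by
  intro k k' x s hkk hk hk' hs
  obtain ⟨_, τ, h3, h4⟩ := hz
  have hk0 : z.q.2.subAt k = some (Tm.var x) := hk
  have h5 : z.tgt.subAt (z.p ++ k) = some (τ x) := by
    rw [h4, subAt_repl_below h3]
    exact Tm.subAt_subst τ _ _ _ hk0
  have h6 : (z.tgt.subst χ).subAt (z.p ++ k) = some ((τ x).subst χ) :=
    Tm.subAt_subst χ _ _ _ h5
  have h7 : (z.tgt.subst χ).subAt (z.p ++ k) = some s := hs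
  have h8 : s = (τ x).subst χ := Option.some.inj (h7.symm.trans h6)
  rcases h1 k k' x (τ x) hkk hk hk' h5 with ⟨y, hy⟩ | h9
  · left
    have hy' : 0 < z.tgt.occ y := lt_of_lt_of_le hy (Tm.subAt_linear _ _ _ h5 y)
    obtain ⟨w, hw⟩ := hχ y hy'
    refine ⟨w, ?_⟩
    rw [h8]
    exact occ_subst_pos hy (by rw [hw]; simp [Tm.occ])
  · right
    rw [h8, subst_ground (h𝒢 _ h9)]
    exact h9

/-- Condition (c) for the most general instances. -/
theorem condC_most (hT : IsTRS R) (hL : LeftLinear R) (h : CondC R) {q q' : Rule F ar}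
    (hq : q ∈ R) (hq' : q' ∈ R) {p : List ℕ} {u : Tm F ar} {σ ψ : ℕ → Tm F ar}
    (hm : Most q q' p u σ ψ) :
    q.2.subst σ = (q.1.subst σ).repl p (q'.2.subst ψ) ∨
      Step R (q.2.subst σ) ((q.1.subst σ).repl p (q'.2.subst ψ)) ∨
      Step R ((q.1.subst σ).repl p (q'.2.subst ψ)) (q.2.subst σ) := by
  by_cases hvar : p = [] ∧ Variant q' q
  · exact Or.inl (variant_eq hT hq' hm.at_ hm.eq hvar)
  · obtain ⟨ρ₁, ρ₂, θ, χ, hov, e2, e1, hu, hθ⟩ := mgu_data hL hq hq' hm.at_ hm.nv hm.eq hvar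
    have hGp : ((q.1.ren ρ₂).subst θ).subAt p = some ((q'.1.ren ρ₁).subst θ) := by
      rw [← hθ]
      exact Tm.subAt_subst θ _ _ _ hu
    have ht : (((q.1.ren ρ₂).subst θ).repl p ((q'.2.ren ρ₁).subst θ)).subst χ =
        (q.1.subst σ).repl p (q'.2.subst ψ) := by
      rw [Tm.repl_subst χ _ _ p _ hGp, e2, e1]
    have hs : ((q.2.ren ρ₂).subst θ).subst χ = q.2.subst σ := e2 _
    obtain ⟨o1, o2, o3, o4, o5, ⟨u', o6, o7, o8⟩, o9⟩ := hov
    have hcp : CriticalPair R (((q.1.ren ρ₂).subst θ).repl p ((q'.2.ren ρ₁).subst θ))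
        ((q.2.ren ρ₂).subst θ) :=
      ⟨q'.1, q'.2, q.1, q.2, o1, o2, ρ₁, ρ₂, o3, o4, o5, p, u', θ, o6, o7, o8, o9, rfl, rfl⟩
    rcases h _ _ hcp with (h5 | h5) | (h5 | h5)
    · left
      rw [← hs, ← ht, h5]
    · right; left
      have := h5.subst χ
      rwa [ht, hs] at this
    · left
      rw [← hs, ← ht, h5]
    · right; right
      have := h5.subst χ
      rwa [ht, hs] at this

end Pool.Agent.Work.MP_d87e04_lc.SS
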