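import Pool.Agent.Work.MP_d87e04_lc.SS.SPos

/-!
# Module SMono (S-M): monotonicity, and bounds by the maximum and by the label
-/

set_option autoImplicit false

namespace Pool.Agent.Work.MP_d87e04_lc.SS

open Pool.Agent.Work.MP_d87e04_lc.CF Pool.Agent.Work.MP_d87e04_lc.CG

universe u

variable {F : Type u} {ar : F → ℕ} {R : Set (Rule F ar)} {S : Rule F ar → Set (List ℕ)}

theorem cp_le_cp {K K' : Finset (List ℕ)} {w w' : List ℕ → ℕ} (h : K ⊆ K')
    (hw : ∀ e ∈ K, w e ≤ w' e) : cp K w ≤ cp K' w' := by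
  have h1 : K.sup w ≤ K'.sup w' := Finset.sup_le fun e he =>
    (hw e he).trans (Finset.le_sup (f := w') (h he))
  have h2 := Finset.card_le_card h
  unfold cp
  split_ifs <;> omega

theorem cp_singleton (f : List ℕ) (w : List ℕ → ℕ) : cp {f} w = w f := by
  simp [cp]

theorem le_cp {K : Finset (List ℕ)} {w : List ℕ → ℕ} {e : List ℕ} (h : e ∈ K) :
    w e ≤ cp K w := by
  have h1 : w e ≤ K.sup w := Finset.le_sup (f := w) h
  unfold cp
  split_ifs <;> omega

theorem mon_sc (S : Rule F ar → Set (List ℕ)) : (sc S).Mon := by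
  have hsup : ∀ (K : Finset (List ℕ)) (v v' : List ℕ → ℕ), v ≤ v' → K.sup v ≤ K.sup v' :=
    fun K v v' h => Finset.sup_mono_fun fun e _ => h e
  refine ⟨?_, ?_, ?_, ?_, ?_, ?_, ?_⟩
  · intro a v v' h f
    show wU S a v f ≤ wU S a v' f
    unfold wU
    split_ifs
    · unfold lab
      exact max_le_max (hsup _ _ _ h) (Nat.add_le_add_left (hsup _ _ _ h) 1)
    · exact cp_le_cp (Finset.Subset.refl _) fun e _ => h e
    · exact le_rfl
  · intro a v v' h e
    show wD a v e ≤ wD a v' e
    unfold wD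
    split_ifs
    · exact hsup _ _ _ h
    · exact h _
    · exact le_rfl
  · intro a v v' w w' h h'
    show wc a v w ≤ wc a v' w'
    unfold wc
    exact Finset.sup_mono_fun fun e _ => Nat.add_le_add (h e) (h' e)
  · intro a v w
    show wc a v w = wc a w v
    unfold wc
    exact Finset.sup_congr rfl fun e _ => Nat.add_comm _ _
  · intro x e _
    rfl
  · intro a v e he
    show wU S a v e = 0
    unfold wU
    exact if_neg he
  · intro a v e he
    show wD a v e = 0
    unfold wD
    exact if_neg he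

variable {a : Stp F ar}

theorem le_lab {w : List ℕ → ℕ} {e : List ℕ} (he : e ∈ ps a.tgt) : w e ≤ lab S a w := by
  unfold lab
  exact le_max_of_le_left (Finset.le_sup (f := w) he)

theorem reg_lab {w : List ℕ → ℕ} {e : List ℕ} (he : e ∈ ps a.tgt) (h : a.Reg S e) :
    1 + w e ≤ lab S a w := by
  classical
  unfold lab
  refine le_max_of_le_right (Nat.add_le_add_left ?_ 1)
  exact Finset.le_sup (f := w) (Finset.mem_filter.2 ⟨he, h⟩)

theorem one_le_lab (w : List ℕ → ℕ) : 1 ≤ lab S a w := by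
  unfold lab
  exact le_max_of_le_right (Nat.le_add_right 1 _)

theorem lab_le {w : List ℕ → ℕ} {B : ℕ} (h1 : 1 ≤ B) (h2 : ∀ e ∈ ps a.tgt, w e ≤ B)
    (h3 : ∀ e ∈ ps a.tgt, a.Reg S e → 1 + w e ≤ B) : lab S a w ≤ B := by
  classical
  unfold lab
  refine max_le (Finset.sup_le h2) ?_
  have h4 : ((ps a.tgt).filter (a.Reg S)).sup w ≤ B - 1 := by
    refine Finset.sup_le fun e he => ?_
    obtain ⟨h5, h6⟩ := Finset.mem_filter.1 he
    have := h3 e h5 h6
    omega
  omega

/-- `D` is bounded by the maximum of the weights on the source. -/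
theorem wD_le (hT : IsTRS R) (hL : LeftLinear R) (ha : a.OK R) {w : List ℕ → ℕ} {B : ℕ}
    (h : ∀ f ∈ ps a.t, w f ≤ B) (e : List ℕ) : wD a w e ≤ B := by
  unfold wD
  split_ifs with h1 h2
  · exact Finset.sup_le fun f hf => h f (pat_subset ha hf)
  · exact h _ (og_mem hT hL ha h1 h2).1
  · exact Nat.zero_le _

/-- `U` is bounded by the label: the copies of a position with at least two copies are in the
region. -/
theorem wU_le (hT : IsTRS R) (hL : LeftLinear R) (hS : Sok R S) (ha : a.OK R) (w : List ℕ → ℕ)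
    (f : List ℕ) : wU S a w f ≤ lab S a w := by
  classical
  unfold wU
  split_ifs with h1 h2
  · exact le_rfl
  · have hsub : ∀ e ∈ a.cps f, e ∈ ps a.tgt := fun e he => (mem_cps.1 he).1
    unfold cp
    split_ifs with h3
    · exact Finset.sup_le fun e he => le_lab (hsub e he)
    · push Not at h3
      have hreg : ∀ e ∈ a.cps f, a.Reg S e := by
        intro e he
        obtain ⟨e', he', hne⟩ := Finset.exists_mem_ne h3 e
        have ha' := ha
        obtain ⟨hq, σ, hs1, hs2⟩ := ha
        obtain ⟨m1, m2, m3⟩ := mem_cps.1 he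
        obtain ⟨m1', m2', m3'⟩ := mem_cps.1 he'
        have hout : ∀ d : List ℕ, d ∈ a.cps f → ¬ a.p <+: d → (a.cps f).card ≤ 1 := by
          intro d hd hp
          obtain ⟨d1, -, d3⟩ := mem_cps.1 hd
          rw [og_out hp] at d3
          subst d3
          rw [cps_out ha' hp ((mem_tgt_out ha' hp).1 d1)]
          simp
        rcases tgt_cases ha' hs2 m1 with ⟨c1, -⟩ | c1 | ⟨k, x, n, rfl, hk, hn⟩
        · exact absurd (hout e he c1) (by omega)
        · exact absurd c1 m2
        rcases tgt_cases ha' hs2 m1' with ⟨c1, -⟩ | c1 | ⟨k', x', n', rfl, hk', hn'⟩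
        · exact absurd (hout e' he' c1) (by omega)
        · exact absurd c1 m2'
        rw [og_var hk] at m3
        rw [og_var hk', ← m3] at m3'
        have hx := vpos_spec ((hT _ hq).2 x (occ_of_subAt hk))
        have hx' := vpos_spec ((hT _ hq).2 x' (occ_of_subAt hk'))
        obtain ⟨-, e2, e3⟩ := varpos_eq hx' hx (List.append_cancel_left m3')
        subst e2
        subst e3
        obtain ⟨u, hu, hu'⟩ := hS.dup _ hq k k' x' (by
          rintro rfl
          exact hne rfl) hk hk'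
        refine ⟨u, hu, ?_⟩
        rw [List.prefix_append_right_inj]
        exact hu'.trans (List.prefix_append _ _)
      obtain ⟨e, he⟩ := Finset.card_pos.1 (by omega : 0 < (a.cps f).card)
      have h4 : (a.cps f).sup w ≤ lab S a w - 1 := by
        refine Finset.sup_le fun e he => ?_
        have := reg_lab (w := w) (hsub e he) (hreg e he)
        omega
      have := one_le_lab (S := S) (a := a) w
      omega
  · exact Nat.zero_le _

theorem wU_pat (ha : a.OK R) {w : List ℕ → ℕ} {f : List ℕ} (h : f ∈ a.pat) :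
    wU S a w f = lab S a w := by
  unfold wU
  rw [if_pos (pat_subset ha h), if_pos h]

theorem wU_out (ha : a.OK R) {w : List ℕ → ℕ} {f : List ℕ} (h : ¬ a.p <+: f) (hf : f ∈ ps a.t) :
    wU S a w f = w f := by
  have h1 : f ∉ a.pat := by
    intro hc
    obtain ⟨k, rfl, -⟩ := mem_pat.1 hc
    exact h (List.prefix_append _ _)
  unfold wU
  rw [if_pos hf, if_neg h1, cps_out ha h hf, cp_singleton]

theorem wU_var (hT : IsTRS R) (hL : LeftLinear R) (ha : a.OK R) {σ : ℕ → Tm F ar}
    (h0 : a.t.subAt a.p = some (a.q.1.subst σ))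
    (h1 : a.tgt = a.t.repl a.p (a.q.2.subst σ)) {w : List ℕ → ℕ} {k n : List ℕ} {x : ℕ}
    (hk : a.q.1.subAt k = some (Tm.var x)) (hn : n ∈ ps (σ x)) :
    wU S a w (a.p ++ (k ++ n)) = cp ((vps a.q.2 x).image fun j => a.p ++ (j ++ n)) w := by
  have h2 : a.p ++ (k ++ n) ∈ ps a.t := (ps_append h0).2 ((mem_tv_subst hk σ n).2 hn)
  have h3 : a.p ++ (k ++ n) ∉ a.pat := by
    intro hc
    obtain ⟨k', e, hk'⟩ := mem_pat.1 hc
    rw [← List.append_cancel_left e] at hk'
    exact not_np_of_var hk n hk'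
  unfold wU
  rw [if_pos h2, if_neg h3, cps_var hT hL ha h1 hk hn]

theorem wD_cre (ha : a.OK R) {w : List ℕ → ℕ} {e : List ℕ} (h : a.Cre e) :
    wD a w e = a.pat.sup w := by
  unfold wD
  rw [if_pos (mem_tgt_cre ha h), if_pos h]

theorem wD_out (ha : a.OK R) {w : List ℕ → ℕ} {e : List ℕ} (h : ¬ a.p <+: e) (he : e ∈ ps a.t) :
    wD a w e = w e := by
  unfold wD
  rw [if_pos ((mem_tgt_out ha h).2 he), if_neg (not_cre_out h), og_out h]

theorem wD_var (ha : a.OK R) {σ : ℕ → Tm F ar}
    (h1 : a.tgt = a.t.repl a.p (a.q.2.subst σ)) {w : List ℕ → ℕ} {k n : List ℕ} {x : ℕ}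
    (hk : a.q.2.subAt k = some (Tm.var x)) (hn : n ∈ ps (σ x)) :
    wD a w (a.p ++ (k ++ n)) = w (a.p ++ (vpos a.q.1 x ++ n)) := by
  unfold wD
  rw [if_pos (mem_tgt_var ha h1 hk hn), if_neg (not_cre_var hk), og_var hk]

end Pool.Agent.Work.MP_d87e04_lc.SS
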