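import Pool.Agent.Work.MP_d87e04_lc.SS.SNestT

/-!
# Module SNestL (M-L): left weights of a nested pair

Let `V = wD (nb ..) v`. By cases on `e ∈ ps b.tgt` (`Nest.tgtb_cases`; for `e ∉ ps b.tgt` the left
side is `0`, or use that both vanish):
* `e` outside of `b.p`, or in the content of another variable, or in the content of `x` but not
  below `n`: `LW_seq_out` and `wD_out`/`wD_var` for `nb` and `b`, `wU_out` for `a`;
* `e` created by `b`: `LW_seq_out`, `wD_cre`; the pattern of `b` is not below `a.p`, so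
  `wU S a v = v` there;
* `e` in the pattern of a copy of `a`: `LW_seq_le` with `B = lab S a v` (`wD_le`; the weights `V` below
  the copies are the weights `v` below `a.p`, and the region below `q` corresponds to the region below
  `a.p`, `reg_lab`); the right side is `wU S a v (a.p ++ k) = lab S a v`;
* `e` in the content of a copy of `a`: `LW_seq_var`, `wU_var`.
-/

set_option autoImplicit false

namespace Pool.Agent.Work.MP_d87e04_lc.SS

open Pool.Agent.Work.MP_d87e04_lc.CF Pool.Agent.Work.MP_d87e04_lc.CG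

universe u

variable {F : Type u} {ar : F → ℕ} {R : Set (Rule F ar)} {S : Rule F ar → Set (List ℕ)}
  {a b : Stp F ar} {σ τ : ℕ → Tm F ar} {kx n : List ℕ} {x : ℕ}

private theorem LW_app (ws ws' : List (Bool × Stp F ar)) (v : List ℕ → ℕ) :
    (sc S).LW (ws ++ ws') v = (sc S).LW ws' ((sc S).LW ws v) := by
  induction ws generalizing v with
  | nil => rfl
  | cons c ws ih =>
    obtain ⟨s, c⟩ := c
    cases s
    · exact ih _
    · exact ih _

private theorem Nest.vk (h : Nest R a b σ τ kx n x) : vpos b.q.1 x = kx :=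
  vpos_eq (h.hL _ h.qb) h.hkx

private theorem Nest.pp (h : Nest R a b σ τ kx n x) (m : List ℕ) :
    b.p ++ (kx ++ (n ++ m)) = a.p ++ m := by
  rw [h.pa]
  simp only [List.append_assoc]

/-- positions below a copy of `x` after `a` -/
private theorem Nest.nσ_below (h : Nest R a b σ τ kx n x) {m : List ℕ} :
    n ++ m ∈ ps (nσ a σ τ n x x) ↔ m ∈ ps (a.q.2.subst τ) := by
  have h1 : nσ a σ τ n x x = (σ x).repl n (a.q.2.subst τ) := by
    rw [nσ, Function.update_self]
  rw [h1, mem_ps, mem_ps, subAt_repl_below h.sub_n]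

private theorem nσ_ne {y : ℕ} (hy : y ≠ x) : nσ a σ τ n x y = σ y := by
  rw [nσ, Function.update_of_ne hy]

private theorem Nest.sub_copy (h : Nest R a b σ τ kx n x) {j : List ℕ} {y : ℕ}
    (hj : b.q.2.subAt j = some (Tm.var y)) (m : List ℕ) :
    b.p ++ (j ++ m) ∈ ps (nb a b σ τ n x).tgt ↔ m ∈ ps (nσ a σ τ n x y) := by
  have h1 : (nb a b σ τ n x).tgt.subAt (b.p ++ j) = some (nσ a σ τ n x y) := by
    have h2 : (nb a b σ τ n x).tgt = a.tgt.repl b.p (b.q.2.subst (nσ a σ τ n x)) := rfl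
    rw [h2, subAt_repl_below h.nb_at]
    exact Tm.subAt_subst _ _ _ _ hj
  rw [← List.append_assoc, ps_append h1]

private theorem Nest.a_below (h : Nest R a b σ τ kx n x) {m : List ℕ} :
    a.p ++ m ∈ ps a.tgt ↔ m ∈ ps (a.q.2.subst τ) := by
  rw [mem_ps, mem_ps, h.as_, subAt_repl_below h.at_]

/-- the weight of a position in a copy of the target of `a` -/
private theorem Nest.V_copy (h : Nest R a b σ τ kx n x) (v : List ℕ → ℕ) {j m : List ℕ}
    (hj : b.q.2.subAt j = some (Tm.var x)) (hm : m ∈ ps (a.q.2.subst τ)) :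
    wD (nb a b σ τ n x) v (b.p ++ (j ++ (n ++ m))) = v (a.p ++ m) := by
  have h1 := wD_var (a := nb a b σ τ n x) (σ := nσ a σ τ n x) (w := v) h.nb_ok rfl (k := j)
    (n := n ++ m) hj (h.nσ_below.2 hm)
  rw [show (nb a b σ τ n x).p = b.p from rfl, show (nb a b σ τ n x).q = b.q from rfl, h.vk,
    h.pp] at h1
  exact h1

/-- The weights after `nb` are bounded by the label of `a`. -/
theorem Nest.V_le (hS : Sok R S) (h : Nest R a b σ τ kx n x) (v : List ℕ → ℕ) (e : List ℕ) :
    wD (nb a b σ τ n x) v e ≤ lab S a v :=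
  wD_le h.hT h.hL h.nb_ok (fun _ hf => le_lab hf) e

theorem Nest.V_reg (hS : Sok R S) (h : Nest R a b σ τ kx n x) (v : List ℕ → ℕ) :
    ∀ q ∈ nqs b n x, ∀ u ∈ S a.q,
      ∀ e ∈ ps (seqT b.tgt (a.q.2.subst τ) (nqs b n x)), q ++ u <+: e →
        1 + wD (nb a b σ τ n x) v e ≤ lab S a v := by
  intro q hq u hu e he hqe
  obtain ⟨j, hj, rfl⟩ := mem_nqs.1 hq
  obtain ⟨r, rfl⟩ := hqe
  rw [← h.tgt] at he
  have e1 : b.p ++ (j ++ n) ++ u ++ r = b.p ++ (j ++ (n ++ (u ++ r))) := by
    simp only [List.append_assoc]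
  rw [e1] at he ⊢
  rw [h.sub_copy hj, h.nσ_below] at he
  rw [h.V_copy v hj he]
  refine reg_lab (h.a_below.2 he) ⟨u, hu, ?_⟩
  rw [← List.append_assoc]
  exact List.prefix_append _ _

private theorem pre_cancel {p k m : List ℕ} (h : p ++ k <+: p ++ m) : k <+: m :=
  (List.prefix_append_right_inj p).1 h

/-- two variable positions, one continued to the other -/
private theorem var_cmp {r : Tm F ar} {j j' n' m : List ℕ} {y y' : ℕ}
    (hj : r.subAt j = some (Tm.var y)) (hj' : r.subAt j' = some (Tm.var y'))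
    (hp : j' ++ n' <+: j ++ m) : j' = j ∧ y' = y ∧ n' <+: m := by
  obtain ⟨r', hr'⟩ := hp
  rw [List.append_assoc] at hr'
  obtain ⟨h1, h2, h3⟩ := varpos_eq hj' hj hr'
  exact ⟨h1, h2, ⟨r', h3⟩⟩

private theorem var_cmp_np {r : Tm F ar} {k j' n' : List ℕ} {y' : ℕ} (hk : Np r k)
    (hj' : r.subAt j' = some (Tm.var y')) : ¬ (j' ++ n' <+: k) := by
  rintro ⟨r', rfl⟩
  rw [List.append_assoc] at hk
  exact not_np_of_var hj' _ hk

private theorem Nest.b_mem (h : Nest R a b σ τ kx n x) {y : ℕ} (hy : 0 < b.q.1.occ y) {m : List ℕ}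
    (hm : m ∈ ps (σ y)) : b.p ++ (vpos b.q.1 y ++ m) ∈ ps a.t := by
  rw [h.ab]
  have h1 : b.t.subAt (b.p ++ vpos b.q.1 y) = some (σ y) := by
    rw [subAt_append h.bt]
    exact Tm.subAt_subst _ _ _ _ (vpos_spec hy)
  rw [← List.append_assoc, ps_append h1]
  exact hm

theorem Nest.left (hS : Sok R S) (h : Nest R a b σ τ kx n x) (v : List ℕ → ℕ) :
    (sc S).LW (seqW b.tgt a.q τ (nqs b n x)) (wD (nb a b σ τ n x) v) ≤ wD b (wU S a v) := by
  classical
  intro e
  have hseq := h.seq
  have hoB := h.okB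
  have hoA := h.okA
  have hoN := h.nb_ok
  have hout : ∀ e, ¬ b.p <+: e → ¬ a.p <+: e := by
    intro e he hp
    apply he
    rw [h.pa] at hp
    exact (List.prefix_append _ _).trans hp
  by_cases he : e ∈ ps b.tgt
  swap
  · -- both sides vanish
    have h0 : (sc S).LW (seqW b.tgt a.q τ (nqs b n x)) (wD (nb a b σ τ n x) v) e = 0 := by
      have ht := h.tgt
      generalize nqs b n x = qs at ht ⊢
      cases qs with
      | nil =>
        show wD (nb a b σ τ n x) v e = 0
        rw [wD, if_neg]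
        rw [ht]
        exact he
      | cons q qs =>
        rw [seqW, LW_app]
        show wU S _ _ e = 0
        rw [wU, if_neg]
        exact he
    rw [h0]
    exact Nat.zero_le _
  · rcases h.tgtb_cases he with ⟨h1, h2⟩ | ⟨k, rfl, hk⟩ | ⟨j, y, m, hy, rfl, hj, hm⟩ |
      ⟨j, m, rfl, hj, hm, hnm⟩ | ⟨j, k, rfl, hj, hk⟩ | ⟨j, k, y, m, rfl, hj, hk, hm⟩
    · -- outside
      have h3 : ∀ q ∈ nqs b n x, ¬ q <+: e := by
        intro q hq hqe
        obtain ⟨j, _, rfl⟩ := mem_nqs.1 hq
        exact h1 ((List.prefix_append _ _).trans hqe)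
      have h4 : e ∈ ps a.t := by
        rw [h.ab]
        exact h2
      rw [LW_seq_out h.qa hseq _ he h3, wD_out hoN h1 ((mem_tgt_out hoA (hout _ h1)).2 h4),
        wD_out hoB h1 h2, wU_out hoA (hout _ h1) h4]
    · -- created
      have h3 : ∀ q ∈ nqs b n x, ¬ q <+: b.p ++ k := by
        intro q hq hqe
        obtain ⟨j, hj, rfl⟩ := mem_nqs.1 hq
        exact var_cmp_np hk hj (pre_cancel hqe)
      have h2 : (nb a b σ τ n x).Cre (b.p ++ k) := ⟨k, rfl, hk⟩
      rw [LW_seq_out h.qa hseq _ he h3, wD_cre hoN h2, wD_cre hoB ⟨k, rfl, hk⟩]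
      have h4 : (nb a b σ τ n x).pat = b.pat := rfl
      rw [h4]
      refine Finset.sup_mono_fun ?_
      intro f hf
      obtain ⟨k', rfl, hk'⟩ := mem_pat.1 hf
      have h5 : ¬ a.p <+: b.p ++ k' := by
        rw [h.pa]
        intro hp
        exact var_cmp_np hk' h.hkx (pre_cancel hp)
      have h6 : b.p ++ k' ∈ ps a.t := by
        rw [h.ab]
        exact pat_subset hoB hf
      rw [wU_out hoA h5 h6]
    · -- another variable
      have h3 : ∀ q ∈ nqs b n x, ¬ q <+: b.p ++ (j ++ m) := by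
        intro q hq hqe
        obtain ⟨j', hj', rfl⟩ := mem_nqs.1 hq
        exact hy (var_cmp hj hj' (pre_cancel hqe)).2.1.symm
      have hyo : 0 < b.q.1.occ y := (h.hT _ h.qb).2 y (occ_of_subAt hj)
      have h5 : ¬ a.p <+: b.p ++ (vpos b.q.1 y ++ m) := by
        rw [h.pa]
        intro hp
        exact hy (var_cmp (vpos_spec hyo) h.hkx (pre_cancel hp)).2.1.symm
      have h7 := wD_var (a := nb a b σ τ n x) (σ := nσ a σ τ n x) (w := v) hoN rfl (k := j)
        (n := m) hj (by rw [nσ_ne hy]; exact hm)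
      rw [LW_seq_out h.qa hseq _ he h3, wD_var hoB h.bs hj hm, wU_out hoA h5 (h.b_mem hyo hm)]
      exact h7.le
    · -- in the content of `x`, not below `n`
      have h3 : ∀ q ∈ nqs b n x, ¬ q <+: b.p ++ (j ++ m) := by
        intro q hq hqe
        obtain ⟨j', hj', rfl⟩ := mem_nqs.1 hq
        exact hnm (var_cmp hj hj' (pre_cancel hqe)).2.2
      have h5 : ¬ a.p <+: b.p ++ (vpos b.q.1 x ++ m) := by
        rw [h.pa, h.vk]
        intro hp
        exact hnm (var_cmp h.hkx h.hkx (pre_cancel hp)).2.2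
      have h6 : m ∈ ps (nσ a σ τ n x x) := by
        rw [nσ, Function.update_self, mem_ps_repl h.sub_n hnm]
        exact hm
      have h7 := wD_var (a := nb a b σ τ n x) (σ := nσ a σ τ n x) (w := v) hoN rfl (k := j)
        (n := m) hj h6
      rw [LW_seq_out h.qa hseq _ he h3, wD_var hoB h.bs hj hm,
        wU_out hoA h5 (h.b_mem (occ_of_subAt h.hkx) hm)]
      exact h7.le
    · -- in the pattern of a copy of `a`
      have h5 : n ++ k ∈ ps (σ x) := by
        rw [ps_append h.sub_n, mem_ps]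
        obtain ⟨f, c, hf⟩ := hk
        exact ⟨_, Tm.subAt_subst _ _ _ _ hf⟩
      have h6 : wD b (wU S a v) (b.p ++ (j ++ (n ++ k))) = lab S a v := by
        rw [wD_var hoB h.bs hj h5, h.vk, h.pp]
        exact wU_pat hoA (mem_pat.2 ⟨k, rfl, hk⟩)
      rw [h6]
      exact LW_seq_le h.hT h.hL hS h.qa hseq (one_le_lab v) (h.V_le hS v) (h.V_reg hS v) _
    · -- in the content of a copy of `a`
      have h5 : n ++ (k ++ m) ∈ ps (σ x) := by
        have h9 : (a.q.1.subst τ).subAt k = some (τ y) := Tm.subAt_subst _ _ _ _ hk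
        rw [ps_append h.sub_n, ps_append h9]
        exact hm
      have hq : b.p ++ (j ++ n) ∈ nqs b n x := mem_nqs.2 ⟨j, hj, rfl⟩
      have h6 := LW_seq_var (S := S) h.hT h.hL h.qa hseq (wD (nb a b σ τ n x) v) hq hk hm
      have e1 : b.p ++ (j ++ (n ++ (k ++ m))) = b.p ++ (j ++ n) ++ (k ++ m) := by
        simp only [List.append_assoc]
      have h7 : wD b (wU S a v) (b.p ++ (j ++ (n ++ (k ++ m)))) =
          cp ((vps a.q.2 y).image fun j => a.p ++ (j ++ m)) v := by
        rw [wD_var hoB h.bs hj h5, h.vk, h.pp]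
        exact wU_var h.hT h.hL hoA h.at_ h.as_ hk hm
      rw [h7, e1, h6]
      have h8 : ∀ j' ∈ vps a.q.2 y,
          wD (nb a b σ τ n x) v (b.p ++ (j ++ n) ++ (j' ++ m)) = v (a.p ++ (j' ++ m)) := by
        intro j' hj'
        have e2 : b.p ++ (j ++ n) ++ (j' ++ m) = b.p ++ (j ++ (n ++ (j' ++ m))) := by
          simp only [List.append_assoc]
        rw [e2]
        refine h.V_copy v hj ?_
        have h9 : (a.q.2.subst τ).subAt j' = some (τ y) := Tm.subAt_subst _ _ _ _ (mem_vps.1 hj')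
        rw [ps_append h9]
        exact hm
      have inj : ∀ p : List ℕ, Function.Injective fun j' : List ℕ => p ++ (j' ++ m) := by
        intro p j1 j2 h12
        exact List.append_cancel_right (List.append_cancel_left h12)
      refine le_of_eq ?_
      unfold cp
      rw [Finset.card_image_of_injective _ (inj _), Finset.card_image_of_injective _ (inj _),
        Finset.sup_image, Finset.sup_image]
      have h10 : (vps a.q.2 y).sup (wD (nb a b σ τ n x) v ∘ fun j' => b.p ++ (j ++ n) ++ (j' ++ m)) =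
          (vps a.q.2 y).sup (v ∘ fun j' => a.p ++ (j' ++ m)) :=
        Finset.sup_congr rfl fun j' hj' => h8 j' hj'
      rw [h10]

end Pool.Agent.Work.MP_d87e04_lc.SS
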