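import Pool.Agent.Work.MP_d87e04_lc.SS.SSeqL

/-!
# Module SNestT (M): a step `a` in the content of the variable `x` of the step `b`

`b.q.1.subAt kx = var x`, `a.p = b.p ++ (kx ++ n)`. `qs` lists the copies of the redex `a` in `b.tgt`.
`bb` is the step with the redex of `b` after `a`.
-/

set_option autoImplicit false

namespace Pool.Agent.Work.MP_d87e04_lc.SS

open Pool.Agent.Work.MP_d87e04_lc.CF Pool.Agent.Work.MP_d87e04_lc.CG

universe u

variable {F : Type u} {ar : F → ℕ} {R : Set (Rule F ar)}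

/-- The data of a nested pair: `σ` is the substitution of `b`, `τ` of `a`. -/
structure Nest (R : Set (Rule F ar)) (a b : Stp F ar) (σ τ : ℕ → Tm F ar) (kx n : List ℕ) (x : ℕ) :
    Prop where
  hT : IsTRS R
  hL : LeftLinear R
  qa : a.q ∈ R
  qb : b.q ∈ R
  ab : a.t = b.t
  bt : b.t.subAt b.p = some (b.q.1.subst σ)
  bs : b.tgt = b.t.repl b.p (b.q.2.subst σ)
  at_ : a.t.subAt a.p = some (a.q.1.subst τ)
  as_ : a.tgt = a.t.repl a.p (a.q.2.subst τ)
  hkx : b.q.1.subAt kx = some (Tm.var x)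
  pa : a.p = b.p ++ (kx ++ n)

/-- The copies of the redex. -/
noncomputable def nqs (b : Stp F ar) (n : List ℕ) (x : ℕ) : List (List ℕ) :=
  (vps b.q.2 x).toList.map fun j => b.p ++ (j ++ n)

/-- The substitution of `b` after `a`. -/
def nσ (a : Stp F ar) (σ τ : ℕ → Tm F ar) (n : List ℕ) (x : ℕ) : ℕ → Tm F ar :=
  Function.update σ x ((σ x).repl n (a.q.2.subst τ))

/-- The redex of `b` after `a`. -/
def nb (a b : Stp F ar) (σ τ : ℕ → Tm F ar) (n : List ℕ) (x : ℕ) : Stp F ar :=
  ⟨a.tgt, b.p, b.q, a.tgt.repl b.p (b.q.2.subst (nσ a σ τ n x))⟩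

variable {a b : Stp F ar} {σ τ : ℕ → Tm F ar} {kx n : List ℕ} {x : ℕ}

theorem Nest.okA (h : Nest R a b σ τ kx n x) : a.OK R := ⟨h.qa, τ, h.at_, h.as_⟩

theorem Nest.okB (h : Nest R a b σ τ kx n x) : b.OK R := ⟨h.qb, σ, h.bt, h.bs⟩

private theorem snt_nil (t : Tm F ar) : t.subAt [] = some t := by
  cases t <;> rfl

private theorem snt_cons {f : F} {a : Fin (ar f) → Tm F ar} {i : ℕ} {p : List ℕ}
    {s : Tm F ar} (h : (Tm.app f a).subAt (i :: p) = some s) :
    ∃ h : i < ar f, (a ⟨i, h⟩).subAt p = some s := by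
  simp only [Tm.subAt] at h
  split at h
  · rename_i hi
    exact ⟨hi, h⟩
  · exact absurd h (by simp)

private theorem snt_repl_nil (t s : Tm F ar) : t.repl [] s = s := by
  cases t <;> rfl

private theorem snt_repl_cons {f : F} {a : Fin (ar f) → Tm F ar} {i : ℕ} (hi : i < ar f)
    (p : List ℕ) (s : Tm F ar) : (Tm.app f a).repl (i :: p) s =
      Tm.app f (Function.update a ⟨i, hi⟩ ((a ⟨i, hi⟩).repl p s)) := by
  simp only [Tm.repl, hi, dif_pos]

private theorem snt_repl_append {t v : Tm F ar} {k : List ℕ} (m : List ℕ) (s : Tm F ar)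
    (h : t.subAt k = some v) : t.repl (k ++ m) s = t.repl k (v.repl m s) := by
  induction k generalizing t with
  | nil =>
    rw [snt_nil] at h
    cases h
    rw [List.nil_append, snt_repl_nil]
  | cons i k ih =>
    cases t with
    | var x => exact absurd h (by simp [Tm.subAt])
    | app f a =>
      obtain ⟨hi, h1⟩ := snt_cons h
      rw [List.cons_append, snt_repl_cons hi, snt_repl_cons hi, ih h1]

private theorem snt_repl_repl {t v : Tm F ar} {k : List ℕ} (m : List ℕ) (u s : Tm F ar)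
    (h : t.subAt k = some v) : (t.repl k u).repl (k ++ m) s = t.repl k (u.repl m s) := by
  induction k generalizing t with
  | nil => rw [List.nil_append, snt_repl_nil, snt_repl_nil]
  | cons i k ih =>
    cases t with
    | var x => exact absurd h (by simp [Tm.subAt])
    | app f a =>
      obtain ⟨hi, h1⟩ := snt_cons h
      rw [List.cons_append, snt_repl_cons hi, snt_repl_cons hi, snt_repl_cons hi,
        Function.update_self, Function.update_idem, ih h1]

/-- Substitution which depends on the position. -/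
private def sp_ : Tm F ar → (List ℕ → ℕ → Tm F ar) → Tm F ar
  | .var y, f => f [] y
  | .app g a, f => .app g fun i => sp_ (a i) fun k => f (i.1 :: k)

private theorem sp_const (r : Tm F ar) (σ : ℕ → Tm F ar) : sp_ r (fun _ => σ) = r.subst σ := by
  induction r with
  | var y => rfl
  | app g a ih =>
    simp only [sp_, Tm.subst_app, ih]

private theorem sp_congr {r : Tm F ar} {f f' : List ℕ → ℕ → Tm F ar}
    (h : ∀ k y, r.subAt k = some (Tm.var y) → f k y = f' k y) : sp_ r f = sp_ r f' := by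
  induction r generalizing f f' with
  | var y => exact h [] y rfl
  | app g a ih =>
    simp only [sp_]
    congr 1
    funext i
    apply ih
    intro k y hk
    apply h
    simp only [Tm.subAt, i.2, dif_pos]
    exact hk

private theorem sp_repl {r : Tm F ar} {j : List ℕ} {x : ℕ} (n : List ℕ) (s : Tm F ar)
    (h : r.subAt j = some (Tm.var x)) (f : List ℕ → ℕ → Tm F ar) :
    (sp_ r f).repl (j ++ n) s =
      sp_ r (fun k y => if k = j ∧ y = x then (f k y).repl n s else f k y) := by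
  induction j generalizing r f with
  | nil =>
    rw [snt_nil] at h
    cases h
    simp [sp_]
  | cons i j ih =>
    cases r with
    | var y => exact absurd h (by simp [Tm.subAt])
    | app g a =>
      obtain ⟨hi, h1⟩ := snt_cons h
      rw [List.cons_append]
      simp only [sp_]
      rw [snt_repl_cons hi]
      congr 1
      funext l
      by_cases hl : l = ⟨i, hi⟩
      · subst hl
        rw [Function.update_self, ih h1]
        apply sp_congr
        intro k y _
        simp only [List.cons.injEq, true_and]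
      · rw [Function.update_of_ne hl]
        apply sp_congr
        intro k y _
        have hne : ¬ (l.1 :: k = i :: j ∧ y = x) := by
          rintro ⟨h2, _⟩
          apply hl
          apply Fin.ext
          exact (List.cons.inj h2).1
        rw [if_neg hne]

private theorem sp_seq {r : Tm F ar} {x : ℕ} (n : List ℕ) (s : Tm F ar) (L : List (List ℕ))
    (hL : L.Nodup) (h : ∀ j ∈ L, r.subAt j = some (Tm.var x)) (f : List ℕ → ℕ → Tm F ar) :
    seqT (sp_ r f) s (L.map fun j => j ++ n) =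
      sp_ r (fun k y => if k ∈ L ∧ y = x then (f k y).repl n s else f k y) := by
  induction L generalizing f with
  | nil =>
    simp only [List.map_nil, seqT, List.not_mem_nil, false_and, if_false]
  | cons j L ih =>
    rw [List.nodup_cons] at hL
    rw [List.map_cons, seqT, sp_repl n s (h j List.mem_cons_self),
      ih hL.2 (fun i hi => h i (List.mem_cons_of_mem _ hi))]
    apply sp_congr
    intro k y _
    by_cases hy : y = x
    · by_cases hk : k = j
      · subst hk
        simp [hy, hL.1]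
      · simp [hy, hk]
    · simp [hy]

private theorem snt_subst_update {l : Tm F ar} (hl : l.Linear) {kx : List ℕ} {x : ℕ}
    (h : l.subAt kx = some (Tm.var x)) (σ : ℕ → Tm F ar) (n : List ℕ) (s : Tm F ar) :
    (l.subst σ).repl (kx ++ n) s = l.subst (Function.update σ x ((σ x).repl n s)) := by
  rw [← sp_const, ← sp_const, sp_repl n s h]
  apply sp_congr
  intro k y hk
  by_cases hy : y = x
  · subst hy
    have h1 : k = kx := by rw [← vpos_eq hl hk, ← vpos_eq hl h]
    rw [if_pos ⟨h1, rfl⟩, Function.update_self]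
  · rw [if_neg (fun h2 => hy h2.2), Function.update_of_ne hy]

private theorem snt_seqT_repl {t v : Tm F ar} {p : List ℕ} (h : t.subAt p = some v)
    (u s : Tm F ar) (L : List (List ℕ)) :
    seqT (t.repl p u) s (L.map fun m => p ++ m) = t.repl p (seqT u s L) := by
  induction L generalizing u with
  | nil => rfl
  | cons m L ih =>
    rw [List.map_cons, seqT, seqT, snt_repl_repl m u s h, ih]

theorem Nest.sub_n (h : Nest R a b σ τ kx n x) : (σ x).subAt n = some (a.q.1.subst τ) := by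
  have h1 := h.at_
  rw [h.ab, h.pa, subAt_append h.bt,
    subAt_append (Tm.subAt_subst σ b.q.1 kx (Tm.var x) h.hkx)] at h1
  exact h1

theorem Nest.nb_at (h : Nest R a b σ τ kx n x) :
    a.tgt.subAt b.p = some (b.q.1.subst (nσ a σ τ n x)) := by
  have h1 := h.at_
  rw [h.ab, h.pa] at h1
  rw [h.as_, h.ab, h.pa, subAt_repl_above h1 h.bt]
  exact congrArg some (snt_subst_update (h.hL _ h.qb) h.hkx σ n (a.q.2.subst τ))

theorem Nest.nb_ok (h : Nest R a b σ τ kx n x) : (nb a b σ τ n x).OK R :=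
  ⟨h.qb, _, h.nb_at, rfl⟩

theorem Nest.seq (h : Nest R a b σ τ kx n x) : Seq b.tgt a.q τ (nqs b n x) := by
  constructor
  · unfold nqs
    rw [List.pairwise_map]
    have h0 : (vps b.q.2 x).toList.Pairwise (· ≠ ·) := Finset.nodup_toList _
    refine h0.imp_of_mem ?_
    intro j j' hj hj' hne
    rw [Finset.mem_toList, mem_vps] at hj hj'
    constructor
    · intro hp
      rw [List.prefix_append_right_inj] at hp
      obtain ⟨c, hc⟩ := hp
      rw [List.append_assoc] at hc
      exact hne (varpos_eq hj hj' hc).1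
    · intro hp
      rw [List.prefix_append_right_inj] at hp
      obtain ⟨c, hc⟩ := hp
      rw [List.append_assoc] at hc
      exact hne (varpos_eq hj' hj hc).1.symm
  · intro q hq
    unfold nqs at hq
    rw [List.mem_map] at hq
    obtain ⟨j, hj, rfl⟩ := hq
    rw [Finset.mem_toList, mem_vps] at hj
    rw [h.bs, subAt_repl_below h.bt, subAt_append (Tm.subAt_subst σ b.q.2 j (Tm.var x) hj)]
    exact h.sub_n

theorem Nest.tgt (h : Nest R a b σ τ kx n x) :
    (nb a b σ τ n x).tgt = seqT b.tgt (a.q.2.subst τ) (nqs b n x) := by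
  have h1 : (nb a b σ τ n x).tgt = b.t.repl b.p (b.q.2.subst (nσ a σ τ n x)) := by
    show a.tgt.repl b.p _ = _
    rw [h.as_, h.ab, h.pa, snt_repl_append (kx ++ n) (a.q.2.subst τ) h.bt]
    have h2 := snt_repl_repl [] ((b.q.1.subst σ).repl (kx ++ n) (a.q.2.subst τ))
      (b.q.2.subst (nσ a σ τ n x)) h.bt
    rw [List.append_nil, snt_repl_nil] at h2
    exact h2
  have h3 : nqs b n x = (((vps b.q.2 x).toList.map fun j => j ++ n).map fun m => b.p ++ m) := by
    unfold nqs
    rw [List.map_map]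
    rfl
  rw [h1, h3, h.bs, snt_seqT_repl h.bt]
  congr 1
  rw [← sp_const b.q.2 σ, sp_seq n (a.q.2.subst τ) _ (Finset.nodup_toList _)
    (fun j hj => mem_vps.1 (Finset.mem_toList.1 hj)), ← sp_const]
  apply sp_congr
  intro k y hk
  by_cases hy : y = x
  · subst hy
    rw [if_pos ⟨Finset.mem_toList.2 (mem_vps.2 hk), rfl⟩, nσ, Function.update_self]
  · rw [if_neg (fun h2 => hy h2.2), nσ, Function.update_of_ne hy]

theorem mem_nqs {q : List ℕ} :
    q ∈ nqs b n x ↔ ∃ j, b.q.2.subAt j = some (Tm.var x) ∧ q = b.p ++ (j ++ n) := by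
  unfold nqs
  rw [List.mem_map]
  constructor
  · rintro ⟨j, hj, rfl⟩
    exact ⟨j, mem_vps.1 (Finset.mem_toList.1 hj), rfl⟩
  · rintro ⟨j, hj, rfl⟩
    exact ⟨j, Finset.mem_toList.2 (mem_vps.2 hj), rfl⟩

theorem length_nqs : (nqs b n x).length = (vps b.q.2 x).card := by
  unfold nqs
  rw [List.length_map, Finset.length_toList]

/-- The positions of the source, seen from the nested pair. -/
theorem Nest.src_cases (h : Nest R a b σ τ kx n x) {f : List ℕ} (hf : f ∈ ps a.t) :
    (¬ b.p <+: f) ∨ f ∈ b.pat ∨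
      (∃ k y m, y ≠ x ∧ f = b.p ++ (k ++ m) ∧ b.q.1.subAt k = some (Tm.var y) ∧ m ∈ ps (σ y)) ∨
      (∃ m, f = b.p ++ (kx ++ m) ∧ m ∈ ps (σ x) ∧ ¬ n <+: m) ∨
      (∃ k, f = a.p ++ k ∧ Np a.q.1 k) ∨
      ∃ k y m, f = a.p ++ (k ++ m) ∧ a.q.1.subAt k = some (Tm.var y) ∧ m ∈ ps (τ y) := by
  rw [h.ab] at hf
  rcases SS.src_cases h.bt hf with h1 | h1 | ⟨k, y, m, h1, h2, h3⟩
  · exact Or.inl h1
  · exact Or.inr (Or.inl h1)
  · by_cases hy : y = x
    · subst hy
      have hk : k = kx := by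
        rw [← vpos_eq (h.hL _ h.qb) h2, ← vpos_eq (h.hL _ h.qb) h.hkx]
      subst hk
      by_cases hn : n <+: m
      · obtain ⟨m', rfl⟩ := hn
        rw [ps_append h.sub_n] at h3
        have hf' : f = a.p ++ m' := by
          rw [h1, h.pa]
          simp only [List.append_assoc]
        rcases ps_subst_cases h3 with h4 | ⟨j, z, m2, h4, h5, h6⟩
        · exact Or.inr (Or.inr (Or.inr (Or.inr (Or.inl ⟨m', hf', h4⟩))))
        · refine Or.inr (Or.inr (Or.inr (Or.inr (Or.inr ⟨j, z, m2, ?_, h4, h5⟩))))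
          rw [hf', h6]
      · exact Or.inr (Or.inr (Or.inr (Or.inl ⟨m, h1, h3, hn⟩)))
    · exact Or.inr (Or.inr (Or.inl ⟨k, y, m, hy, h1, h2, h3⟩))

/-- The positions of `b.tgt`. -/
theorem Nest.tgtb_cases (h : Nest R a b σ τ kx n x) {e : List ℕ} (he : e ∈ ps b.tgt) :
    (¬ b.p <+: e ∧ e ∈ ps b.t) ∨ (∃ k, e = b.p ++ k ∧ Np b.q.2 k) ∨
      (∃ j y m, y ≠ x ∧ e = b.p ++ (j ++ m) ∧ b.q.2.subAt j = some (Tm.var y) ∧ m ∈ ps (σ y)) ∨
      (∃ j m, e = b.p ++ (j ++ m) ∧ b.q.2.subAt j = some (Tm.var x) ∧ m ∈ ps (σ x) ∧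
        ¬ n <+: m) ∨
      (∃ j k, e = b.p ++ (j ++ (n ++ k)) ∧ b.q.2.subAt j = some (Tm.var x) ∧ Np a.q.1 k) ∨
      ∃ j k y m, e = b.p ++ (j ++ (n ++ (k ++ m))) ∧ b.q.2.subAt j = some (Tm.var x) ∧
        a.q.1.subAt k = some (Tm.var y) ∧ m ∈ ps (τ y) := by
  rcases tgt_cases h.okB h.bs he with h1 | h1 | ⟨k, y, m, h1, h2, h3⟩
  · exact Or.inl h1
  · exact Or.inr (Or.inl h1)
  · by_cases hy : y = x
    · subst hy
      by_cases hn : n <+: m
      · obtain ⟨m', rfl⟩ := hn
        rw [ps_append h.sub_n] at h3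
        rcases ps_subst_cases h3 with h4 | ⟨j, z, m2, h4, h5, h6⟩
        · exact Or.inr (Or.inr (Or.inr (Or.inr (Or.inl ⟨k, m', h1, h2, h4⟩))))
        · refine Or.inr (Or.inr (Or.inr (Or.inr (Or.inr ⟨k, j, z, m2, ?_, h2, h4, h5⟩))))
          rw [h1, h6]
      · exact Or.inr (Or.inr (Or.inr (Or.inl ⟨k, m, h1, h2, h3, hn⟩)))
    · exact Or.inr (Or.inr (Or.inl ⟨k, y, m, hy, h1, h2, h3⟩))

/-- The positions of `a.tgt`. -/
theorem Nest.tgta_cases (h : Nest R a b σ τ kx n x) {e : List ℕ} (he : e ∈ ps a.tgt) :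
    (¬ b.p <+: e ∧ e ∈ ps b.t) ∨ e ∈ b.pat ∨
      (∃ k y m, y ≠ x ∧ e = b.p ++ (k ++ m) ∧ b.q.1.subAt k = some (Tm.var y) ∧ m ∈ ps (σ y)) ∨
      (∃ m, e = b.p ++ (kx ++ m) ∧ m ∈ ps (σ x) ∧ ¬ n <+: m) ∨
      (∃ k, e = a.p ++ k ∧ Np a.q.2 k) ∨
      ∃ k y m, e = a.p ++ (k ++ m) ∧ a.q.2.subAt k = some (Tm.var y) ∧ m ∈ ps (τ y) := by
  rcases tgt_cases h.okA h.as_ he with ⟨h0, h1⟩ | h1 | ⟨k, y, m, h1, h2, h3⟩
  · rcases h.src_cases h1 with h2 | h2 | h2 | h2 | ⟨k, h2, _⟩ | ⟨k, y, m, h2, _⟩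
    · exact Or.inl ⟨h2, by rw [← h.ab]; exact h1⟩
    · exact Or.inr (Or.inl h2)
    · exact Or.inr (Or.inr (Or.inl h2))
    · exact Or.inr (Or.inr (Or.inr (Or.inl h2)))
    · exact absurd ⟨k, h2.symm⟩ h0
    · exact absurd ⟨k ++ m, h2.symm⟩ h0
  · exact Or.inr (Or.inr (Or.inr (Or.inr (Or.inl h1))))
  · exact Or.inr (Or.inr (Or.inr (Or.inr (Or.inr ⟨k, y, m, h1, h2, h3⟩))))

end Pool.Agent.Work.MP_d87e04_lc.SS
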