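import Pool.Agent.Work.MP_d87e04_lc.SS.Defs

/-!
# Module SPos (M): positions of source and target of a step

Use `CF/Lv.lean` (`subAt_append`, `vpos_spec`, `vpos_eq`, `along_append`, `occ_of_subAt`) and
`CG/TLv.lean` (`mem_tv_iff`, `mem_tn_iff`, `tv_subst_cases`, `mem_tv_subst`, `varpos_eq`,
`not_mem_tn_of_var`).
-/

set_option autoImplicit false

namespace Pool.Agent.Work.MP_d87e04_lc.SS

open Pool.Agent.Work.MP_d87e04_lc.CF Pool.Agent.Work.MP_d87e04_lc.CG

universe u

variable {F : Type u} {ar : F → ℕ} {R : Set (Rule F ar)}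

private theorem subAt_nilP (t : Tm F ar) : t.subAt [] = some t := by
  cases t <;> rfl

private theorem subAt_consP {f : F} {a : Fin (ar f) → Tm F ar} {i : ℕ} {p : List ℕ}
    {s : Tm F ar} : (Tm.app f a).subAt (i :: p) = some s ↔
      ∃ h : i < ar f, (a ⟨i, h⟩).subAt p = some s := by
  simp only [Tm.subAt]
  constructor
  · intro h
    split at h
    · rename_i hi
      exact ⟨hi, h⟩
    · exact absurd h (by simp)
  · rintro ⟨h, hs⟩
    rw [dif_pos h]
    exact hs

private theorem repl_nilP (t s : Tm F ar) : t.repl [] s = s := by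
  cases t <;> rfl

private theorem repl_consP {f : F} {a : Fin (ar f) → Tm F ar} {i : ℕ} (h : i < ar f)
    (p : List ℕ) (s : Tm F ar) : (Tm.app f a).repl (i :: p) s =
      Tm.app f (Function.update a ⟨i, h⟩ ((a ⟨i, h⟩).repl p s)) := by
  simp only [Tm.repl]
  rw [dif_pos h]

private theorem subAt_prefixP {t s : Tm F ar} {p m : List ℕ} (h : t.subAt (p ++ m) = some s) :
    ∃ v, t.subAt p = some v ∧ v.subAt m = some s := by
  induction p generalizing t with
  | nil => exact ⟨t, subAt_nilP t, h⟩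
  | cons i p ih =>
    cases t with
    | var x => exact absurd h (by simp [Tm.subAt])
    | app f a =>
      rw [List.cons_append] at h
      obtain ⟨hi, h⟩ := subAt_consP.1 h
      obtain ⟨v, h1, h2⟩ := ih h
      exact ⟨v, subAt_consP.2 ⟨hi, h1⟩, h2⟩

theorem mem_ps {t : Tm F ar} {k : List ℕ} : k ∈ ps t ↔ ∃ s, t.subAt k = some s := by
  rw [ps, mem_tv_iff, mem_tn_iff]
  constructor
  · rintro (⟨f, a, h, _⟩ | ⟨x, h⟩)
    · exact ⟨_, h⟩
    · exact ⟨_, h⟩
  · rintro ⟨s, h⟩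
    cases s with
    | var x => exact Or.inr ⟨x, h⟩
    | app f a => exact Or.inl ⟨f, a, h, Set.mem_univ f⟩

theorem mem_tn_univ {t : Tm F ar} {k : List ℕ} : k ∈ tn Set.univ t ↔ Np t k := by
  rw [mem_tn_iff, Np]
  constructor
  · rintro ⟨f, a, h, _⟩
    exact ⟨f, a, h⟩
  · rintro ⟨f, a, h⟩
    exact ⟨f, a, h, Set.mem_univ f⟩

theorem mem_vps {r : Tm F ar} {x : ℕ} {k : List ℕ} :
    k ∈ vps r x ↔ r.subAt k = some (Tm.var x) := by
  unfold vps
  simp only [Finset.mem_filter]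
  exact ⟨fun h => h.2, fun h => ⟨mem_ps.2 ⟨_, h⟩, h⟩⟩

theorem ps_append {t u : Tm F ar} {p k : List ℕ} (h : t.subAt p = some u) :
    p ++ k ∈ ps t ↔ k ∈ ps u := by
  rw [mem_ps, mem_ps, subAt_append h]

theorem ps_of_prefix {t : Tm F ar} {p k : List ℕ} (h : p <+: k) (hk : k ∈ ps t) : p ∈ ps t := by
  obtain ⟨m, rfl⟩ := h
  obtain ⟨s, hs⟩ := mem_ps.1 hk
  obtain ⟨v, hv, _⟩ := subAt_prefixP hs
  exact mem_ps.2 ⟨v, hv⟩

theorem subAt_repl_below {t u s : Tm F ar} {p : List ℕ} (h : t.subAt p = some u) (k : List ℕ) :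
    (t.repl p s).subAt (p ++ k) = s.subAt k := by
  induction p generalizing t with
  | nil => rw [repl_nilP, List.nil_append]
  | cons i p ih =>
    cases t with
    | var x => exact absurd h (by simp [Tm.subAt])
    | app f a =>
      obtain ⟨hi, h⟩ := subAt_consP.1 h
      rw [repl_consP hi, List.cons_append]
      simp only [Tm.subAt]
      rw [dif_pos hi, Function.update_self]
      exact ih h

theorem subAt_repl_par {t s : Tm F ar} {p k : List ℕ} (h1 : ¬ p <+: k) (h2 : ¬ k <+: p) :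
    (t.repl p s).subAt k = t.subAt k := by
  induction p generalizing t k with
  | nil => exact absurd (List.nil_prefix) h1
  | cons i p ih =>
    cases k with
    | nil => exact absurd (List.nil_prefix) h2
    | cons j k =>
      cases t with
      | var x => rfl
      | app f a =>
        by_cases hi : i < ar f
        · rw [repl_consP hi]
          simp only [Tm.subAt]
          by_cases hj : j < ar f
          · rw [dif_pos hj, dif_pos hj]
            by_cases hij : i = j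
            · subst hij
              rw [Function.update_self]
              refine ih ?_ ?_
              · intro h0
                exact h1 ((List.cons_prefix_cons).2 ⟨rfl, h0⟩)
              · intro h0
                exact h2 ((List.cons_prefix_cons).2 ⟨rfl, h0⟩)
            · rw [Function.update_of_ne]
              intro h0
              exact hij (congrArg Fin.val h0).symm
          · rw [dif_neg hj, dif_neg hj]
        · simp only [Tm.repl]
          rw [dif_neg hi]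

theorem subAt_repl_above {t u s v : Tm F ar} {k m : List ℕ} (h : t.subAt (k ++ m) = some u)
    (hk : t.subAt k = some v) : (t.repl (k ++ m) s).subAt k = some (v.repl m s) := by
  induction k generalizing t with
  | nil =>
    rw [subAt_nilP] at hk
    cases hk
    rw [subAt_nilP, List.nil_append]
  | cons i k ih =>
    cases t with
    | var x => exact absurd hk (by simp [Tm.subAt])
    | app f a =>
      rw [List.cons_append] at h ⊢
      obtain ⟨hi, h⟩ := subAt_consP.1 h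
      obtain ⟨_, hk⟩ := subAt_consP.1 hk
      rw [repl_consP hi]
      refine subAt_consP.2 ⟨hi, ?_⟩
      rw [Function.update_self]
      exact ih h hk

theorem mem_ps_repl {t u s : Tm F ar} {p k : List ℕ} (h : t.subAt p = some u)
    (hk : ¬ p <+: k) : k ∈ ps (t.repl p s) ↔ k ∈ ps t := by
  by_cases hkp : k <+: p
  · obtain ⟨m, rfl⟩ := hkp
    obtain ⟨v, hv, _⟩ := subAt_prefixP h
    exact ⟨fun _ => mem_ps.2 ⟨v, hv⟩, fun _ => mem_ps.2 ⟨_, subAt_repl_above h hv⟩⟩
  · rw [mem_ps, mem_ps, subAt_repl_par hk hkp]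

theorem np_repl {t u s : Tm F ar} {p k : List ℕ} (h : t.subAt p = some u)
    (hk : ¬ p <+: k) : Np (t.repl p s) k ↔ Np t k := by
  by_cases hkp : k <+: p
  · obtain ⟨m, rfl⟩ := hkp
    obtain ⟨v, hv, hm⟩ := subAt_prefixP h
    cases m with
    | nil =>
      rw [List.append_nil] at hk
      exact absurd (List.prefix_refl k) hk
    | cons i m =>
      cases v with
      | var x => exact absurd hm (by simp [Tm.subAt])
      | app f a =>
        obtain ⟨hi, _⟩ := subAt_consP.1 hm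
        have h1 := subAt_repl_above (s := s) h hv
        rw [repl_consP hi] at h1
        exact ⟨fun _ => ⟨f, a, hv⟩, fun _ => ⟨f, _, h1⟩⟩
  · rw [Np, Np, subAt_repl_par hk hkp]

/-- The non-variable positions are closed under prefixes. -/
theorem np_of_prefix {t : Tm F ar} {p : List ℕ} {i : ℕ} {k : List ℕ} (h : p ++ i :: k ∈ ps t) :
    Np t p := by
  obtain ⟨s, hs⟩ := mem_ps.1 h
  obtain ⟨v, hv, hm⟩ := subAt_prefixP hs
  cases v with
  | var x => exact absurd hm (by simp [Tm.subAt])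
  | app f a => exact ⟨f, a, hv⟩

theorem ps_subst_cases {r : Tm F ar} {σ : ℕ → Tm F ar} {k : List ℕ} (h : k ∈ ps (r.subst σ)) :
    Np r k ∨ ∃ j x n, r.subAt j = some (Tm.var x) ∧ n ∈ ps (σ x) ∧ k = j ++ n := by
  rcases tv_subst_cases h with h1 | ⟨j, x, n, h1, h2, h3⟩
  · exact Or.inl (mem_tn_univ.1 h1)
  · exact Or.inr ⟨j, x, n, h1, h2, h3⟩

theorem not_np_of_var {r : Tm F ar} {j : List ℕ} {x : ℕ} (h : r.subAt j = some (Tm.var x))
    (n : List ℕ) : ¬ Np r (j ++ n) := by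
  rw [← mem_tn_univ]
  exact not_mem_tn_of_var h n

/-- A position above or at a variable position and comparable with something below it. -/
theorem prefix_var {r s : Tm F ar} {j u n : List ℕ} {x : ℕ} (h : r.subAt j = some (Tm.var x))
    (hu : r.subAt u = some s) (h1 : u <+: j ++ n) : u <+: j := by
  rcases List.prefix_or_prefix_of_prefix h1 (List.prefix_append j n) with h2 | h2
  · exact h2
  · obtain ⟨m, rfl⟩ := h2
    rw [subAt_append h] at hu
    cases m with
    | nil => rw [List.append_nil]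
    | cons i m => exact absurd hu (by simp [Tm.subAt])

variable {a : Stp F ar}

theorem p_mem_pat (hT : IsTRS R) (ha : a.OK R) : a.p ∈ a.pat := by
  rw [Stp.pat, Finset.mem_image]
  refine ⟨[], ?_, List.append_nil _⟩
  rw [mem_tn_univ]
  have h1 := (hT a.q ha.1).1
  cases h2 : a.q.1 with
  | var x => exact absurd h2 (h1 x)
  | app f b => exact ⟨f, b, rfl⟩

theorem mem_pat {f : List ℕ} : f ∈ a.pat ↔ ∃ k, f = a.p ++ k ∧ Np a.q.1 k := by
  rw [Stp.pat, Finset.mem_image]
  constructor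
  · rintro ⟨k, hk, rfl⟩
    exact ⟨k, rfl, mem_tn_univ.1 hk⟩
  · rintro ⟨k, rfl, hk⟩
    exact ⟨k, mem_tn_univ.2 hk, rfl⟩

theorem pat_subset (ha : a.OK R) : a.pat ⊆ ps a.t := by
  intro f hf
  obtain ⟨k, rfl, hk⟩ := mem_pat.1 hf
  obtain ⟨_, σ, h1, _⟩ := ha
  rw [ps_append h1]
  exact tn_subset_tv _ (tn_subset_subst _ σ (mem_tn_univ.2 hk))

theorem og_out {e : List ℕ} (h : ¬ a.p <+: e) : a.og e = e := by
  rw [Stp.og, if_neg h]

theorem og_var {k n : List ℕ} {x : ℕ} (h : a.q.2.subAt k = some (Tm.var x)) :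
    a.og (a.p ++ (k ++ n)) = a.p ++ (vpos a.q.1 x ++ n) := by
  rw [Stp.og, if_pos (List.prefix_append _ _), List.drop_left, along_append h]

theorem not_cre_out {e : List ℕ} (h : ¬ a.p <+: e) : ¬ a.Cre e := by
  rintro ⟨k, rfl, _⟩
  exact h (List.prefix_append _ _)

theorem not_cre_var {k n : List ℕ} {x : ℕ} (h : a.q.2.subAt k = some (Tm.var x)) :
    ¬ a.Cre (a.p ++ (k ++ n)) := by
  rintro ⟨m, hm, hn⟩
  rw [← List.append_cancel_left hm] at hn
  exact not_np_of_var h n hn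

theorem mem_tgt_out (ha : a.OK R) {e : List ℕ} (h : ¬ a.p <+: e) :
    e ∈ ps a.tgt ↔ e ∈ ps a.t := by
  obtain ⟨_, σ, h1, h2⟩ := ha
  rw [h2]
  exact mem_ps_repl h1 h

/-- The positions of the target. -/
theorem tgt_cases (ha : a.OK R) {σ : ℕ → Tm F ar} (h1 : a.tgt = a.t.repl a.p (a.q.2.subst σ))
    {e : List ℕ} (he : e ∈ ps a.tgt) :
    (¬ a.p <+: e ∧ e ∈ ps a.t) ∨ (∃ k, e = a.p ++ k ∧ Np a.q.2 k) ∨
      ∃ k x n, e = a.p ++ (k ++ n) ∧ a.q.2.subAt k = some (Tm.var x) ∧ n ∈ ps (σ x) := by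
  by_cases hp : a.p <+: e
  · right
    obtain ⟨m, rfl⟩ := hp
    obtain ⟨_, σ', h3, _⟩ := ha
    obtain ⟨s, hs⟩ := mem_ps.1 he
    rw [h1, subAt_repl_below h3] at hs
    rcases ps_subst_cases (mem_ps.2 ⟨s, hs⟩) with h4 | ⟨j, x, n, h4, h5, h6⟩
    · exact Or.inl ⟨m, rfl, h4⟩
    · exact Or.inr ⟨j, x, n, by rw [h6], h4, h5⟩
  · exact Or.inl ⟨hp, (mem_tgt_out ha hp).1 he⟩

/-- The positions of the source. -/
theorem src_cases {σ : ℕ → Tm F ar} (h1 : a.t.subAt a.p = some (a.q.1.subst σ))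
    {f : List ℕ} (hf : f ∈ ps a.t) :
    (¬ a.p <+: f) ∨ f ∈ a.pat ∨
      ∃ k x n, f = a.p ++ (k ++ n) ∧ a.q.1.subAt k = some (Tm.var x) ∧ n ∈ ps (σ x) := by
  by_cases hp : a.p <+: f
  · right
    obtain ⟨m, rfl⟩ := hp
    rw [ps_append h1] at hf
    rcases ps_subst_cases hf with h4 | ⟨j, x, n, h4, h5, h6⟩
    · exact Or.inl (mem_pat.2 ⟨m, rfl, h4⟩)
    · exact Or.inr ⟨j, x, n, by rw [h6], h4, h5⟩
  · exact Or.inl hp

theorem mem_tgt_cre (ha : a.OK R) {e : List ℕ} (h : a.Cre e) : e ∈ ps a.tgt := by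
  obtain ⟨k, rfl, hk⟩ := h
  obtain ⟨_, σ, h1, h2⟩ := ha
  have h3 : k ∈ ps (a.q.2.subst σ) := tn_subset_tv _ (tn_subset_subst _ σ (mem_tn_univ.2 hk))
  obtain ⟨s, hs⟩ := mem_ps.1 h3
  rw [h2]
  exact mem_ps.2 ⟨s, by rw [subAt_repl_below h1, hs]⟩

theorem mem_tgt_var (ha : a.OK R) {σ : ℕ → Tm F ar} (h1 : a.tgt = a.t.repl a.p (a.q.2.subst σ))
    {k n : List ℕ} {x : ℕ} (hk : a.q.2.subAt k = some (Tm.var x)) (hn : n ∈ ps (σ x)) :
    a.p ++ (k ++ n) ∈ ps a.tgt := by
  obtain ⟨_, σ', h3, _⟩ := ha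
  have h4 : k ++ n ∈ ps (a.q.2.subst σ) := (mem_tv_subst hk σ n).2 hn
  obtain ⟨s, hs⟩ := mem_ps.1 h4
  rw [h1]
  exact mem_ps.2 ⟨s, by rw [subAt_repl_below h3, hs]⟩

/-- The origin is a position of the source outside of the pattern. -/
theorem og_mem (hT : IsTRS R) (hL : LeftLinear R) (ha : a.OK R) {e : List ℕ} (he : e ∈ ps a.tgt)
    (hc : ¬ a.Cre e) : a.og e ∈ ps a.t ∧ a.og e ∉ a.pat := by
  have ha' := ha
  obtain ⟨hR, σ, h1, h2⟩ := ha'
  rcases tgt_cases ha h2 he with ⟨h3, h4⟩ | h3 | ⟨k, x, n, rfl, h3, h4⟩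
  · rw [og_out h3]
    refine ⟨h4, fun h5 => ?_⟩
    obtain ⟨m, rfl, _⟩ := mem_pat.1 h5
    exact h3 (List.prefix_append _ _)
  · exact absurd h3 hc
  · have h5 : a.q.1.subAt (vpos a.q.1 x) = some (Tm.var x) :=
      vpos_spec ((hT a.q hR).2 x (occ_of_subAt h3))
    rw [og_var h3]
    refine ⟨?_, fun h6 => ?_⟩
    · rw [ps_append h1]
      exact (mem_tv_subst h5 σ n).2 h4
    · obtain ⟨m, hm, hn⟩ := mem_pat.1 h6
      rw [← List.append_cancel_left hm] at hn
      exact not_np_of_var h5 n hn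

theorem mem_cps {e f : List ℕ} : e ∈ a.cps f ↔ e ∈ ps a.tgt ∧ ¬ a.Cre e ∧ a.og e = f := by
  unfold Stp.cps
  simp only [Finset.mem_filter]

theorem cps_out (ha : a.OK R) {f : List ℕ} (h : ¬ a.p <+: f) (hf : f ∈ ps a.t) :
    a.cps f = {f} := by
  ext e
  rw [mem_cps, Finset.mem_singleton]
  constructor
  · rintro ⟨_, _, h3⟩
    by_cases hp : a.p <+: e
    · exfalso
      apply h
      rw [← h3, Stp.og, if_pos hp]
      exact List.prefix_append _ _
    · rw [og_out hp] at h3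
      exact h3
  · rintro rfl
    exact ⟨(mem_tgt_out ha h).2 hf, not_cre_out h, og_out h⟩

theorem cps_var (hT : IsTRS R) (hL : LeftLinear R) (ha : a.OK R) {σ : ℕ → Tm F ar}
    (h1 : a.tgt = a.t.repl a.p (a.q.2.subst σ)) {k n : List ℕ} {x : ℕ}
    (hk : a.q.1.subAt k = some (Tm.var x)) (hn : n ∈ ps (σ x)) :
    a.cps (a.p ++ (k ++ n)) = (vps a.q.2 x).image fun j => a.p ++ (j ++ n) := by
  have hq : a.q.1.Linear := hL a.q ha.1
  have hR := ha.1
  ext e
  rw [mem_cps, Finset.mem_image]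
  constructor
  · rintro ⟨h2, h3, h4⟩
    rcases tgt_cases ha h1 h2 with ⟨h5, _⟩ | h5 | ⟨k', x', n', rfl, h5, h6⟩
    · rw [og_out h5] at h4
      exact absurd (h4 ▸ List.prefix_append _ _) h5
    · exact absurd h5 h3
    · rw [og_var h5] at h4
      have h7 : a.q.1.subAt (vpos a.q.1 x') = some (Tm.var x') :=
        vpos_spec ((hT a.q hR).2 x' (occ_of_subAt h5))
      obtain ⟨_, e2, e3⟩ := varpos_eq h7 hk (List.append_cancel_left h4)
      subst e2 e3
      exact ⟨k', mem_vps.2 h5, rfl⟩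
  · rintro ⟨j, hj, rfl⟩
    have hj := mem_vps.1 hj
    refine ⟨mem_tgt_var ha h1 hj hn, not_cre_var hj, ?_⟩
    rw [og_var hj, vpos_eq hq hk]

/-- The substitution of a step is determined by the source, on the variables of the left side. -/
theorem subst_unique {σ σ' : ℕ → Tm F ar} (h : a.t.subAt a.p = some (a.q.1.subst σ))
    (h' : a.t.subAt a.p = some (a.q.1.subst σ')) {x : ℕ} (hx : 0 < a.q.1.occ x) : σ x = σ' x := by
  rw [h] at h'
  exact Tm.subst_inj a.q.1 (Option.some.inj h') x hx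

end Pool.Agent.Work.MP_d87e04_lc.SS
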