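import Pool.Agent.Work.MP_d87e04_lc.SS.SMono

/-!
# Module SSeqL (M): left weights along a sequence of parallel steps

Induction on `qs` (generalizing `y`): `seqW y ρ τ (q :: qs) = seqW y₁ ρ τ qs ++ [(false, a)]` with
`a = ⟨y, q, ρ, y₁⟩`, `y₁ = y.repl q (ρ.2 τ)`, and `LW (ws ++ [(false, a)]) V = wU S a (LW ws V)`.
The positions below `q` are not below the other members of the list.
-/

set_option autoImplicit false

namespace Pool.Agent.Work.MP_d87e04_lc.SS

open Pool.Agent.Work.MP_d87e04_lc.CF Pool.Agent.Work.MP_d87e04_lc.CG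

universe u

variable {F : Type u} {ar : F → ℕ} {R : Set (Rule F ar)} {S : Rule F ar → Set (List ℕ)}

theorem Seq.tail {y : Tm F ar} {ρ : Rule F ar} {τ : ℕ → Tm F ar} {q : List ℕ}
    {qs : List (List ℕ)} (h : Seq y ρ τ (q :: qs)) (s : Tm F ar) : Seq (y.repl q s) ρ τ qs := by
  have hp := List.pairwise_cons.1 h.par
  refine ⟨hp.2, fun q' hq' => ?_⟩
  rw [subAt_repl_par (hp.1 q' hq').1 (hp.1 q' hq').2]
  exact h.at_ q' (List.mem_cons_of_mem _ hq')

private theorem par_below {q q' e : List ℕ} (h : ¬ q <+: q' ∧ ¬ q' <+: q) (he : q <+: e) :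
    ¬ q' <+: e := fun h' => by
  rcases List.prefix_or_prefix_of_prefix he h' with h3 | h3
  · exact h.1 h3
  · exact h.2 h3

private theorem Seq.ok {y : Tm F ar} {ρ : Rule F ar} {τ : ℕ → Tm F ar} {q : List ℕ}
    {qs : List (List ℕ)} (hρ : ρ ∈ R) (h : Seq y ρ τ (q :: qs)) :
    (⟨y, q, ρ, y.repl q (ρ.2.subst τ)⟩ : Stp F ar).OK R :=
  ⟨hρ, τ, h.at_ q (List.mem_cons_self), rfl⟩

private theorem isW_append {T S P : Type*} (K : Sc T S P) (G : Set S) :
    ∀ (ws ws' : List (Bool × S)) (x y z : T), K.IsW G x ws y → K.IsW G y ws' z →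
      K.IsW G x (ws ++ ws') z := by
  intro ws
  induction ws with
  | nil =>
    intro ws' x y z h h'
    rw [show x = y from h]
    exact h'
  | cons l ws ih =>
    intro ws' x y z h h'
    obtain ⟨b, c⟩ := l
    cases b with
    | true => exact ⟨h.1, h.2.1, ih ws' _ _ _ h.2.2 h'⟩
    | false => exact ⟨h.1, h.2.1, ih ws' _ _ _ h.2.2 h'⟩

private theorem LW_append {T S P : Type*} (K : Sc T S P) :
    ∀ (ws ws' : List (Bool × S)) (v : P → ℕ), K.LW (ws ++ ws') v = K.LW ws' (K.LW ws v) := by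
  intro ws
  induction ws with
  | nil => intro ws' v; rfl
  | cons l ws ih =>
    intro ws' v
    obtain ⟨b, c⟩ := l
    cases b with
    | true => exact ih ws' _
    | false => exact ih ws' _

private theorem LW_seqW_cons (y : Tm F ar) (ρ : Rule F ar) (τ : ℕ → Tm F ar) (q : List ℕ)
    (qs : List (List ℕ)) (V : List ℕ → ℕ) :
    (sc S).LW (seqW y ρ τ (q :: qs)) V = wU S ⟨y, q, ρ, y.repl q (ρ.2.subst τ)⟩
      ((sc S).LW (seqW (y.repl q (ρ.2.subst τ)) ρ τ qs) V) := by
  rw [seqW, LW_append]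
  rfl

theorem isW_seq {y : Tm F ar} {ρ : Rule F ar} {τ : ℕ → Tm F ar} {qs : List (List ℕ)}
    (hρ : ρ ∈ R) (h : Seq y ρ τ qs) :
    (sc S).IsW {x | x.OK R} (seqT y (ρ.2.subst τ) qs) (seqW y ρ τ qs) y := by
  induction qs generalizing y with
  | nil => exact rfl
  | cons q qs ih =>
    rw [seqT, seqW]
    exact isW_append _ _ _ _ _ _ _ (ih (h.tail _)) ⟨h.ok hρ, rfl, rfl⟩

theorem mem_seqT_out {y : Tm F ar} {ρ : Rule F ar} {τ : ℕ → Tm F ar} {qs : List (List ℕ)}
    (h : Seq y ρ τ qs) {s : Tm F ar} {e : List ℕ} (hq : ∀ q ∈ qs, ¬ q <+: e) :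
    e ∈ ps (seqT y s qs) ↔ e ∈ ps y := by
  induction qs generalizing y with
  | nil => exact Iff.rfl
  | cons q qs ih =>
    rw [seqT, ih (h.tail s) (fun q' hq' => hq q' (List.mem_cons_of_mem _ hq'))]
    exact mem_ps_repl (h.at_ q (List.mem_cons_self)) (hq q (List.mem_cons_self))

theorem mem_seqT_below {y : Tm F ar} {ρ : Rule F ar} {τ : ℕ → Tm F ar} {qs : List (List ℕ)}
    (h : Seq y ρ τ qs) {s : Tm F ar} {q k : List ℕ} (hq : q ∈ qs) :
    q ++ k ∈ ps (seqT y s qs) ↔ k ∈ ps s := by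
  induction qs generalizing y with
  | nil => exact absurd hq (List.not_mem_nil)
  | cons q₀ qs ih =>
    rw [seqT]
    rcases List.mem_cons.1 hq with rfl | hq
    · have hp := List.pairwise_cons.1 h.par
      rw [mem_seqT_out (h.tail s) (fun q' hq' => par_below (hp.1 q' hq') (List.prefix_append _ _))]
      refine ps_append ?_
      have := subAt_repl_below (s := s) (h.at_ q (List.mem_cons_self)) []
      rw [List.append_nil] at this
      rw [this]
      cases s <;> rfl
    · exact ih (h.tail s) hq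

theorem LW_seq_out {y : Tm F ar} {ρ : Rule F ar} {τ : ℕ → Tm F ar} {qs : List (List ℕ)}
    (hρ : ρ ∈ R) (h : Seq y ρ τ qs) (V : List ℕ → ℕ) {e : List ℕ} (he : e ∈ ps y)
    (hq : ∀ q ∈ qs, ¬ q <+: e) : (sc S).LW (seqW y ρ τ qs) V e = V e := by
  induction qs generalizing y with
  | nil => rfl
  | cons q qs ih =>
    rw [LW_seqW_cons, wU_out (h.ok hρ) (hq q (List.mem_cons_self)) he]
    exact ih (h.tail _) ((mem_ps_repl (h.at_ q (List.mem_cons_self))
      (hq q (List.mem_cons_self))).2 he) (fun q' hq' => hq q' (List.mem_cons_of_mem _ hq'))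

theorem LW_seq_var (hT : IsTRS R) (hL : LeftLinear R) {y : Tm F ar} {ρ : Rule F ar}
    {τ : ℕ → Tm F ar} {qs : List (List ℕ)} (hρ : ρ ∈ R) (h : Seq y ρ τ qs) (V : List ℕ → ℕ)
    {q k n : List ℕ} {x : ℕ} (hq : q ∈ qs) (hk : ρ.1.subAt k = some (Tm.var x))
    (hn : n ∈ ps (τ x)) :
    (sc S).LW (seqW y ρ τ qs) V (q ++ (k ++ n)) =
      cp ((vps ρ.2 x).image fun j => q ++ (j ++ n)) V := by
  induction qs generalizing y with
  | nil => exact absurd hq (List.not_mem_nil)
  | cons q₀ qs ih =>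
    have hp := List.pairwise_cons.1 h.par
    rw [LW_seqW_cons]
    rcases List.mem_cons.1 hq with rfl | hq
    · have key := wU_var (S := S) hT hL (h.ok hρ) (h.at_ q (List.mem_cons_self)) rfl
        (w := (sc S).LW (seqW (y.repl q (ρ.2.subst τ)) ρ τ qs) V) hk hn
      refine key.trans ?_
      have hval : ∀ e ∈ ((vps ρ.2 x).image fun j => q ++ (j ++ n)),
          (sc S).LW (seqW (y.repl q (ρ.2.subst τ)) ρ τ qs) V e = V e := by
        intro e he
        obtain ⟨j, hj, rfl⟩ := Finset.mem_image.1 he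
        refine LW_seq_out hρ (h.tail _) V ?_
          (fun q' hq' => par_below (hp.1 q' hq') (List.prefix_append _ _))
        exact mem_tgt_var (h.ok hρ) rfl (mem_vps.1 hj) hn
      exact le_antisymm (cp_le_cp (Finset.Subset.refl _) fun e he => (hval e he).le)
        (cp_le_cp (Finset.Subset.refl _) fun e he => (hval e he).ge)
    · have hout : ¬ q₀ <+: q ++ (k ++ n) :=
        par_below ⟨(hp.1 q hq).2, (hp.1 q hq).1⟩ (List.prefix_append _ _)
      have hmem : q ++ (k ++ n) ∈ ps y := by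
        refine (ps_append (h.at_ q (List.mem_cons_of_mem _ hq))).2 ?_
        exact (mem_tv_subst hk τ n).2 hn
      rw [wU_out (h.ok hρ) hout hmem]
      exact ih (h.tail _) hq

theorem LW_seq_le (hT : IsTRS R) (hL : LeftLinear R) (hS : Sok R S) {y : Tm F ar}
    {ρ : Rule F ar} {τ : ℕ → Tm F ar} {qs : List (List ℕ)} (hρ : ρ ∈ R) (h : Seq y ρ τ qs)
    {V : List ℕ → ℕ} {B : ℕ} (h0 : 1 ≤ B) (h1 : ∀ e, V e ≤ B)
    (h2 : ∀ q ∈ qs, ∀ u ∈ S ρ, ∀ e ∈ ps (seqT y (ρ.2.subst τ) qs), q ++ u <+: e →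
      1 + V e ≤ B) (e : List ℕ) : (sc S).LW (seqW y ρ τ qs) V e ≤ B := by
  induction qs generalizing y e with
  | nil => exact h1 e
  | cons q qs ih =>
    have hp := List.pairwise_cons.1 h.par
    rw [LW_seqW_cons]
    refine (wU_le hT hL hS (h.ok hρ) _ e).trans (lab_le h0 ?_ ?_)
    · intro e' _
      exact ih (h.tail _) (fun q' hq' => h2 q' (List.mem_cons_of_mem _ hq')) e'
    · rintro e' he' ⟨u, hu, hue⟩
      have hue : q ++ u <+: e' := hue
      have hqe : q <+: e' := (List.prefix_append _ _).trans hue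
      have hall : ∀ q' ∈ qs, ¬ q' <+: e' := fun q' hq' => par_below (hp.1 q' hq') hqe
      rw [LW_seq_out hρ (h.tail _) V he' hall]
      exact h2 q (List.mem_cons_self) u hu e' ((mem_seqT_out (h.tail _) hall).2 he') hue

end Pool.Agent.Work.MP_d87e04_lc.SS
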