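import Pool.Agent.Work.MP_d87e04_lc.SS.SPos

/-!
# Module SStep (S-M): steps of `R` are steps `Stp`, steps in a context
-/

set_option autoImplicit false

namespace Pool.Agent.Work.MP_d87e04_lc.SS

open Pool.Agent.Work.MP_d87e04_lc.CF Pool.Agent.Work.MP_d87e04_lc.CG

universe u

variable {F : Type u} {ar : F → ℕ} {R : Set (Rule F ar)}

private theorem subAt_nilS (t : Tm F ar) : t.subAt [] = some t := by
  cases t <;> rfl

private theorem repl_nilS (t s : Tm F ar) : t.repl [] s = s := by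
  cases t <;> rfl

private theorem subAt_consS {f : F} {a : Fin (ar f) → Tm F ar} {i : ℕ} {p : List ℕ}
    {s : Tm F ar} : (Tm.app f a).subAt (i :: p) = some s ↔
      ∃ h : i < ar f, (a ⟨i, h⟩).subAt p = some s := by
  simp only [Tm.subAt]
  constructor
  · intro h
    split at h
    · rename_i hi
      exact ⟨hi, h⟩
    · exact absurd h (by simp)
  · rintro ⟨h, hs⟩
    rw [dif_pos h]
    exact hs

private theorem repl_consS {f : F} {a : Fin (ar f) → Tm F ar} {i : ℕ} (h : i < ar f)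
    (p : List ℕ) (s : Tm F ar) : (Tm.app f a).repl (i :: p) s =
      Tm.app f (Function.update a ⟨i, h⟩ ((a ⟨i, h⟩).repl p s)) := by
  simp only [Tm.repl]
  rw [dif_pos h]

theorem exists_stp {x y : Tm F ar} (h : Step R x y) :
    ∃ a : Stp F ar, a.OK R ∧ a.t = x ∧ a.tgt = y := by
  induction h with
  | @root q hq σ =>
    exact ⟨⟨q.1.subst σ, [], q, q.2.subst σ⟩, ⟨hq, σ, subAt_nilS _, (repl_nilS _ _).symm⟩, rfl, rfl⟩
  | @arg f a i t _ ih =>
    obtain ⟨b, ⟨hq, σ, h1, h2⟩, h3, h4⟩ := ih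
    refine ⟨⟨Tm.app f a, i.1 :: b.p, b.q, Tm.app f (Function.update a i t)⟩,
      ⟨hq, σ, ?_, ?_⟩, rfl, rfl⟩
    · show (Tm.app f a).subAt (i.1 :: b.p) = _
      refine subAt_consS.2 ⟨i.2, ?_⟩
      rw [← h1, h3]
    · show Tm.app f (Function.update a i t) = (Tm.app f a).repl (i.1 :: b.p) _
      rw [repl_consS i.2, ← h4, h2, h3]

private theorem step_aux {q : Rule F ar} (hq : q ∈ R) (σ : ℕ → Tm F ar) {p : List ℕ} :
    ∀ {t : Tm F ar}, t.subAt p = some (q.1.subst σ) → Step R t (t.repl p (q.2.subst σ)) := by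
  induction p with
  | nil =>
    intro t h
    rw [subAt_nilS] at h
    cases h
    rw [repl_nilS]
    exact Step.root hq σ
  | cons i p ih =>
    intro t h
    cases t with
    | var x => exact absurd h (by simp [Tm.subAt])
    | app f a =>
      obtain ⟨hi, h⟩ := subAt_consS.1 h
      rw [repl_consS hi]
      exact Step.arg a ⟨i, hi⟩ (ih h)

theorem step_of_ok {a : Stp F ar} (h : a.OK R) : Step R a.t a.tgt := by
  obtain ⟨hq, σ, h1, h2⟩ := h
  rw [h2]
  exact step_aux hq σ h1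

private theorem repl_replS {p : List ℕ} : ∀ {t u : Tm F ar}, t.subAt p = some u →
    ∀ (s v : Tm F ar) (m : List ℕ),
      (t.repl p s).repl (p ++ m) v = t.repl p (s.repl m v) := by
  induction p with
  | nil =>
    intro t u _ s v m
    rw [repl_nilS, repl_nilS]
    rfl
  | cons i p ih =>
    intro t u h s v m
    cases t with
    | var x => exact absurd h (by simp [Tm.subAt])
    | app f a =>
      obtain ⟨hi, h⟩ := subAt_consS.1 h
      rw [repl_consS hi, List.cons_append, repl_consS hi, repl_consS hi, Function.update_self,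
        ih h, Function.update_idem]

/-- A step in a context. -/
theorem ok_ctx {z : Stp F ar} (hz : z.OK R) {t : Tm F ar} {p : List ℕ} {u : Tm F ar}
    (h : t.subAt p = some u) : (⟨t.repl p z.t, p ++ z.p, z.q, t.repl p z.tgt⟩ : Stp F ar).OK R := by
  obtain ⟨hq, σ, h1, h2⟩ := hz
  refine ⟨hq, σ, ?_, ?_⟩
  · show (t.repl p z.t).subAt (p ++ z.p) = _
    rw [subAt_repl_below h]
    exact h1
  · show t.repl p z.tgt = (t.repl p z.t).repl (p ++ z.p) _
    rw [repl_replS h, h2]

/-- Two steps of the same term, the first one not above the second one. -/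
theorem pos_cases {a b : Stp F ar} (ha : a.OK R) (hb : b.OK R) (hab : a.t = b.t)
    (h : b.p <+: a.p) :
    (∃ p u, a.p = b.p ++ p ∧ b.q.1.subAt p = some u ∧ ∀ x, u ≠ Tm.var x) ∨
      ∃ k n x, b.q.1.subAt k = some (Tm.var x) ∧ a.p = b.p ++ (k ++ n) := by
  obtain ⟨m, hm⟩ := h
  obtain ⟨_, τ, h1, _⟩ := ha
  obtain ⟨_, σ, h2, _⟩ := hb
  rw [hab, ← hm, subAt_append h2] at h1
  rcases ps_subst_cases (mem_ps.2 ⟨_, h1⟩) with ⟨f, c, hc⟩ | ⟨j, x, n, hj, _, rfl⟩
  · exact Or.inl ⟨m, Tm.app f c, hm.symm, hc, fun x hx => by simp at hx⟩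
  · exact Or.inr ⟨j, n, x, hj, hm.symm⟩

end Pool.Agent.Work.MP_d87e04_lc.SS
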