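import Pool.Agent.Work.MP_d87e04_lc.SS.Defs

/-!
# Module SWord (M): words with decreasing weights

`good_symm`: reverse the word and flip the signs: `LW` of the reversed word is `RW` of the word and
vice versa, the costs are the same by `cost_symm`.

`confluent_of_good`: the word `-...- +...+` from `y` to `z` is reversed. Fix the weights `0` at both
ends. Measure: the multiset of all costs (Dershowitz-Manna order,
`Multiset.wellFounded_isDershowitzMannaLT`) and the number of inversions (pairs `i < j` of a backward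
letter `i` and a forward letter `j`), lexicographically. Replace an adjacent pair `(false, a),
(true, b)` by the word of `Good a b`: the weights on the right (left weights) and on the left (right
weights) do not increase, so the other costs do not increase (componentwise `≤` implies `=` or DM
smaller; DM is compatible with sums). If there is no such pair, the word is `+...+ -...-`.
Compare `CG/Zig.lean`.
-/

set_option autoImplicit false

namespace Pool.Agent.Work.MP_d87e04_lc.SS

open Relation

variable {T S P : Type*} {K : Sc T S P}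

/-! ### Words -/

private theorem isW_append {G : Set S} {z z' : List (Bool × S)} : ∀ {a b : T},
    K.IsW G a (z ++ z') b ↔ ∃ c, K.IsW G a z c ∧ K.IsW G c z' b := by
  induction z with
  | nil =>
    intro a b
    simp [Sc.IsW]
  | cons x z ih =>
    intro a b
    obtain ⟨s, A⟩ := x
    cases s
    · simp only [List.cons_append, Sc.IsW, ih]
      constructor
      · rintro ⟨h1, h2, c, h3, h4⟩; exact ⟨c, ⟨h1, h2, h3⟩, h4⟩
      · rintro ⟨c, ⟨h1, h2, h3⟩, h4⟩; exact ⟨h1, h2, c, h3, h4⟩
    · simp only [List.cons_append, Sc.IsW, ih]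
      constructor
      · rintro ⟨h1, h2, c, h3, h4⟩; exact ⟨c, ⟨h1, h2, h3⟩, h4⟩
      · rintro ⟨c, ⟨h1, h2, h3⟩, h4⟩; exact ⟨h1, h2, c, h3, h4⟩

private theorem RW_append (z z' : List (Bool × S)) (r : P → ℕ) :
    K.RW (z ++ z') r = K.RW z (K.RW z' r) := by
  induction z with
  | nil => rfl
  | cons x z ih =>
    obtain ⟨s, A⟩ := x
    cases s <;> simp only [List.cons_append, Sc.RW, ih]

private theorem LW_append (l : P → ℕ) (z z' : List (Bool × S)) :
    K.LW (z ++ z') l = K.LW z' (K.LW z l) := by
  induction z generalizing l with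
  | nil => rfl
  | cons x z ih =>
    obtain ⟨s, A⟩ := x
    cases s <;> simp only [List.cons_append, Sc.LW, ih]

private theorem CW_append (l : P → ℕ) (z z' : List (Bool × S)) (r : P → ℕ) :
    K.CW (z ++ z') l r = K.CW z l (K.RW z' r) + K.CW z' (K.LW z l) r := by
  induction z generalizing l with
  | nil => simp [Sc.CW, Sc.LW]
  | cons x z ih =>
    obtain ⟨s, A⟩ := x
    cases s <;> simp only [List.cons_append, Sc.CW, Sc.LW, ih, RW_append, Multiset.cons_add]

/-- The reversed word. -/
private def flip : List (Bool × S) → List (Bool × S)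
  | [] => []
  | (s, A) :: z => flip z ++ [(!s, A)]

private theorem isW_flip {G : Set S} {z : List (Bool × S)} : ∀ {a b : T},
    K.IsW G a z b → K.IsW G b (flip z) a := by
  induction z with
  | nil =>
    intro a b h
    exact h.symm
  | cons x z ih =>
    intro a b h
    obtain ⟨s, A⟩ := x
    cases s
    · obtain ⟨h1, h2, h3⟩ := h
      exact isW_append.2 ⟨_, ih h3, h1, rfl, h2⟩
    · obtain ⟨h1, h2, h3⟩ := h
      exact isW_append.2 ⟨_, ih h3, h1, rfl, h2⟩

private theorem LW_flip (z : List (Bool × S)) (v : P → ℕ) : K.LW (flip z) v = K.RW z v := by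
  induction z with
  | nil => rfl
  | cons x z ih =>
    obtain ⟨s, A⟩ := x
    cases s
    · simp only [flip, LW_append, ih, Bool.not_false, Sc.LW, Sc.RW]
    · simp only [flip, LW_append, ih, Bool.not_true, Sc.LW, Sc.RW]

private theorem RW_flip (z : List (Bool × S)) (v : P → ℕ) : K.RW (flip z) v = K.LW z v := by
  induction z generalizing v with
  | nil => rfl
  | cons x z ih =>
    obtain ⟨s, A⟩ := x
    cases s
    · simp only [flip, RW_append, ih, Bool.not_false, Sc.LW, Sc.RW]
    · simp only [flip, RW_append, ih, Bool.not_true, Sc.LW, Sc.RW]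

private theorem CW_flip (hM : K.Mon) (z : List (Bool × S)) (v w : P → ℕ) :
    K.CW (flip z) v w = K.CW z w v := by
  induction z generalizing w with
  | nil => rfl
  | cons x z ih =>
    obtain ⟨s, A⟩ := x
    cases s
    · simp only [flip, CW_append, ih, Bool.not_false, Sc.CW, Sc.RW, LW_flip]
      rw [hM.cost_symm, add_comm, Multiset.cons_add, zero_add]
    · simp only [flip, CW_append, ih, Bool.not_true, Sc.CW, Sc.RW, LW_flip]
      rw [hM.cost_symm, add_comm, Multiset.cons_add, zero_add]

theorem good_symm (hM : K.Mon) {G : Set S} {a b : S} (h : K.Good G a b) : K.Good G b a := by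
  obtain ⟨ws, h1, h2⟩ := h
  refine ⟨flip ws, isW_flip h1, fun v w hv hw => ?_⟩
  obtain ⟨h3, h4, h5⟩ := h2 w v hw hv
  refine ⟨by rw [LW_flip]; exact h4, by rw [RW_flip]; exact h3, ?_⟩
  rcases h5 with h5 | ⟨b', a', rfl, h6, h7⟩
  · refine Or.inl ?_
    rw [CW_flip hM, hM.cost_symm b, hM.cost_symm a, Multiset.pair_comm]
    exact h5
  · refine Or.inr ⟨a', b', rfl, ?_, ?_⟩
    · rw [hM.cost_symm a', hM.cost_symm a]
      exact h7
    · rw [hM.cost_symm b', hM.cost_symm b]
      exact h6

/-! ### Monotonicity -/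

private def DLe (s t : Multiset ℕ) : Prop := s = t ∨ Multiset.IsDershowitzMannaLT s t

private theorem dm_add {s t u v : Multiset ℕ} (h : Multiset.IsDershowitzMannaLT s t)
    (h' : DLe u v) : Multiset.IsDershowitzMannaLT (s + u) (t + v) := by
  obtain ⟨X, Y, Z, hZ, rfl, rfl, h1⟩ := h
  rcases h' with rfl | ⟨X', Y', Z', hZ', rfl, rfl, h1'⟩
  · refine ⟨X + u, Y, Z, hZ, ?_, ?_, h1⟩
    · rw [add_right_comm]
    · rw [add_right_comm]
  · refine ⟨X + X', Y + Y', Z + Z', ?_, ?_, ?_, ?_⟩
    · intro h0
      apply hZ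
      have h2 : Z + Z' = 0 := h0
      have h3 := congrArg Multiset.card h2
      rw [Multiset.card_add, Multiset.card_zero] at h3
      exact Multiset.card_eq_zero.1 (by omega)
    · exact add_add_add_comm _ _ _ _
    · exact add_add_add_comm _ _ _ _
    · intro y hy
      rcases Multiset.mem_add.1 hy with hy | hy
      · obtain ⟨z, hz, hyz⟩ := h1 y hy
        exact ⟨z, Multiset.mem_add.2 (Or.inl hz), hyz⟩
      · obtain ⟨z, hz, hyz⟩ := h1' y hy
        exact ⟨z, Multiset.mem_add.2 (Or.inr hz), hyz⟩

private theorem dle_add {s t u v : Multiset ℕ} (h : DLe s t) (h' : DLe u v) :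
    DLe (s + u) (t + v) := by
  rcases h with rfl | h
  · rcases h' with rfl | h'
    · exact Or.inl rfl
    · refine Or.inr ?_
      rw [add_comm s, add_comm s]
      exact dm_add h' (Or.inl rfl)
  · exact Or.inr (dm_add h h')

private theorem dle_cons {s t : Multiset ℕ} {x y : ℕ} (hxy : x ≤ y) (h : DLe s t) :
    DLe (x ::ₘ s) (y ::ₘ t) := by
  rw [← Multiset.singleton_add, ← Multiset.singleton_add]
  refine dle_add ?_ h
  rcases hxy.eq_or_lt with rfl | hlt
  · exact Or.inl rfl
  · refine Or.inr ⟨0, {x}, {y}, by simp, by simp, by simp, ?_⟩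
    intro a ha
    rw [Multiset.mem_singleton] at ha
    subst ha
    exact ⟨y, Multiset.mem_singleton_self y, hlt⟩

private theorem RW_mono (hM : K.Mon) (z : List (Bool × S)) {w w' : P → ℕ} (h : w ≤ w') :
    K.RW z w ≤ K.RW z w' := by
  induction z with
  | nil => exact h
  | cons x z ih =>
    obtain ⟨s, A⟩ := x
    cases s
    · exact hM.D_mono A _ _ ih
    · exact hM.U_mono A _ _ ih

private theorem CW_mono (hM : K.Mon) (z : List (Bool × S)) {v v' w w' : P → ℕ} (hv : v ≤ v')
    (h : w ≤ w') : DLe (K.CW z v w) (K.CW z v' w') := by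
  induction z generalizing v v' with
  | nil => exact Or.inl rfl
  | cons x z ih =>
    obtain ⟨s, A⟩ := x
    cases s
    · exact dle_cons (hM.cost_mono _ _ _ _ _ (hM.U_mono A _ _ hv) (RW_mono hM z h))
        (ih (hM.U_mono A _ _ hv))
    · exact dle_cons (hM.cost_mono _ _ _ _ _ hv (hM.U_mono A _ _ (RW_mono hM z h)))
        (ih (hM.D_mono A _ _ hv))

private theorem sup_LW (hM : K.Mon) {G : Set S} {z : List (Bool × S)} : ∀ {a b : T} {v : P → ℕ},
    K.IsW G a z b → K.Sup a v → K.Sup b (K.LW z v) := by
  induction z with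
  | nil =>
    intro a b v hz h
    simp only [Sc.IsW] at hz
    subst hz
    exact h
  | cons x z ih =>
    intro a b v hz h
    obtain ⟨s, A⟩ := x
    cases s
    · exact ih hz.2.2 (hM.sup_U A v)
    · exact ih hz.2.2 (hM.sup_D A v)

private theorem sup_RW (hM : K.Mon) {G : Set S} {z : List (Bool × S)} : ∀ {a b : T} {w : P → ℕ},
    K.IsW G a z b → K.Sup b w → K.Sup a (K.RW z w) := by
  induction z with
  | nil =>
    intro a b v hz h
    simp only [Sc.IsW] at hz
    subst hz
    exact h
  | cons x z ih =>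
    intro a b v hz h
    obtain ⟨s, A⟩ := x
    cases s
    · obtain ⟨-, rfl, -⟩ := hz
      exact hM.sup_D A _
    · obtain ⟨-, rfl, -⟩ := hz
      exact hM.sup_U A _

/-! ### Inversions -/

/-- The number of forward letters. -/
private def nT : List (Bool × S) → ℕ
  | [] => 0
  | (true, _) :: z => nT z + 1
  | (false, _) :: z => nT z

/-- The number of pairs (backward letter, later forward letter). -/
private def inv : List (Bool × S) → ℕ
  | [] => 0
  | (true, _) :: z => inv z
  | (false, _) :: z => inv z + nT z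

private theorem nT_swap (z1 z2 : List (Bool × S)) (A B C D : S) :
    nT (z1 ++ ([(true, C), (false, D)] ++ z2)) = nT (z1 ++ ([(false, A), (true, B)] ++ z2)) := by
  induction z1 with
  | nil => simp [nT]
  | cons x z ih =>
    obtain ⟨s, E⟩ := x
    cases s
    · simpa only [List.cons_append, nT] using ih
    · simpa only [List.cons_append, nT, Nat.add_right_cancel_iff] using ih

private theorem inv_swap (z1 z2 : List (Bool × S)) (A B C D : S) :
    inv (z1 ++ ([(true, C), (false, D)] ++ z2)) + 1 =
      inv (z1 ++ ([(false, A), (true, B)] ++ z2)) := by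
  induction z1 with
  | nil =>
    simp only [List.nil_append, List.cons_append, inv, nT]
    omega
  | cons x z ih =>
    obtain ⟨s, E⟩ := x
    cases s
    · simp only [List.cons_append, inv] at ih ⊢
      have := nT_swap z z2 A B C D
      simp only [List.cons_append] at this
      omega
    · simp only [List.cons_append, inv] at ih ⊢
      exact ih

/-- A word has a peak or is a valley. -/
private theorem peak_or_valley (z : List (Bool × S)) :
    (∃ z1 A B z2, z = z1 ++ ([(false, A), (true, B)] ++ z2)) ∨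
    ∃ u v : List S, z = u.map (fun A => (true, A)) ++ v.map (fun A => (false, A)) := by
  induction z with
  | nil => exact Or.inr ⟨[], [], rfl⟩
  | cons x z ih =>
    obtain ⟨s, A⟩ := x
    rcases ih with ⟨z1, A', B, z2, rfl⟩ | ⟨u, v, rfl⟩
    · exact Or.inl ⟨(s, A) :: z1, A', B, z2, rfl⟩
    · cases s
      · cases u with
        | nil => exact Or.inr ⟨[], A :: v, rfl⟩
        | cons B u => exact Or.inl ⟨[], A, B, _, rfl⟩
      · exact Or.inr ⟨A :: u, v, rfl⟩

private theorem isW_fwd {G : Set S} {u : List S} : ∀ {a b : T},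
    K.IsW G a (u.map (fun A => (true, A))) b → ReflTransGen (K.Rel G) a b := by
  induction u with
  | nil =>
    intro a b h
    simp only [List.map_nil, Sc.IsW] at h
    subst h
    exact ReflTransGen.refl
  | cons A u ih =>
    intro a b h
    obtain ⟨h1, h2, h3⟩ := h
    exact ReflTransGen.head ⟨A, h1, h2, rfl⟩ (ih h3)

private theorem isW_bwd {G : Set S} {v : List S} : ∀ {a b : T},
    K.IsW G a (v.map (fun A => (false, A))) b → ReflTransGen (K.Rel G) b a := by
  induction v with
  | nil =>
    intro a b h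
    simp only [List.map_nil, Sc.IsW] at h
    subst h
    exact ReflTransGen.refl
  | cons A v ih =>
    intro a b h
    obtain ⟨h1, h2, h3⟩ := h
    exact ReflTransGen.tail (ih h3) ⟨A, h1, rfl, h2⟩

private theorem exists_fwd {G : Set S} {a b : T} (h : ReflTransGen (K.Rel G) a b) :
    ∃ z, K.IsW G a z b := by
  induction h with
  | refl => exact ⟨[], rfl⟩
  | @tail b c _ h2 ih =>
    obtain ⟨z, hz⟩ := ih
    obtain ⟨A, hA, h3, h4⟩ := h2
    exact ⟨z ++ [(true, A)], isW_append.2 ⟨b, hz, hA, h3, h4⟩⟩

private theorem exists_bwd {G : Set S} {a b : T} (h : ReflTransGen (K.Rel G) a b) :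
    ∃ z, K.IsW G b z a := by
  induction h with
  | refl => exact ⟨[], rfl⟩
  | @tail b c _ h2 ih =>
    obtain ⟨z, hz⟩ := ih
    obtain ⟨A, hA, h3, h4⟩ := h2
    exact ⟨(false, A) :: z, hA, h4, by rw [h3]; exact hz⟩

/-- Every word can be replaced by a valley. -/
private theorem join_of_word (hM : K.Mon) {G : Set S}
    (hP : ∀ a ∈ G, ∀ b ∈ G, K.src a = K.src b → K.Good G a b) {a b : T} (v0 w0 : P → ℕ)
    (hv0 : K.Sup a v0) (hw0 : K.Sup b w0) (C : Multiset ℕ) :
    ∀ (m : ℕ) (z : List (Bool × S)), K.IsW G a z b → K.CW z v0 w0 = C → inv z = m →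
      ∃ c, ReflTransGen (K.Rel G) a c ∧ ReflTransGen (K.Rel G) b c := by
  induction C using (Multiset.wellFounded_isDershowitzMannaLT (α := ℕ)).induction with
  | _ C ihC =>
    intro m
    induction m using Nat.strong_induction_on with
    | _ m ihm =>
      intro z hz hC hm
      rcases peak_or_valley z with ⟨z1, A, B, z2, rfl⟩ | ⟨u, v, rfl⟩
      · obtain ⟨x, h1, h2⟩ := isW_append.1 hz
        obtain ⟨hA, hx, hB, hAB, h3⟩ := h2
        subst hx
        obtain ⟨ws, hws, hgood⟩ := hP A hA B hB hAB.symm
        obtain ⟨hL, hR, hCD⟩ := hgood (K.LW z1 v0) (K.RW z2 w0) (sup_LW hM h1 hv0)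
          (sup_RW hM h3 hw0)
        have hz' : K.IsW G a (z1 ++ (ws ++ z2)) b :=
          isW_append.2 ⟨_, h1, isW_append.2 ⟨_, hws, h3⟩⟩
        have hold : K.CW (z1 ++ ([(false, A), (true, B)] ++ z2)) v0 w0 =
            ({K.cost A (K.U A (K.LW z1 v0)) (K.U B (K.RW z2 w0)),
              K.cost B (K.U A (K.LW z1 v0)) (K.U B (K.RW z2 w0))} : Multiset ℕ) +
            (K.CW z1 v0 (K.D A (K.U B (K.RW z2 w0))) +
              K.CW z2 (K.D B (K.U A (K.LW z1 v0))) w0) := by
          rw [CW_append, CW_append, RW_append]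
          simp only [Sc.CW, Sc.LW, Sc.RW]
          rw [add_left_comm]
          rfl
        have hnew : K.CW (z1 ++ (ws ++ z2)) v0 w0 =
            K.CW ws (K.LW z1 v0) (K.RW z2 w0) +
            (K.CW z1 v0 (K.RW ws (K.RW z2 w0)) + K.CW z2 (K.LW ws (K.LW z1 v0)) w0) := by
          rw [CW_append, CW_append, RW_append, add_left_comm]
        have hrest : DLe (K.CW z1 v0 (K.RW ws (K.RW z2 w0)) + K.CW z2 (K.LW ws (K.LW z1 v0)) w0)
            (K.CW z1 v0 (K.D A (K.U B (K.RW z2 w0))) +
              K.CW z2 (K.D B (K.U A (K.LW z1 v0))) w0) :=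
          dle_add (CW_mono hM z1 le_rfl hR) (CW_mono hM z2 hL le_rfl)
        rcases hCD with hCD | ⟨B', A', rfl, hc1, hc2⟩
        · refine ihC _ ?_ _ _ hz' rfl rfl
          rw [← hC, hold, hnew]
          exact dm_add hCD hrest
        · have hsq : DLe (K.CW [(true, B'), (false, A')] (K.LW z1 v0) (K.RW z2 w0))
              {K.cost A (K.U A (K.LW z1 v0)) (K.U B (K.RW z2 w0)),
                K.cost B (K.U A (K.LW z1 v0)) (K.U B (K.RW z2 w0))} := by
            rw [Multiset.pair_comm]
            simp only [Sc.CW, Sc.RW]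
            exact dle_cons hc1 (dle_cons hc2 (Or.inl rfl))
          have hall := dle_add hsq hrest
          rw [← hold, ← hnew, hC] at hall
          rcases hall with heq | hlt
          · have hinv := inv_swap z1 z2 A B B' A'
            exact ihm _ (by omega) _ hz' heq rfl
          · exact ihC _ hlt _ _ hz' rfl rfl
      · obtain ⟨c, h1, h2⟩ := isW_append.1 hz
        exact ⟨c, isW_fwd h1, isW_bwd h2⟩

theorem confluent_of_good (hM : K.Mon) {G : Set S}
    (hP : ∀ a ∈ G, ∀ b ∈ G, K.src a = K.src b → K.Good G a b) {x y z : T}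
    (h1 : ReflTransGen (K.Rel G) x y) (h2 : ReflTransGen (K.Rel G) x z) :
    ∃ e, ReflTransGen (K.Rel G) y e ∧ ReflTransGen (K.Rel G) z e := by
  obtain ⟨z1, h3⟩ := exists_bwd h1
  obtain ⟨z2, h4⟩ := exists_fwd h2
  exact join_of_word hM hP (fun _ => 0) (fun _ => 0) (hM.sup_zero _) (hM.sup_zero _) _ _ (z1 ++ z2)
    (isW_append.2 ⟨_, h3, h4⟩) rfl rfl

end Pool.Agent.Work.MP_d87e04_lc.SS
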